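import Pool.Agent.Lib.MP_b61f81_nt.Win

/-!
# Many gap vectors with zero imbalance
-/

set_option autoImplicit false

open Finset

namespace Pool.Agent.Lib.MP_b61f81_nt

/-- functions on `ℕ` supported in `[0, 2k)` -/
lemma cc_reflect {k j : ℕ} (hj : j < k) : cc k (2 * k - 1 - j) = - cc k j := by
  unfold cc
  have h1 : ({i ∈ Icc 1 k | k ≤ 2 * k - 1 - j + i ∧ 2 * k - 1 - j < k} : Finset ℕ) = ∅ := by
    rw [Finset.filter_eq_empty_iff]
    intro i _
    omega
  have h2 : ({i ∈ Icc 1 k | k ≤ j ∧ j < k + i} : Finset ℕ) = ∅ := by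
    rw [Finset.filter_eq_empty_iff]
    intro i _
    omega
  have h3 : ({i ∈ Icc 1 k | k ≤ 2 * k - 1 - j ∧ 2 * k - 1 - j < k + i} : Finset ℕ)
      = {i ∈ Icc 1 k | k ≤ j + i ∧ j < k} := by
    ext i
    simp only [mem_filter, mem_Icc]
    omega
  rw [h1, h2, h3]
  simp

lemma cc_neg_ge {k j : ℕ} : -(k : ℤ) ≤ cc k j := by
  unfold cc
  have h2 : #({i ∈ Icc 1 k | k ≤ j + i ∧ j < k} : Finset ℕ) ≤ k := by
    refine (Finset.card_filter_le _ _).trans ?_
    rw [Nat.card_Icc]; omega
  omega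

/-- the half form -/
def hf (k : ℕ) (s : Fin k → ℕ) : ℕ := ∑ j : Fin k, (cc k j).natAbs * s j

/-- two halves glued -/
def glue (k : ℕ) (s s' : Fin k → ℕ) (j : Fin (2 * k)) : ℕ :=
  if h : (j : ℕ) < k then s ⟨j, h⟩ else s' ⟨2 * k - 1 - j, by have := j.isLt; omega⟩

lemma sum_glue (k : ℕ) (s s' : Fin k → ℕ) :
    ∑ j : Fin (2 * k), cc k j * (glue k s s' j : ℤ) = (hf k s' : ℤ) - hf k s := by
  set G : ℕ → ℕ := fun j => if h : j < k then s ⟨j, h⟩ else
    if h' : 2 * k - 1 - j < k then s' ⟨2 * k - 1 - j, h'⟩ else 0 with hG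
  have h1 : ∀ j : Fin (2 * k), glue k s s' j = G j := by
    intro j
    unfold glue
    rw [hG]
    simp only
    by_cases h : (j : ℕ) < k
    · rw [dif_pos h, dif_pos h]
    · rw [dif_neg h, dif_neg h, dif_pos (by have := j.isLt; omega)]
  rw [Finset.sum_congr rfl fun j _ => by rw [h1 j], ← Finset.sum_range (fun j => cc k j * (G j : ℤ))]
  have h2 : 2 * k = k + k := by ring
  rw [h2, Finset.sum_range_add, ← Finset.sum_range_reflect (fun j => cc k (k + j) * (G (k + j) : ℤ)) k]
  have h3 : ∑ j ∈ range k, cc k j * (G j : ℤ) = -(hf k s : ℤ) := by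
    rw [Finset.sum_range]
    unfold hf
    push_cast
    rw [← Finset.sum_neg_distrib]
    apply Finset.sum_congr rfl
    intro j _
    have hc := cc_neg (k := k) (j := j) j.isLt
    have : G j = s j := by rw [hG]; simp only; rw [dif_pos j.isLt]
    rw [this, abs_of_neg hc]
    ring
  have h4 : ∑ j ∈ range k, cc k (k + (k - 1 - j)) * (G (k + (k - 1 - j)) : ℤ) = (hf k s' : ℤ) := by
    rw [Finset.sum_range]
    unfold hf
    push_cast
    apply Finset.sum_congr rfl
    intro j _
    have hj := j.isLt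
    have e1 : k + (k - 1 - (j : ℕ)) = 2 * k - 1 - j := by omega
    have hc := cc_neg (k := k) (j := j) j.isLt
    have : G (2 * k - 1 - j) = s' j := by
      rw [hG]; simp only
      rw [dif_neg (by omega), dif_pos (by omega)]
      congr 1
      ext
      simp only
      omega
    rw [e1, cc_reflect hj, this, abs_of_neg hc]
  rw [h3, h4]
  ring

lemma glue_inj (k : ℕ) : Function.Injective (fun z : (Fin k → ℕ) × (Fin k → ℕ) => glue k z.1 z.2) := by
  rintro ⟨s, s'⟩ ⟨t, t'⟩ h
  simp only at h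
  have h1 : s = t := by
    funext j
    have := congrFun h ⟨j, by have := j.isLt; omega⟩
    unfold glue at this
    simpa [j.isLt] using this
  have h2 : s' = t' := by
    funext j
    have hj := j.isLt
    have := congrFun h ⟨2 * k - 1 - j, by omega⟩
    unfold glue at this
    simp only at this
    rw [dif_neg (by omega), dif_neg (by omega)] at this
    have e : (⟨2 * k - 1 - (2 * k - 1 - (j : ℕ)), by omega⟩ : Fin k) = j := by
      ext; simp only; omega
    rw [e] at this
    exact this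
  rw [h1, h2]

/-- **Lower bound for the number of balanced gap vectors.** -/
theorem box_ge (k : ℕ) (hk : 1 ≤ k) (Y : ℕ) (hY : 1 ≤ Y) :
    (Y : ℝ) ^ (2 * k - 1) ≤ 2 * (k : ℝ) ^ 2 * #(box (fun j : Fin (2 * k) => cc k j) Y 0) := by
  classical
  set P : Finset (Fin k → ℕ) := Fintype.piFinset (fun _ : Fin k => Icc 1 Y) with hP
  have hPc : #P = Y ^ k := by
    rw [hP, Fintype.card_piFinset]
    simp
  set V : Finset ℕ := range (2 * k ^ 2 * Y) with hV
  have hmaps : ∀ s ∈ P, hf k s ∈ V := by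
    intro s hs
    rw [hV, mem_range]
    unfold hf
    have h1 : ∀ j ∈ (Finset.univ : Finset (Fin k)), (cc k j).natAbs * s j ≤ k * Y := by
      intro j _
      have h2 := cc_neg_ge (k := k) (j := j)
      have h3 := cc_neg (k := k) (j := j) j.isLt
      have h4 : (cc k j).natAbs ≤ k := by omega
      have h5 := (mem_Icc.mp (Fintype.mem_piFinset.mp hs j)).2
      exact Nat.mul_le_mul h4 h5
    calc ∑ j : Fin k, (cc k j).natAbs * s j ≤ ∑ _j : Fin k, k * Y := Finset.sum_le_sum h1
      _ = k ^ 2 * Y := by simp; ring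
      _ < 2 * k ^ 2 * Y := by
        have : 0 < k ^ 2 * Y := by positivity
        nlinarith
  set r : ℕ → ℕ := fun v => #{s ∈ P | hf k s = v} with hr
  have h1 : #P = ∑ v ∈ V, r v := Finset.card_eq_sum_card_fiberwise hmaps
  have h2 : ∑ v ∈ V, (r v) ^ 2 ≤ #(box (fun j : Fin (2 * k) => cc k j) Y 0) := by
    have h3 : ∑ v ∈ V, (r v) ^ 2
        = #(V.biUnion (fun v => ({s ∈ P | hf k s = v} : Finset (Fin k → ℕ)) ×ˢ
            ({s ∈ P | hf k s = v} : Finset (Fin k → ℕ)))) := by
      rw [Finset.card_biUnion]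
      · apply Finset.sum_congr rfl
        intro v _
        rw [Finset.card_product, sq]
      · intro v _ v' _ hne
        change Disjoint (_ : Finset ((Fin k → ℕ) × (Fin k → ℕ))) _
        rw [Finset.disjoint_left]
        intro z hz hz'
        rw [mem_product] at hz hz'
        have := (mem_filter.mp hz.1).2
        have := (mem_filter.mp hz'.1).2
        apply hne
        omega
    rw [h3]
    apply Finset.card_le_card_of_injOn (fun z => glue k z.1 z.2)
    · intro z hz
      rw [Finset.mem_coe, mem_biUnion] at hz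
      obtain ⟨v, _, hz'⟩ := hz
      rw [mem_product] at hz'
      have a1 := mem_filter.mp hz'.1
      have a2 := mem_filter.mp hz'.2
      rw [Finset.mem_coe]
      unfold box
      rw [mem_filter]
      constructor
      · rw [Fintype.mem_piFinset]
        intro j
        simp only
        unfold glue
        split_ifs with h
        · exact Fintype.mem_piFinset.mp a1.1 _
        · exact Fintype.mem_piFinset.mp a2.1 _
      · rw [sum_glue, a1.2, a2.2]
        ring
    · intro z _ z' _ h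
      exact glue_inj k h
  have h3 := sq_sum_le_card_mul_sum_sq (s := V) (f := fun v => ((r v : ℕ) : ℝ))
  have h4 : (∑ v ∈ V, ((r v : ℕ) : ℝ)) = (Y : ℝ) ^ k := by
    have : ((∑ v ∈ V, r v : ℕ) : ℝ) = (Y : ℝ) ^ k := by
      rw [← h1, hPc]; push_cast; rfl
    push_cast at this
    exact this
  rw [h4, hV, card_range] at h3
  have h5 : (∑ v ∈ range (2 * k ^ 2 * Y), ((r v : ℕ) : ℝ) ^ 2)
      ≤ #(box (fun j : Fin (2 * k) => cc k j) Y 0) := by exact_mod_cast h2
  have hY0 : (0 : ℝ) < Y := by exact_mod_cast hY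
  have h6 : ((Y : ℝ) ^ k) ^ 2 = (Y : ℝ) ^ (2 * k - 1) * Y := by
    rw [← pow_mul, ← pow_succ]
    congr 1
    omega
  rw [h6] at h3
  push_cast at h3
  have h7 : (Y : ℝ) ^ (2 * k - 1) * Y
      ≤ (2 * (k : ℝ) ^ 2 * #(box (fun j : Fin (2 * k) => cc k j) Y 0)) * Y := by
    calc (Y : ℝ) ^ (2 * k - 1) * Y
        ≤ 2 * (k : ℝ) ^ 2 * Y * ∑ v ∈ range (2 * k ^ 2 * Y), ((r v : ℕ) : ℝ) ^ 2 := h3
      _ ≤ 2 * (k : ℝ) ^ 2 * Y * #(box (fun j : Fin (2 * k) => cc k j) Y 0) :=
          mul_le_mul_of_nonneg_left h5 (by positivity)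
      _ = _ := by ring
  exact le_of_mul_le_mul_right h7 hY0

end Pool.Agent.Lib.MP_b61f81_nt
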