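import Mathlib

/-!
# Both signs of a mean zero linear form in a sequence occur with positive proportion
-/

set_option autoImplicit false

open Finset

namespace Pool.Agent.Lib.MP_b61f81_nt

lemma geom_trunc (T0 d J : ℕ) :
    ∑ i ∈ range J, (if 2 ^ i * T0 < d then 2 ^ i * T0 else 0) ≤ 2 ^ J * T0 ∧
    ∑ i ∈ range J, (if 2 ^ i * T0 < d then 2 ^ i * T0 else 0) ≤ 2 * d := by
  induction J with
  | zero => simp
  | succ J ih =>
    obtain ⟨h1, h2⟩ := ih
    rw [Finset.sum_range_succ, pow_succ]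
    split_ifs with h
    · constructor
      · nlinarith
      · nlinarith
    · constructor
      · nlinarith
      · omega

/-- pigeonhole: a scale at which few terms of the sequence are truncated -/
lemma exists_scale (d : ℕ → ℕ) (M J T0 : ℕ) (hJ : 1 ≤ J) :
    ∃ i < J, (J : ℝ) * ((2 ^ i * T0 : ℕ) * (#{n ∈ range M | 2 ^ i * T0 < d n} : ℝ))
      ≤ 2 * ∑ n ∈ range M, (d n : ℝ) := by
  by_contra hcon
  push Not at hcon
  have h1 : ∑ i ∈ range J, (2 * ∑ n ∈ range M, (d n : ℝ))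
      < ∑ i ∈ range J, (J : ℝ) * ((2 ^ i * T0 : ℕ) * (#{n ∈ range M | 2 ^ i * T0 < d n} : ℝ)) := by
    apply Finset.sum_lt_sum_of_nonempty
    · exact ⟨0, mem_range.mpr hJ⟩
    · intro i hi
      exact hcon i (mem_range.mp hi)
  rw [Finset.sum_const, card_range, nsmul_eq_mul, ← Finset.mul_sum] at h1
  have hJ0 : (0 : ℝ) < J := by exact_mod_cast hJ
  have h2 := lt_of_mul_lt_mul_left h1 hJ0.le
  have h3 : ∑ i ∈ range J, ((2 ^ i * T0 : ℕ) * (#{n ∈ range M | 2 ^ i * T0 < d n} : ℝ))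
      = ∑ n ∈ range M, ((∑ i ∈ range J, (if 2 ^ i * T0 < d n then 2 ^ i * T0 else 0) : ℕ) : ℝ) := by
    push_cast
    rw [Finset.sum_comm]
    apply Finset.sum_congr rfl
    intro i _
    rw [← Finset.sum_filter, Finset.sum_const, nsmul_eq_mul]
    ring
  rw [h3, Finset.mul_sum] at h2
  have h4 : ∑ n ∈ range M, ((∑ i ∈ range J, (if 2 ^ i * T0 < d n then 2 ^ i * T0 else 0) : ℕ) : ℝ)
      ≤ ∑ n ∈ range M, 2 * (d n : ℝ) := by
    apply Finset.sum_le_sum
    intro n _
    exact_mod_cast (geom_trunc T0 (d n) J).2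
  linarith

lemma sum_shift_le (f : ℕ → ℝ) (T : ℝ) (hf0 : ∀ n, 0 ≤ f n) (hfT : ∀ n, f n ≤ T) (N j : ℕ) :
    |∑ s ∈ range N, f (s + j) - ∑ s ∈ range N, f s| ≤ j * T := by
  induction j with
  | zero => simp
  | succ j ih =>
    have h1 : ∑ s ∈ range N, f (s + (j + 1)) - ∑ s ∈ range N, f (s + j) = f (N + j) - f j := by
      have h2 := Finset.sum_range_succ (fun s => f (s + j)) N
      have h3 := Finset.sum_range_succ' (fun s => f (s + j)) N
      have h4 : ∑ s ∈ range N, f (s + 1 + j) = ∑ s ∈ range N, f (s + (j + 1)) := by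
        apply Finset.sum_congr rfl
        intro s _
        rw [add_right_comm, add_assoc]
      rw [h4] at h3
      rw [zero_add] at h3
      linarith
    have h5 : |f (N + j) - f j| ≤ T := by
      rw [abs_le]
      constructor <;> linarith [hf0 (N + j), hf0 j, hfT (N + j), hfT j]
    calc |∑ s ∈ range N, f (s + (j + 1)) - ∑ s ∈ range N, f s|
        = |(∑ s ∈ range N, f (s + (j + 1)) - ∑ s ∈ range N, f (s + j))
            + (∑ s ∈ range N, f (s + j) - ∑ s ∈ range N, f s)| := by rw [sub_add_sub_cancel]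
      _ ≤ |f (N + j) - f j| + |∑ s ∈ range N, f (s + j) - ∑ s ∈ range N, f s| := by
          rw [h1]; exact abs_add_le _ _
      _ ≤ T + j * T := add_le_add h5 ih
      _ = ((j + 1 : ℕ) : ℝ) * T := by push_cast; ring

/-- **The core**: `c` a mean zero vector with `|c_j| ≤ K`, `L s = ∑ c_j d_{s+j}`. -/
theorem core (m : ℕ) (hm : 1 ≤ m) (c : ℕ → ℝ) (K : ℝ) (hK : 1 ≤ K)
    (hcK : ∀ j < m, |c j| ≤ K) (hc0 : ∑ j ∈ range m, c j = 0)
    (ε B a : ℝ) (hε : 0 < ε) (hB : 0 < B) (ha : 0 < a) :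
    ∃ δ : ℝ, 0 < δ ∧ ∃ N0 : ℕ, ∀ (N : ℕ) (ℓ : ℝ) (d : ℕ → ℕ) (T0 : ℕ), N0 ≤ N → 0 < ℓ →
      (T0 : ℝ) ≤ a * ℓ → ∑ i ∈ range (N + m), (d i : ℝ) ≤ B * N * ℓ →
      (N : ℝ) / 2 ≤ #{s ∈ range N | (∀ j < m, d (s + j) ≤ T0) ∧
        ε * ℓ < |∑ j ∈ range m, c j * (d (s + j) : ℝ)|} →
      δ * N ≤ #{s ∈ range N | δ * ℓ ≤ ∑ j ∈ range m, c j * (d (s + j) : ℝ)} := by
  have hm0 : (0 : ℝ) < m := by exact_mod_cast hm
  -- the number of scales
  set J : ℕ := ⌈64 * m * (m * K) * B / ε⌉₊ + 1 with hJ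
  have hJ1 : 1 ≤ J := by omega
  have hJ2 : 64 * m * (m * K) * B / ε ≤ J := by
    rw [hJ]; push_cast
    have := Nat.le_ceil (64 * m * (m * K) * B / ε)
    linarith
  have hJ0 : (0 : ℝ) < J := by exact_mod_cast hJ1
  set C3 : ℝ := m * K * (2 ^ J * a) with hC3
  have hC30 : 0 < C3 := by positivity
  refine ⟨min (ε / 16) (ε / (16 * C3)), by positivity, ⌈16 * (m * (m * K) * (2 ^ J * a)) / ε⌉₊, ?_⟩
  intro N ℓ d T0 hN hℓ hT0 hsum hgood
  set δ : ℝ := min (ε / 16) (ε / (16 * C3)) with hδ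
  have hδ1 : δ ≤ ε / 16 := min_le_left _ _
  have hδ2 : δ ≤ ε / (16 * C3) := min_le_right _ _
  have hδ0 : 0 < δ := by positivity
  have hN' : 16 * (m * (m * K) * (2 ^ J * a)) / ε ≤ N := (Nat.le_ceil _).trans (by exact_mod_cast hN)
  obtain ⟨i, hiJ, hi⟩ := exists_scale d (N + m) J T0 hJ1
  set T : ℕ := 2 ^ i * T0 with hT
  have hTT0 : T0 ≤ T := by
    rw [hT]; exact Nat.le_mul_of_pos_left _ (by positivity)
  have hTa : (T : ℝ) ≤ 2 ^ J * a * ℓ := by
    rw [hT]; push_cast
    calc (2 : ℝ) ^ i * T0 ≤ 2 ^ J * (a * ℓ) := by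
          apply mul_le_mul _ hT0 (Nat.cast_nonneg _) (by positivity)
          exact pow_le_pow_right₀ (by norm_num) hiJ.le
      _ = 2 ^ J * a * ℓ := by ring
  set Mi : ℝ := (#{n ∈ range (N + m) | T < d n} : ℝ) with hMi
  have hTM : (T : ℝ) * Mi ≤ 2 * B * N * ℓ / J := by
    rw [le_div_iff₀ hJ0]
    calc (T : ℝ) * Mi * J = J * ((T : ℕ) * Mi) := by ring
      _ ≤ 2 * ∑ n ∈ range (N + m), (d n : ℝ) := hi
      _ ≤ 2 * B * N * ℓ := by linarith
  -- truncated form
  set f : ℕ → ℝ := fun n => ((min (d n) T : ℕ) : ℝ) with hf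
  have hf0 : ∀ n, 0 ≤ f n := fun n => Nat.cast_nonneg _
  have hfT : ∀ n, f n ≤ T := fun n => by
    simp only [hf]; exact_mod_cast min_le_right _ _
  set Lt : ℕ → ℝ := fun s => ∑ j ∈ range m, c j * f (s + j) with hLt
  set L : ℕ → ℝ := fun s => ∑ j ∈ range m, c j * (d (s + j) : ℝ) with hL
  have hLt_abs : ∀ s, |Lt s| ≤ m * K * T := by
    intro s
    calc |Lt s| ≤ ∑ j ∈ range m, |c j * f (s + j)| := Finset.abs_sum_le_sum_abs _ _
      _ ≤ ∑ _j ∈ range m, K * T := by
          apply Finset.sum_le_sum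
          intro j hj
          rw [abs_mul, abs_of_nonneg (hf0 _)]
          exact mul_le_mul (hcK j (mem_range.mp hj)) (hfT _) (hf0 _) (by linarith)
      _ = m * K * T := by rw [Finset.sum_const, card_range, nsmul_eq_mul]; ring
  have heq : ∀ s, (∀ j < m, d (s + j) ≤ T) → Lt s = L s := by
    intro s hs
    apply Finset.sum_congr rfl
    intro j hj
    rw [hf]
    simp only
    rw [min_eq_left (hs j (mem_range.mp hj))]
  -- the sum of Lt is small
  have hsumLt : |∑ s ∈ range N, Lt s| ≤ m * (m * K) * T := by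
    have e1 : ∑ s ∈ range N, Lt s
        = ∑ j ∈ range m, c j * (∑ s ∈ range N, f (s + j) - ∑ s ∈ range N, f s) := by
      have e2 : ∑ j ∈ range m, c j * (∑ s ∈ range N, f (s + j) - ∑ s ∈ range N, f s)
          = ∑ j ∈ range m, c j * ∑ s ∈ range N, f (s + j)
            - (∑ j ∈ range m, c j) * ∑ s ∈ range N, f s := by
        rw [Finset.sum_mul, ← Finset.sum_sub_distrib]
        apply Finset.sum_congr rfl
        intro j _; ring
      rw [e2, hc0, zero_mul, sub_zero]
      rw [Finset.sum_comm]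
      apply Finset.sum_congr rfl
      intro j _
      rw [Finset.mul_sum]
    rw [e1]
    calc |∑ j ∈ range m, c j * (∑ s ∈ range N, f (s + j) - ∑ s ∈ range N, f s)|
        ≤ ∑ j ∈ range m, |c j * (∑ s ∈ range N, f (s + j) - ∑ s ∈ range N, f s)| :=
          Finset.abs_sum_le_sum_abs _ _
      _ ≤ ∑ _j ∈ range m, K * (m * T) := by
          apply Finset.sum_le_sum
          intro j hj
          rw [abs_mul]
          apply mul_le_mul (hcK j (mem_range.mp hj)) _ (abs_nonneg _) (by linarith)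
          refine (sum_shift_le f T hf0 hfT N j).trans ?_
          apply mul_le_mul_of_nonneg_right _ (Nat.cast_nonneg _)
          exact_mod_cast (mem_range.mp hj).le
      _ = m * (m * K) * T := by rw [Finset.sum_const, card_range, nsmul_eq_mul]; ring
  -- the sum of |Lt| is large
  have hsumabs : (N : ℝ) / 2 * (ε * ℓ) ≤ ∑ s ∈ range N, |Lt s| := by
    set G : Finset ℕ := {s ∈ range N | (∀ j < m, d (s + j) ≤ T0) ∧ ε * ℓ < |L s|} with hG
    calc (N : ℝ) / 2 * (ε * ℓ) ≤ #G * (ε * ℓ) := by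
          apply mul_le_mul_of_nonneg_right hgood (by positivity)
      _ = ∑ _s ∈ G, ε * ℓ := by rw [Finset.sum_const, nsmul_eq_mul]
      _ ≤ ∑ s ∈ G, |Lt s| := by
          apply Finset.sum_le_sum
          intro s hs
          have hs' := (mem_filter.mp hs).2
          rw [heq s (fun j hj => (hs'.1 j hj).trans hTT0)]
          exact hs'.2.le
      _ ≤ ∑ s ∈ range N, |Lt s| :=
          Finset.sum_le_sum_of_subset_of_nonneg (Finset.filter_subset _ _)
            (fun _ _ _ => abs_nonneg _)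
  -- positive part
  have hpos : (N : ℝ) * ε * ℓ / 4 - m * (m * K) * T / 2 ≤ ∑ s ∈ range N, max (Lt s) 0 := by
    have e1 : ∀ s, max (Lt s) 0 = (|Lt s| + Lt s) / 2 := by
      intro s
      rcases le_total 0 (Lt s) with h | h
      · rw [max_eq_left h, abs_of_nonneg h]; ring
      · rw [max_eq_right h, abs_of_nonpos h]; ring
    have e2 : ∑ s ∈ range N, max (Lt s) 0
        = (∑ s ∈ range N, |Lt s| + ∑ s ∈ range N, Lt s) / 2 := by
      rw [Finset.sum_congr rfl fun s _ => e1 s, ← Finset.sum_div, Finset.sum_add_distrib]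
    rw [e2]
    have := (abs_le.mp hsumLt).1
    linarith
  -- windows with a truncated term
  set Bad : Finset ℕ := {s ∈ range N | ∃ j < m, T < d (s + j)} with hBad
  have hcardBad : ((#Bad : ℕ) : ℝ) ≤ m * Mi := by
    have h1 : Bad ⊆ (range m).biUnion (fun j => {s ∈ range N | T < d (s + j)}) := by
      intro s hs
      have hs' := mem_filter.mp hs
      obtain ⟨j, hj, h⟩ := hs'.2
      rw [mem_biUnion]
      exact ⟨j, mem_range.mpr hj, mem_filter.mpr ⟨hs'.1, h⟩⟩
    have h2 : #Bad ≤ ∑ j ∈ range m, #{s ∈ range N | T < d (s + j)} :=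
      (Finset.card_le_card h1).trans Finset.card_biUnion_le
    have h3 : ∀ j ∈ range m, #{s ∈ range N | T < d (s + j)} ≤ #{n ∈ range (N + m) | T < d n} := by
      intro j hj
      rw [mem_range] at hj
      apply Finset.card_le_card_of_injOn (fun s => s + j)
      · intro s hs
        have hs' := mem_filter.mp hs
        rw [Finset.mem_coe, mem_filter, mem_range]
        have := mem_range.mp hs'.1
        exact ⟨add_lt_add this hj, hs'.2⟩
      · intro s _ s' _ h
        simpa using h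
    have h4 := h2.trans (Finset.sum_le_sum h3)
    rw [Finset.sum_const, card_range, smul_eq_mul] at h4
    rw [hMi]
    exact_mod_cast h4
  have hbadsum : ∑ s ∈ Bad, max (Lt s) 0 ≤ (N : ℝ) * ε * ℓ / 16 := by
    have h1 : ∀ s ∈ Bad, max (Lt s) 0 ≤ m * K * T := by
      intro s _
      exact max_le ((le_abs_self _).trans (hLt_abs s)) (by positivity)
    calc ∑ s ∈ Bad, max (Lt s) 0 ≤ ∑ _s ∈ Bad, m * K * T := Finset.sum_le_sum h1
      _ = #Bad * (m * K * T) := by rw [Finset.sum_const, nsmul_eq_mul]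
      _ ≤ m * Mi * (m * K * T) := mul_le_mul_of_nonneg_right hcardBad (by positivity)
      _ = m * (m * K) * (T * Mi) := by ring
      _ ≤ m * (m * K) * (2 * B * N * ℓ / J) := mul_le_mul_of_nonneg_left hTM (by positivity)
      _ ≤ (N : ℝ) * ε * ℓ / 16 := by
          rw [← mul_div_assoc, div_le_div_iff₀ hJ0 (by norm_num)]
          rw [div_le_iff₀ hε] at hJ2
          have hNl : 0 ≤ (N : ℝ) * ℓ := by positivity
          have q1 := mul_le_mul_of_nonneg_right hJ2 hNl
          have q2 : 0 ≤ m * (m * K) * B * ((N : ℝ) * ℓ) := by positivity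
          have q3 : m * (m * K) * (2 * B * N * ℓ) * 16 = 32 * (m * (m * K) * B * ((N : ℝ) * ℓ)) := by
            ring
          have q4 : 64 * m * (m * K) * B * ((N : ℝ) * ℓ)
              = 64 * (m * (m * K) * B * ((N : ℝ) * ℓ)) := by ring
          have q5 : (J : ℝ) * ε * (N * ℓ) = N * ε * ℓ * J := by ring
          rw [q3, ← q5]
          rw [q4] at q1
          linarith
  -- the rest
  have hrest : (N : ℝ) * ε * ℓ / 8 ≤ ∑ s ∈ range N with s ∉ Bad, max (Lt s) 0 := by
    have e1 : ∑ s ∈ range N, max (Lt s) 0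
        = ∑ s ∈ range N with s ∈ Bad, max (Lt s) 0
          + ∑ s ∈ range N with s ∉ Bad, max (Lt s) 0 :=
      (Finset.sum_filter_add_sum_filter_not _ _ _).symm
    have e2 : ({s ∈ range N | s ∈ Bad} : Finset ℕ) = Bad := by
      ext s
      rw [mem_filter]
      exact ⟨fun h => h.2, fun h => ⟨(mem_filter.mp h).1, h⟩⟩
    rw [e2] at e1
    have e3 : m * (m * K) * T / 2 ≤ (N : ℝ) * ε * ℓ / 16 := by
      rw [div_le_iff₀ hε] at hN'
      have e4 : m * (m * K) * (T : ℝ) ≤ m * (m * K) * (2 ^ J * a * ℓ) :=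
        mul_le_mul_of_nonneg_left hTa (by positivity)
      have e5 := mul_le_mul_of_nonneg_right hN' hℓ.le
      have e6 : 16 * (m * (m * K) * (2 ^ J * a)) * ℓ = 16 * (m * (m * K) * (2 ^ J * a * ℓ)) := by
        ring
      rw [e6] at e5
      have e7 : 0 ≤ m * (m * K) * (2 ^ J * a * ℓ) := by positivity
      linarith
    linarith
  -- conclusion
  set A : Finset ℕ := {s ∈ range N | δ * ℓ ≤ L s} with hA
  have hfin : ∑ s ∈ range N with s ∉ Bad, max (Lt s) 0 ≤ N * (δ * ℓ) + #A * (C3 * ℓ) := by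
    have h1 : ∀ s ∈ ({s ∈ range N | s ∉ Bad} : Finset ℕ),
        max (Lt s) 0 ≤ δ * ℓ + (if δ * ℓ ≤ L s then C3 * ℓ else 0) := by
      intro s hs
      have hs' := mem_filter.mp hs
      have hnb : ∀ j < m, d (s + j) ≤ T := by
        intro j hj
        by_contra hcon
        push Not at hcon
        exact hs'.2 (mem_filter.mpr ⟨hs'.1, j, hj, hcon⟩)
      have e1 := heq s hnb
      split_ifs with h
      · have h2 : Lt s ≤ C3 * ℓ := by
          calc Lt s ≤ m * K * T := (le_abs_self _).trans (hLt_abs s)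
            _ ≤ m * K * (2 ^ J * a * ℓ) := mul_le_mul_of_nonneg_left hTa (by positivity)
            _ = C3 * ℓ := by rw [hC3]; ring
        apply max_le
        · have : 0 < δ * ℓ := by positivity
          linarith
        · positivity
      · push Not at h
        rw [add_zero]
        apply max_le
        · rw [e1]; exact h.le
        · positivity
    calc ∑ s ∈ range N with s ∉ Bad, max (Lt s) 0
        ≤ ∑ s ∈ range N with s ∉ Bad, (δ * ℓ + (if δ * ℓ ≤ L s then C3 * ℓ else 0)) :=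
          Finset.sum_le_sum h1
      _ ≤ ∑ s ∈ range N, (δ * ℓ + (if δ * ℓ ≤ L s then C3 * ℓ else 0)) := by
          apply Finset.sum_le_sum_of_subset_of_nonneg (Finset.filter_subset _ _)
          intro s _ _
          have : 0 ≤ (if δ * ℓ ≤ L s then C3 * ℓ else 0) := by split_ifs <;> positivity
          have : 0 < δ * ℓ := by positivity
          linarith
      _ = N * (δ * ℓ) + #A * (C3 * ℓ) := by
          rw [Finset.sum_add_distrib, Finset.sum_const, card_range, nsmul_eq_mul,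
            ← Finset.sum_filter, Finset.sum_const, nsmul_eq_mul]
  have h1 : (N : ℝ) * ε * ℓ / 8 ≤ N * (δ * ℓ) + #A * (C3 * ℓ) := hrest.trans hfin
  have h2 : (N : ℝ) * ε / 8 ≤ N * δ + #A * C3 := by
    have : ((N : ℝ) * ε / 8) * ℓ ≤ (N * δ + #A * C3) * ℓ := by linarith
    exact le_of_mul_le_mul_right this hℓ
  have hNn : (0 : ℝ) ≤ N := Nat.cast_nonneg N
  have h3 : (N : ℝ) * ε / 16 ≤ #A * C3 := by
    have := mul_le_mul_of_nonneg_left hδ1 hNn
    linarith
  have h4 : δ * C3 ≤ ε / 16 := by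
    calc δ * C3 ≤ ε / (16 * C3) * C3 := mul_le_mul_of_nonneg_right hδ2 hC30.le
      _ = ε / 16 := by field_simp
  have h5 : δ * N * C3 ≤ #A * C3 := by
    calc δ * N * C3 = N * (δ * C3) := by ring
      _ ≤ N * (ε / 16) := mul_le_mul_of_nonneg_left h4 hNn
      _ = N * ε / 16 := by ring
      _ ≤ #A * C3 := h3
  exact le_of_mul_le_mul_right h5 hC30

end Pool.Agent.Lib.MP_b61f81_nt
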