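import Pool.Agent.Lib.MP_bae66e_nt.AP3.FLFinal

/-!
# The fundamental lemma of the sieve in any dimension
-/

set_option autoImplicit false

namespace Pool.Agent.Lib.MP_b61f81_nt

open Finset Pool.Agent.Lib.MP_bae66e_nt Pool.Agent.Lib.MP_bae66e_nt.AP3

lemma flk_err (κ J b z w : ℕ) (hwz : w * w ≤ z) (hz1 : 1 ≤ z) (s : ℝ) (hs0 : 0 ≤ s)
    (hs : s ≤ κ * z) :
    ((κ : ℝ) + 1) ^ ((J + 1) * (b + 1 + J + 1)) * (w : ℝ) ^ (2 * (b + 1) + 4) * (1 + s) ^ (b + 1)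
      ≤ ((κ : ℝ) + 1) ^ ((J + 1 + 1) * (b + (J + 1) + 1)) * (z : ℝ) ^ (2 * b + 4) := by
  have hz0 : (1 : ℝ) ≤ z := by exact_mod_cast hz1
  have h3 : 1 + s ≤ (κ + 1) * z := by linarith
  have h5 : (0 : ℝ) ≤ 1 + s := by positivity
  have h6 : (w : ℝ) ^ (2 * (b + 1) + 4) ≤ (z : ℝ) ^ (b + 3) := by
    have : ((w * w : ℕ) : ℝ) ≤ z := by exact_mod_cast hwz
    calc (w : ℝ) ^ (2 * (b + 1) + 4) = (((w * w : ℕ) : ℝ)) ^ (b + 3) := by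
          push_cast; rw [← pow_two, ← pow_mul]; ring_nf
      _ ≤ (z : ℝ) ^ (b + 3) := pow_le_pow_left₀ (by positivity) this _
  have h7 : (1 + s) ^ (b + 1) ≤ ((κ + 1) * (z : ℝ)) ^ (b + 1) := pow_le_pow_left₀ h5 h3 _
  have h8 : (J + 1) * (b + 1 + J + 1) + (b + 1) ≤ (J + 1 + 1) * (b + (J + 1) + 1) := by
    nlinarith
  have hκ : (1 : ℝ) ≤ (κ : ℝ) + 1 := by
    have : (0 : ℝ) ≤ κ := Nat.cast_nonneg κ
    linarith
  have h9 : ((κ : ℝ) + 1) ^ ((J + 1) * (b + 1 + J + 1) + (b + 1))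
      ≤ ((κ : ℝ) + 1) ^ ((J + 1 + 1) * (b + (J + 1) + 1)) := pow_le_pow_right₀ hκ h8
  calc ((κ : ℝ) + 1) ^ ((J + 1) * (b + 1 + J + 1)) * (w : ℝ) ^ (2 * (b + 1) + 4) * (1 + s) ^ (b + 1)
      ≤ ((κ : ℝ) + 1) ^ ((J + 1) * (b + 1 + J + 1)) * (z : ℝ) ^ (b + 3) * ((κ + 1) * z) ^ (b + 1) :=
        mul_le_mul (mul_le_mul_of_nonneg_left h6 (by positivity)) h7 (by positivity)
          (by positivity)
    _ = ((κ : ℝ) + 1) ^ ((J + 1) * (b + 1 + J + 1) + (b + 1)) * (z : ℝ) ^ (2 * b + 4) := by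
        rw [mul_pow, pow_add ((κ : ℝ) + 1)]; ring
    _ ≤ _ := mul_le_mul_of_nonneg_right h9 (by positivity)

theorem flk_main (κ : ℕ) (L0 : ℝ) (hL01 : 1 ≤ L0)
    (hL0 : ∀ z : ℕ, ∑ p ∈ (Ioc (Nat.sqrt z) z).filter Nat.Prime, (κ : ℝ) / (p : ℝ) ≤ L0)
    (b0 : ℕ) (hb0 : (Real.exp (3 * L0) + 2 * Real.exp (2 * L0)) * L0 ≤ b0 + 1) :
    ∀ J b z : ℕ, b0 ≤ b → 1 ≤ z → z < 2 ^ (2 ^ J) →
    ∀ (Om : ℕ → Finset ℕ) (A B : ℕ), A ≤ B → (∀ ℓ, xb Om ℓ ≤ 1 / 2) → (∀ ℓ, #(Om ℓ) ≤ κ) →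
    ∀ R : Finset ℕ, (∀ ℓ ∈ R, ℓ.Prime ∧ ℓ ≤ z) → (∀ ℓ ∈ R, ∀ c ∈ Om ℓ, c < ℓ) →
    FLP Om A B R (flEta L0 b) (((κ : ℝ) + 1) ^ ((J + 1) * (b + J + 1)) * (z : ℝ) ^ (2 * b + 4)) := by
  have hκ : (1 : ℝ) ≤ (κ : ℝ) + 1 := by
    have : (0 : ℝ) ≤ κ := Nat.cast_nonneg κ
    linarith
  intro J
  induction J with
  | zero =>
    intro b z _ hz1 hz Om A B hAB hx hcard R hR _
    have hRe : R = ∅ := by
      rw [eq_empty_iff_forall_notMem]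
      intro ℓ hℓ
      have h1 := (hR ℓ hℓ).1.two_le
      have h2 := (hR ℓ hℓ).2
      simp at hz
      omega
    rw [hRe]
    have hη : 0 ≤ flEta L0 b := by unfold flEta; positivity
    refine (flp_empty Om A B hAB _ hη).mono hAB hx le_rfl ?_
    have h1 : (1 : ℝ) ≤ (z : ℝ) ^ (2 * b + 4) := one_le_pow₀ (by exact_mod_cast hz1)
    have h2 : (1 : ℝ) ≤ ((κ : ℝ) + 1) ^ ((0 + 1) * (b + 0 + 1)) := one_le_pow₀ hκ
    nlinarith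
  | succ J ih =>
    intro b z hb hz1 hz Om A B hAB hx hcard R hR hOm
    set w := Nat.sqrt z with hw
    have hw1 : 1 ≤ w := Nat.sqrt_pos.mpr hz1
    have hwz : w * w ≤ z := Nat.sqrt_le z
    have hw2 : w < 2 ^ (2 ^ J) := by
      rw [hw, Nat.sqrt_lt]
      calc z < 2 ^ (2 ^ (J + 1)) := hz
        _ = 2 ^ (2 ^ J) * 2 ^ (2 ^ J) := by rw [← pow_add]; ring_nf
    set Bk := R.filter (fun ℓ => w < ℓ) with hBk
    set R' := R.filter (fun ℓ => ¬ w < ℓ) with hR'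
    have hunion : Bk ∪ R' = R := by
      rw [hBk, hR', filter_union_filter_not_eq]
    have hdisj : Disjoint Bk R' := disjoint_filter_filter_not R R _
    have h1 := ih (b + 1) w (by omega) hw1 hw2 Om A B hAB hx hcard R'
      (fun ℓ hℓ => by
        have := mem_filter.mp hℓ
        exact ⟨(hR ℓ this.1).1, not_lt.mp this.2⟩)
      (fun ℓ hℓ => hOm ℓ (mem_filter.mp hℓ).1)
    have hη1 : 0 ≤ flEta L0 (b + 1) := by unfold flEta; positivity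
    have hsum : ∑ ℓ ∈ Bk, xb Om ℓ ≤ L0 := by
      refine le_trans ?_ (hL0 z)
      calc ∑ ℓ ∈ Bk, xb Om ℓ ≤ ∑ ℓ ∈ Bk, (κ : ℝ) / (ℓ : ℝ) := by
            apply sum_le_sum
            intro ℓ _
            unfold xb
            apply div_le_div_of_nonneg_right _ (by positivity)
            exact_mod_cast hcard ℓ
        _ ≤ _ := by
            apply sum_le_sum_of_subset_of_nonneg
            · intro ℓ hℓ
              have h2 := mem_filter.mp hℓ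
              rw [mem_filter, mem_Ioc]
              exact ⟨⟨h2.2, (hR ℓ h2.1).2⟩, (hR ℓ h2.1).1⟩
            · intro ℓ _ _; positivity
    have h2 := flp_step Om A B hAB R' Bk _ _ L0 hη1 (by positivity) h1 hdisj
      (fun ℓ hℓ => (hR ℓ (mem_filter.mp hℓ).1).1) (fun ℓ hℓ => (hR ℓ (mem_filter.mp hℓ).1).1)
      (fun ℓ hℓ => hOm ℓ (mem_filter.mp hℓ).1) hx hsum (b + 1)
    rw [hunion] at h2
    refine h2.mono hAB hx (fl_eta_step L0 hL01 b0 b hb0 hb) ?_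
    have h4 : ∑ ℓ ∈ Bk, (#(Om ℓ) : ℝ) ≤ κ * z := by
      calc ∑ ℓ ∈ Bk, (#(Om ℓ) : ℝ) ≤ ∑ ℓ ∈ Bk, (κ : ℝ) :=
            sum_le_sum fun ℓ _ => by exact_mod_cast hcard ℓ
        _ = #Bk * κ := by rw [sum_const, nsmul_eq_mul]
        _ ≤ z * κ := by
            apply mul_le_mul_of_nonneg_right _ (Nat.cast_nonneg κ)
            exact_mod_cast card_le_of_primes Bk z (fun ℓ hℓ => hR ℓ (mem_filter.mp hℓ).1)
        _ = κ * z := by ring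
    have hs0 : (0 : ℝ) ≤ ∑ ℓ ∈ Bk, (#(Om ℓ) : ℝ) := sum_nonneg fun ℓ _ => Nat.cast_nonneg _
    exact flk_err κ J b z w hwz hz1 _ hs0 h4

lemma six_cube_le (i : ℕ) (hi : 15 ≤ i) : 6 * i ^ 3 ≤ 2 ^ i := by
  induction i, hi using Nat.le_induction with
  | base => norm_num
  | succ n hn ih =>
    have h1 : (n + 1) ^ 3 ≤ 2 * n ^ 3 := by
      have h2 : 15 * n ^ 2 ≤ n ^ 3 := by nlinarith [Nat.mul_le_mul_right (n ^ 2) hn]
      nlinarith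
    calc 6 * (n + 1) ^ 3 ≤ 6 * (2 * n ^ 3) := Nat.mul_le_mul_left 6 h1
      _ = 2 * (6 * n ^ 3) := by ring
      _ ≤ 2 * 2 ^ n := Nat.mul_le_mul_left 2 ih
      _ = 2 ^ (n + 1) := by ring

/-- for large `T` the additive error is at most `T ^ (2b+5)` -/
lemma exists_JK (κ b : ℕ) : ∃ T0 : ℕ, 2 ≤ T0 ∧ ∀ T : ℕ, T0 ≤ T →
    ∃ J : ℕ, T < 2 ^ (2 ^ J) ∧ (κ + 1) ^ ((J + 1) * (b + J + 1)) ≤ T := by
  set e : ℕ := κ with he
  have hκe : κ + 1 ≤ 2 ^ e := by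
    rw [he]; exact Nat.lt_two_pow_self
  set i0 : ℕ := 15 + b + e with hi0
  refine ⟨2 ^ (2 ^ i0), ?_, ?_⟩
  · calc 2 = 2 ^ 1 := by norm_num
      _ ≤ 2 ^ (2 ^ i0) := Nat.pow_le_pow_right (by norm_num) Nat.one_le_two_pow
  · intro T hT
    have hT0 : T ≠ 0 := by
      have : 0 < 2 ^ (2 ^ i0) := by positivity
      omega
    set k := Nat.log 2 T with hk
    have hk1 : 2 ^ k ≤ T := Nat.pow_log_le_self 2 hT0
    have hk2 : T < 2 ^ (k + 1) := Nat.lt_pow_succ_log_self (by norm_num) T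
    have hk3 : 2 ^ i0 ≤ k := by
      rw [hk]
      exact (Nat.le_log_iff_pow_le (by norm_num) hT0).mpr hT
    have hk0 : k ≠ 0 := by
      have : 0 < 2 ^ i0 := by positivity
      omega
    set i := Nat.log 2 k with hi
    have hi1 : 2 ^ i ≤ k := Nat.pow_log_le_self 2 hk0
    have hi2 : k < 2 ^ (i + 1) := Nat.lt_pow_succ_log_self (by norm_num) k
    have hi3 : i0 ≤ i := by
      rw [hi]
      exact (Nat.le_log_iff_pow_le (by norm_num) hk0).mpr hk3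
    refine ⟨i + 1, ?_, ?_⟩
    · calc T < 2 ^ (k + 1) := hk2
        _ ≤ 2 ^ (2 ^ (i + 1)) := Nat.pow_le_pow_right (by norm_num) hi2
    · have h1 : e * ((i + 1 + 1) * (b + (i + 1) + 1)) ≤ 6 * i ^ 3 := by
        have a1 : e ≤ i := by omega
        have a2 : i + 1 + 1 ≤ 2 * i := by omega
        have a3 : b + (i + 1) + 1 ≤ 3 * i := by omega
        calc e * ((i + 1 + 1) * (b + (i + 1) + 1)) ≤ i * ((2 * i) * (3 * i)) :=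
              Nat.mul_le_mul a1 (Nat.mul_le_mul a2 a3)
          _ = 6 * i ^ 3 := by ring
      have h2 := six_cube_le i (by omega)
      calc (κ + 1) ^ ((i + 1 + 1) * (b + (i + 1) + 1))
          ≤ (2 ^ e) ^ ((i + 1 + 1) * (b + (i + 1) + 1)) := Nat.pow_le_pow_left hκe _
        _ = 2 ^ (e * ((i + 1 + 1) * (b + (i + 1) + 1))) := by rw [← pow_mul]
        _ ≤ 2 ^ k := Nat.pow_le_pow_right (by norm_num) (by omega)
        _ ≤ T := hk1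

/-- The fundamental lemma in dimension `κ`. -/
theorem exists_flK (κ : ℕ) : ∃ L0 : ℝ, 1 ≤ L0 ∧ ∃ b0 : ℕ, ∀ b : ℕ, b0 ≤ b → ∃ T0 : ℕ, 2 ≤ T0 ∧
    ∀ T : ℕ, T0 ≤ T → ∀ (Om : ℕ → Finset ℕ) (A B : ℕ), A ≤ B → (∀ ℓ, xb Om ℓ ≤ 1 / 2) →
    (∀ ℓ, #(Om ℓ) ≤ κ) → ∀ R : Finset ℕ, (∀ ℓ ∈ R, ℓ.Prime ∧ ℓ ≤ T) →
    (∀ ℓ ∈ R, ∀ c ∈ Om ℓ, c < ℓ) →
    FLP Om A B R (flEta L0 b) ((T : ℝ) ^ (2 * b + 5)) := by
  obtain ⟨L0', hL01', hL0'⟩ := exists_L0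
  set L0 : ℝ := (κ + 1) * L0' with hL0d
  have hκ0 : (0 : ℝ) ≤ κ := Nat.cast_nonneg κ
  have hL01 : 1 ≤ L0 := by
    rw [hL0d]; nlinarith
  have hL0 : ∀ z : ℕ, ∑ p ∈ (Ioc (Nat.sqrt z) z).filter Nat.Prime, (κ : ℝ) / (p : ℝ) ≤ L0 := by
    intro z
    have h1 : ∑ p ∈ (Ioc (Nat.sqrt z) z).filter Nat.Prime, (κ : ℝ) / (p : ℝ)
        = κ / 2 * ∑ p ∈ (Ioc (Nat.sqrt z) z).filter Nat.Prime, 2 / (p : ℝ) := by
      rw [mul_sum]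
      apply sum_congr rfl
      intro p _
      ring
    rw [h1]
    have h2 := mul_le_mul_of_nonneg_left (hL0' z) (by positivity : (0 : ℝ) ≤ κ / 2)
    rw [hL0d]
    nlinarith
  refine ⟨L0, hL01, ⌈(Real.exp (3 * L0) + 2 * Real.exp (2 * L0)) * L0⌉₊, ?_⟩
  intro b hb
  obtain ⟨T0, hT02, hT0⟩ := exists_JK κ b
  refine ⟨T0, hT02, ?_⟩
  intro T hT Om A B hAB hx hcard R hR hOm
  obtain ⟨J, hJ1, hJ2⟩ := hT0 T hT
  have h := flk_main κ L0 hL01 hL0 _ (by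
    have := Nat.le_ceil ((Real.exp (3 * L0) + 2 * Real.exp (2 * L0)) * L0)
    linarith) J b T hb (by omega) hJ1 Om A B hAB hx hcard R hR hOm
  refine h.mono hAB hx le_rfl ?_
  have h2 : ((κ : ℝ) + 1) ^ ((J + 1) * (b + J + 1)) ≤ T := by exact_mod_cast hJ2
  calc ((κ : ℝ) + 1) ^ ((J + 1) * (b + J + 1)) * (T : ℝ) ^ (2 * b + 4)
      ≤ T * (T : ℝ) ^ (2 * b + 4) := mul_le_mul_of_nonneg_right h2 (by positivity)
    _ = (T : ℝ) ^ (2 * b + 5) := by ring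

/-- The fundamental lemma in dimension `κ` with relative error `1/2`. -/
theorem exists_flHalf (κ : ℕ) : ∃ e T0 : ℕ, 1 ≤ e ∧ 2 ≤ T0 ∧
    ∀ T : ℕ, T0 ≤ T → ∀ (Om : ℕ → Finset ℕ) (A B : ℕ), A ≤ B → (∀ ℓ, xb Om ℓ ≤ 1 / 2) →
    (∀ ℓ, #(Om ℓ) ≤ κ) → ∀ R : Finset ℕ, (∀ ℓ ∈ R, ℓ.Prime ∧ ℓ ≤ T) →
    (∀ ℓ ∈ R, ∀ c ∈ Om ℓ, c < ℓ) →
    FLP Om A B R (1 / 2) ((T : ℝ) ^ e) := by
  obtain ⟨L0, hL01, b0, h⟩ := exists_flK κ
  have h1 : Filter.Tendsto (fun b : ℕ => flEta L0 b) Filter.atTop (nhds 0) :=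
    FloorSemiring.tendsto_pow_div_factorial_atTop L0
  have h2 := h1.eventually (Iio_mem_nhds (by norm_num : (0 : ℝ) < 1 / 2))
  obtain ⟨b, hb1, hb2⟩ := (h2.and (Filter.eventually_ge_atTop b0)).exists
  obtain ⟨T0, hT0, hT⟩ := h b hb2
  refine ⟨2 * b + 5, T0, by omega, hT0, ?_⟩
  intro T hTT Om A B hAB hx hcard R hR hOm
  exact (hT T hTT Om A B hAB hx hcard R hR hOm).mono hAB hx (le_of_lt hb1) le_rfl

end Pool.Agent.Lib.MP_b61f81_nt
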