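import Pool.Agent.Lib.MP_b61f81_nt.Tuple

/-!
# A positive proportion of the windows with a given pattern has no further rough number
-/

set_option autoImplicit false

namespace Pool.Agent.Lib.MP_b61f81_nt

open Finset Pool.Agent.Lib.MP_bae66e_nt Pool.Agent.Lib.MP_bae66e_nt.AP3

lemma log_le_sqrt {x : ℝ} (hx : 0 < x) : Real.log x ≤ √x := by
  set s : ℝ := √(√x) with hs
  have hx1 : 0 < √x := Real.sqrt_pos.mpr hx
  have hs0 : 0 < s := Real.sqrt_pos.mpr hx1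
  have h1 : s ^ 2 = √x := Real.sq_sqrt hx1.le
  have h2 : (√x) ^ 2 = x := Real.sq_sqrt hx.le
  have h3 : Real.log x = 4 * Real.log s := by
    rw [← h2, Real.log_pow, ← h1, Real.log_pow]
    push_cast; ring
  have h4 := Real.log_le_sub_one_of_pos hs0
  rw [h3, ← h1]
  nlinarith [sq_nonneg (s - 2)]

lemma log_four_le : Real.log 4 ≤ 2 := by
  have h1 : Real.log 4 = 2 * Real.log 2 := by
    rw [show (4 : ℝ) = 2 ^ 2 by norm_num, Real.log_pow]; push_cast; ring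
  have := Real.log_two_lt_d9
  rw [h1]; linarith

lemma primorial_le_sq {w T : ℕ} (hT : 1 ≤ T) (h : (w : ℝ) ≤ Real.log T) :
    (primorial w : ℝ) ≤ (T : ℝ) ^ 2 := by
  have hT0 : (0 : ℝ) < T := by exact_mod_cast hT
  have h1 : (primorial w : ℝ) ≤ 4 ^ w := by exact_mod_cast primorial_le_four_pow w
  refine h1.trans ?_
  have h2 : (4 : ℝ) ^ w = Real.exp (w * Real.log 4) := by
    rw [mul_comm, Real.exp_mul, Real.exp_log (by norm_num), Real.rpow_natCast]
  have h3 : (T : ℝ) ^ 2 = Real.exp (Real.log T * 2) := by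
    rw [Real.exp_mul, Real.exp_log hT0]
    norm_cast
  rw [h2, h3]
  apply Real.exp_le_exp.mpr
  exact mul_le_mul h log_four_le (Real.log_nonneg (by norm_num)) ((Nat.cast_nonneg w).trans h)

theorem tuple_good (κ : ℕ) : ∃ (c1 θ : ℝ) (e T0 : ℕ), 0 < c1 ∧ 0 < θ ∧ θ ≤ 1 ∧ 2 ≤ T0 ∧
    ∀ T : ℕ, T0 ≤ T → ∀ (w A B : ℕ) (S : Finset ℕ), 2 * κ + 2 ≤ w → (w : ℝ) ≤ θ * Real.log T →
    A ≤ B → (T : ℝ) ^ e ≤ (B : ℝ) - A → #S = κ → (∀ h ∈ S, h ≤ w) →
    (∀ h ∈ S, (2 * κ + 2).factorial ∣ h) →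
    c1 * (((B : ℝ) - A) / (Real.log T) ^ κ)
      ≤ #(Mset A B T S \ Zset A B T (Nat.sqrt T) w S) := by
  obtain ⟨e0, T00, he0, hT00, hfl0⟩ := exists_flHalf κ
  obtain ⟨e1, T01, he1, hT01, hfl1⟩ := exists_flHalf (κ + 1)
  obtain ⟨Cb, hCb, hbt⟩ := exists_bt
  obtain ⟨c0, hc0, hPK0⟩ := exists_PK_ge κ
  obtain ⟨c', hc', hPK1⟩ := exists_PK_ge (κ + 1)
  obtain ⟨Cr, hCr, hratio⟩ := exists_PK_ratio κ
  set u : ℕ := 2 * κ + 2 with hu
  set q : ℕ := u.factorial with hq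
  have hq0 : 0 < q := Nat.factorial_pos u
  have hqR : (1 : ℝ) ≤ q := by exact_mod_cast hq0
  set θ : ℝ := min 1 (1 / (16 * Cb * Cr)) with hθ
  have hθ0 : 0 < θ := by positivity
  have hθ1 : θ ≤ 1 := min_le_left _ _
  have hθ2 : θ ≤ 1 / (16 * Cb * Cr) := min_le_right _ _
  set e : ℕ := e0 + e1 + κ + 5 with he
  refine ⟨c0 / (8 * q), θ, e, max (max T00 (T01 ^ 2)) (max 16 (max ⌈4 * q / c0⌉₊ ⌈2 / c'⌉₊)),
    by positivity, hθ0, hθ1, ?_, ?_⟩
  · exact le_trans (by norm_num) ((le_max_left 16 _).trans (le_max_right _ _))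
  intro T hT w A B S hw hwθ hAB hBA hS hSw hSq
  have g1 : T00 ≤ T := ((le_max_left _ _).trans (le_max_left _ _)).trans hT
  have g2 : T01 ^ 2 ≤ T := ((le_max_right _ _).trans (le_max_left _ _)).trans hT
  have g3 : 16 ≤ T := ((le_max_left _ _).trans (le_max_right _ _)).trans hT
  have g4 : ⌈4 * q / c0⌉₊ ≤ T :=
    (((le_max_left _ _).trans (le_max_right _ _)).trans (le_max_right _ _)).trans hT
  have g5 : ⌈2 / c'⌉₊ ≤ T :=
    (((le_max_right _ _).trans (le_max_right _ _)).trans (le_max_right _ _)).trans hT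
  have g4' : 4 * q ≤ c0 * T := by
    have : 4 * (q : ℝ) / c0 ≤ T := (Nat.le_ceil _).trans (by exact_mod_cast g4)
    rw [div_le_iff₀ hc0] at this
    linarith
  have g5' : 2 ≤ c' * T := by
    have : 2 / c' ≤ (T : ℝ) := (Nat.le_ceil _).trans (by exact_mod_cast g5)
    rw [div_le_iff₀ hc'] at this
    linarith
  have hT0 : (16 : ℝ) ≤ T := by exact_mod_cast g3
  have hTpos : (0 : ℝ) < T := by linarith
  set L : ℝ := Real.log T with hL
  have hL1 : 1 ≤ L := by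
    rw [hL, Real.le_log_iff_exp_le hTpos]
    have := Real.exp_one_lt_d9
    linarith
  have hLsq : L ≤ √(T : ℝ) := log_le_sqrt hTpos
  have hLT : L ≤ T := by
    have := Real.log_le_sub_one_of_pos hTpos
    linarith
  have hwL : (w : ℝ) ≤ L := hwθ.trans (by nlinarith)
  have hw2 : 2 ≤ w := by omega
  have hw0 : (2 : ℝ) ≤ w := by exact_mod_cast hw2
  have hlw : 0 < Real.log w := Real.log_pos (by linarith)
  set z : ℕ := Nat.sqrt T with hz
  have hwz : w ≤ z := by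
    rw [hz, Nat.le_sqrt]
    have h1 : (w : ℝ) * w ≤ T := by
      have h2 : (w : ℝ) ≤ √(T : ℝ) := hwL.trans hLsq
      calc (w : ℝ) * w ≤ √(T : ℝ) * √(T : ℝ) :=
            mul_le_mul h2 h2 (by linarith) (Real.sqrt_nonneg _)
        _ = T := Real.mul_self_sqrt hTpos.le
    exact_mod_cast h1
  have hzT : z ≤ T := Nat.sqrt_le_self T
  have hzT01 : T01 ≤ z := by
    rw [hz, Nat.le_sqrt, ← sq]; exact g2
  have hz2 : 2 ≤ z := hT01.trans hzT01
  -- the quantities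
  set N : ℝ := (B : ℝ) - A with hN
  have hN0 : 0 < N := lt_of_lt_of_le (by positivity) hBA
  set Q : ℕ := primorial w with hQ
  have hQ0 : (0 : ℝ) < Q := by exact_mod_cast primorial_pos w
  have hQT : (Q : ℝ) ≤ (T : ℝ) ^ 2 := primorial_le_sq (by omega) hwL
  set D : ℝ := N / Q with hD
  have hD0 : 0 < D := by positivity
  have hT1 : (1 : ℝ) ≤ T := by linarith
  have hDge : (T : ℝ) ^ (e0 + e1 + κ + 3) ≤ D := by
    rw [hD, le_div_iff₀ hQ0]
    calc (T : ℝ) ^ (e0 + e1 + κ + 3) * Q ≤ (T : ℝ) ^ (e0 + e1 + κ + 3) * (T : ℝ) ^ 2 :=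
          mul_le_mul_of_nonneg_left hQT (by positivity)
      _ = (T : ℝ) ^ e := by rw [← pow_add]
      _ ≤ N := hBA
  -- products
  have hPw0 : 0 < PK κ w T := PK_pos (by omega)
  have hPw : c0 / L ^ κ ≤ PK κ w T :=
    (hPK0 T (by omega)).trans (PK_mono le_rfl (by omega) (by omega))
  have hLκ : L ^ κ ≤ (T : ℝ) ^ κ := pow_le_pow_left₀ (by linarith) hLT κ
  have hPw' : c0 / (T : ℝ) ^ κ ≤ PK κ w T :=
    (div_le_div_of_nonneg_left hc0.le (by positivity) hLκ).trans hPw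
  have hPz : c' / (T : ℝ) ^ (κ + 1) ≤ PK (κ + 1) w z := by
    have h1 := (hPK1 z hz2).trans (PK_mono (κ := κ + 1) (w := 2 * (κ + 1)) (v := w) (T := z)
      le_rfl (by omega) hwz)
    refine le_trans ?_ h1
    have h2 : 0 < Real.log z := Real.log_pos (by exact_mod_cast (by omega : 1 < z))
    apply div_le_div_of_nonneg_left hc'.le (by positivity)
    apply pow_le_pow_left₀ h2.le
    have h3 : Real.log z ≤ Real.log T := Real.log_le_log (by exact_mod_cast (by omega : 0 < z))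
      (by exact_mod_cast hzT)
    linarith
  have hPz0 : 0 < PK (κ + 1) w z := PK_pos (by omega)
  -- error terms
  have E1 : (T : ℝ) ^ e0 ≤ (1 / 4) * (D * PK κ w T) := by
    have h1 : (T : ℝ) ^ (e0 + e1 + κ + 3) * (c0 / (T : ℝ) ^ κ) ≤ D * PK κ w T :=
      mul_le_mul hDge hPw' (by positivity) hD0.le
    have h2 : (T : ℝ) ^ (e0 + e1 + κ + 3) * (c0 / (T : ℝ) ^ κ)
        = (T : ℝ) ^ e0 * ((T : ℝ) ^ (e1 + 2) * (c0 * T)) := by
      rw [show e0 + e1 + κ + 3 = e0 + (e1 + 2) + κ + 1 by ring, pow_succ, pow_add _ _ κ, pow_add]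
      field_simp
    have h3 : 1 ≤ (T : ℝ) ^ (e1 + 2) := one_le_pow₀ hT1
    have h4 : 4 ≤ (T : ℝ) ^ (e1 + 2) * (c0 * T) := by
      have : 4 ≤ c0 * T := by linarith
      nlinarith
    have h5 : (T : ℝ) ^ e0 * 4 ≤ (T : ℝ) ^ e0 * ((T : ℝ) ^ (e1 + 2) * (c0 * T)) :=
      mul_le_mul_of_nonneg_left h4 (by positivity)
    linarith
  have E2 : (z : ℝ) ^ e1 ≤ (1 / 2) * (D * PK (κ + 1) w z) := by
    have h0 : (z : ℝ) ^ e1 ≤ (T : ℝ) ^ e1 :=
      pow_le_pow_left₀ (Nat.cast_nonneg z) (by exact_mod_cast hzT) _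
    have h1 : (T : ℝ) ^ (e0 + e1 + κ + 3) * (c' / (T : ℝ) ^ (κ + 1)) ≤ D * PK (κ + 1) w z :=
      mul_le_mul hDge hPz (by positivity) hD0.le
    have h2 : (T : ℝ) ^ (e0 + e1 + κ + 3) * (c' / (T : ℝ) ^ (κ + 1))
        = (T : ℝ) ^ e1 * ((T : ℝ) ^ (e0 + 1) * (c' * T)) := by
      rw [show e0 + e1 + κ + 3 = e1 + (e0 + 1) + (κ + 1) + 1 by ring, pow_succ,
        pow_add _ _ (κ + 1), pow_add]
      field_simp
    have h3 : 1 ≤ (T : ℝ) ^ (e0 + 1) := one_le_pow₀ hT1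
    have h4 : 2 ≤ (T : ℝ) ^ (e0 + 1) * (c' * T) := by nlinarith
    have h5 : (T : ℝ) ^ e1 * 2 ≤ (T : ℝ) ^ e1 * ((T : ℝ) ^ (e0 + 1) * (c' * T)) :=
      mul_le_mul_of_nonneg_left h4 (by positivity)
    linarith
  have E3 : (T : ℝ) ^ e0 ≤ (1 / 4) * (N / q * PK κ (2 * κ) T) := by
    have h0 : c0 / (T : ℝ) ^ κ ≤ PK κ (2 * κ) T :=
      (div_le_div_of_nonneg_left hc0.le (by positivity) hLκ).trans (hPK0 T (by omega))
    have h1 : (T : ℝ) ^ e / q * (c0 / (T : ℝ) ^ κ) ≤ N / q * PK κ (2 * κ) T := by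
      apply mul_le_mul _ h0 (by positivity) (by positivity)
      exact div_le_div_of_nonneg_right hBA (by positivity)
    have h2 : (T : ℝ) ^ e / q * (c0 / (T : ℝ) ^ κ)
        = (T : ℝ) ^ e0 * ((T : ℝ) ^ (e1 + 4) * (c0 * T / q)) := by
      rw [he, show e0 + e1 + κ + 5 = e0 + (e1 + 4) + κ + 1 by ring, pow_succ, pow_add _ _ κ, pow_add]
      field_simp
    have h3 : 1 ≤ (T : ℝ) ^ (e1 + 4) := one_le_pow₀ hT1
    have h4 : 4 ≤ (T : ℝ) ^ (e1 + 4) * (c0 * T / q) := by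
      have : 4 ≤ c0 * T / q := by
        rw [le_div_iff₀ (by linarith)]; exact g4'
      nlinarith
    have h5 : (T : ℝ) ^ e0 * 4 ≤ (T : ℝ) ^ e0 * ((T : ℝ) ^ (e1 + 4) * (c0 * T / q)) :=
      mul_le_mul_of_nonneg_left h4 (by positivity)
    linarith
  -- lower bound for the tuples
  have hxb0 : ∀ ℓ, xb (OmH u S) ℓ ≤ 1 / 2 := xb_OmH_le (by omega)
  have hM1 := card_Mset_ge (κ := κ) (u := u) (e := e0) (T := T) (A := A) (B := B) (S := S) hS
    (by omega) (by omega) hAB hSq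
    (hfl0 T g1 (OmH u S) A B hAB hxb0 (fun ℓ => by rw [← hS]; exact card_OmH_le u S ℓ) (prI u T)
      (fun ℓ hℓ => ⟨(mem_prI.mp hℓ).2, (mem_prI.mp hℓ).1.2⟩)
      (fun ℓ _ c hc => (mem_OmH.mp hc).2.1))
  have hM2 := card_Mset_class (κ := κ) (u := u) (e := e0) (w := w) (T := T) (A := A) (B := B)
    (S := S) hS (by omega) (by omega) hAB
    (hfl0 T g1 (OmH u S) A B hAB hxb0 (fun ℓ => by rw [← hS]; exact card_OmH_le u S ℓ) (prI w T)
      (fun ℓ hℓ => ⟨(mem_prI.mp hℓ).2, (mem_prI.mp hℓ).1.2⟩)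
      (fun ℓ _ c hc => (mem_OmH.mp hc).2.1))
  have hZ := card_Zset_le (κ := κ) (u := u) (e := e1) (w := w) (T := T) (T' := z) (A := A) (B := B)
    (S := S) (Cb * w / Real.log w) hS (by omega) (by omega) hAB hSw hwz hzT
    (fun a => hbt a w hw2) (fun S' hS' =>
      hfl1 z hzT01 (OmH u S') A B hAB (xb_OmH_le (by omega))
        (fun ℓ => by rw [← hS']; exact card_OmH_le u S' ℓ) (prI w z)
        (fun ℓ hℓ => ⟨(mem_prI.mp hℓ).2, (mem_prI.mp hℓ).1.2⟩)
        (fun ℓ _ c hc => (mem_OmH.mp hc).2.1))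
  rw [← hN, ← hQ, ← hD] at hM2 hZ
  rw [← hN] at hM1
  -- Z ≤ M / 2
  set Nad : ℝ := (#(Adm w S) : ℝ) with hNad
  have hNad0 : 0 ≤ Nad := Nat.cast_nonneg _
  have hrat := hratio w T (by omega) hwz (by omega)
  rw [← hz, ← hL] at hrat
  have hZM : (#(Zset A B T z w S) : ℝ) ≤ #(Mset A B T S) / 2 := by
    have h1 : Nad * ((1 / 4) * (D * PK κ w T)) ≤ #(Mset A B T S) := by
      refine le_trans ?_ hM2
      apply mul_le_mul_of_nonneg_left _ hNad0
      linarith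
    have h2 : Cb * w / Real.log w * ((3 / 2) * (D * PK (κ + 1) w z) + (z : ℝ) ^ e1)
        ≤ (1 / 8) * (D * PK κ w T) := by
      have h3 : (3 / 2) * (D * PK (κ + 1) w z) + (z : ℝ) ^ e1
          ≤ 2 * (D * (Cr * (Real.log w / L) * PK κ w T)) := by
        have := mul_le_mul_of_nonneg_left hrat hD0.le
        linarith
      have h4 : 0 ≤ Cb * w / Real.log w := by positivity
      refine (mul_le_mul_of_nonneg_left h3 h4).trans ?_
      have h5 : Cb * w / Real.log w * (2 * (D * (Cr * (Real.log w / L) * PK κ w T)))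
          = (2 * Cb * Cr * (w / L)) * (D * PK κ w T) := by
        field_simp
      rw [h5]
      apply mul_le_mul_of_nonneg_right _ (by positivity)
      have h6 : (w : ℝ) / L ≤ θ := by
        rw [div_le_iff₀ (by linarith)]; exact hwθ
      have h7 : (w : ℝ) / L ≤ 1 / (16 * Cb * Cr) := h6.trans hθ2
      calc 2 * Cb * Cr * (w / L) ≤ 2 * Cb * Cr * (1 / (16 * Cb * Cr)) :=
            mul_le_mul_of_nonneg_left h7 (by positivity)
        _ = 1 / 8 := by field_simp; norm_num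
    have h3 := hZ.trans (mul_le_mul_of_nonneg_left h2 hNad0)
    linarith
  have hsd : (#(Mset A B T S) : ℝ) - #(Zset A B T z w S) ≤ #(Mset A B T S \ Zset A B T z w S) := by
    have h1 : #(Mset A B T S) ≤ #(Mset A B T S \ Zset A B T z w S) + #(Zset A B T z w S) :=
      card_le_card_sdiff_add_card (s := Mset A B T S) (t := Zset A B T z w S)
    have h2 : (#(Mset A B T S) : ℝ) ≤ #(Mset A B T S \ Zset A B T z w S) + #(Zset A B T z w S) := by
      exact_mod_cast h1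
    linarith
  have hMge : (1 / 4) * (N / q * PK κ (2 * κ) T) ≤ #(Mset A B T S) := by linarith
  have hfin : c0 / (8 * q) * (N / L ^ κ) ≤ #(Mset A B T S) / 2 := by
    have h1 : N / q * (c0 / L ^ κ) ≤ N / q * PK κ (2 * κ) T :=
      mul_le_mul_of_nonneg_left (hPK0 T (by omega)) (by positivity)
    have h2 : c0 / (8 * q) * (N / L ^ κ) = (1 / 8) * (N / q * (c0 / L ^ κ)) := by
      field_simp
    rw [h2]
    linarith
  linarith

end Pool.Agent.Lib.MP_b61f81_nt
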