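import Pool.Agent.Lib.MP_b61f81_nt.Sign

/-!
# The imbalance changes its sign a positive proportion of the time
-/

set_option autoImplicit false

open Finset

namespace Pool.Agent.Lib.MP_b61f81_nt

open Pool.Agent.Lib.MP_bae66e_nt Pool.Agent.Lib.MP_bae66e_nt.LL

/-- few windows have small imbalance -/
theorem small_imb (k : ℕ) (hk : 1 ≤ k) (η : ℝ) (hη : 0 < η) : ∃ ε : ℝ, 0 < ε ∧ ∃ N1 : ℕ, ∀ N : ℕ,
    N1 ≤ N → (#{s ∈ range N | |(imb k (s + k) : ℝ)| ≤ ε * Real.log N} : ℝ) ≤ η * N := by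
  obtain ⟨C, hC, hwin⟩ := exists_window k hk
  have hk0 : (0 : ℝ) < k := by exact_mod_cast hk
  set a : ℝ := 480 * k / η with ha
  have ha0 : 0 < a := by positivity
  set ε : ℝ := η / (720 * C * a ^ (2 * k - 1)) with hε
  have hε0 : 0 < ε := by positivity
  refine ⟨ε, hε0, max (2 * k + 20) ⌈Real.exp (1 / ε)⌉₊, ?_⟩
  intro N hN
  have hN1 : 2 * k + 20 ≤ N := (le_max_left _ _).trans hN
  have hN2 : Real.exp (1 / ε) ≤ N :=
    (Nat.le_ceil _).trans (by exact_mod_cast (le_max_right _ _).trans hN)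
  set ℓ : ℝ := Real.log N with hℓ
  have hN0 : (20 : ℝ) ≤ N := by exact_mod_cast (by omega : 20 ≤ N)
  have hℓε : 1 / ε ≤ ℓ := by
    rw [hℓ, Real.le_log_iff_exp_le (by linarith)]
    exact hN2
  have hℓ0 : 0 < ℓ := lt_of_lt_of_le (by positivity) hℓε
  have h1ε : 1 ≤ ε * ℓ := by
    rw [div_le_iff₀ hε0] at hℓε
    linarith
  set T0 : ℕ := ⌊a * ℓ⌋₊ with hT0
  have hT0a : (T0 : ℝ) ≤ a * ℓ := Nat.floor_le (by positivity)
  have hT0b : a * ℓ < T0 + 1 := Nat.lt_floor_add_one _
  set V : ℕ := ⌊ε * ℓ⌋₊ with hV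
  have hVa : (V : ℝ) ≤ ε * ℓ := Nat.floor_le (by positivity)
  have hVb : ε * ℓ < V + 1 := Nat.lt_floor_add_one _
  set G : Finset ℕ := {s ∈ range N | |(imb k (s + k) : ℝ)| ≤ ε * ℓ} with hG
  set B1 : Finset ℕ := {s ∈ range N | ∃ j < 2 * k, T0 < gp (s + j)} with hB1
  set B2 : Finset ℕ := {s ∈ range N | (∀ j < 2 * k, gp (s + j) ≤ T0) ∧
        |imb k (s + k)| ≤ V} with hB2
  have hcover : G ⊆ B1 ∪ B2 := by
    intro s hs
    have hs' := mem_filter.mp hs
    rw [mem_union]
    by_cases h1 : ∃ j < 2 * k, T0 < gp (s + j)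
    · left; exact mem_filter.mpr ⟨hs'.1, h1⟩
    · push Not at h1
      right
      refine mem_filter.mpr ⟨hs'.1, h1, ?_⟩
      by_contra h2
      push Not at h2
      have h3 : (V : ℤ) + 1 ≤ |imb k (s + k)| := h2
      have h4 : ((V : ℝ) + 1) ≤ |(imb k (s + k) : ℝ)| := by exact_mod_cast h3
      linarith [hs'.2]
  have hcard : (#G : ℝ) ≤ #B1 + #B2 := by
    have h1 := Finset.card_le_card hcover
    have h2 := h1.trans (Finset.card_union_le _ _)
    exact_mod_cast h2
  -- B1
  have hPN := nth_prime_le' (2 * k) N hN1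
  have hB1c : (#B1 : ℝ) ≤ η * N / 2 := by
    have h1 : #B1 ≤ 2 * k * #{i ∈ range (N + 2 * k) | T0 < gp i} := by
      have h1 : B1 ⊆ (range (2 * k)).biUnion (fun j => {s ∈ range N | T0 < gp (s + j)}) := by
        intro s hs
        have hs' := mem_filter.mp hs
        obtain ⟨j, hj, h⟩ := hs'.2
        rw [mem_biUnion]
        exact ⟨j, mem_range.mpr hj, mem_filter.mpr ⟨hs'.1, h⟩⟩
      have h2 : #B1 ≤ ∑ j ∈ range (2 * k), #{s ∈ range N | T0 < gp (s + j)} :=
        (Finset.card_le_card h1).trans Finset.card_biUnion_le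
      have h3 : ∀ j ∈ range (2 * k), #{s ∈ range N | T0 < gp (s + j)}
          ≤ #{n ∈ range (N + 2 * k) | T0 < gp n} := by
        intro j hj
        rw [mem_range] at hj
        apply Finset.card_le_card_of_injOn (fun s => s + j)
        · intro s hs
          have hs' := mem_filter.mp hs
          rw [Finset.mem_coe, mem_filter, mem_range]
          have := mem_range.mp hs'.1
          exact ⟨add_lt_add this hj, hs'.2⟩
        · intro s _ s' _ h
          simpa using h
      have h4 := h2.trans (Finset.sum_le_sum h3)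
      rwa [Finset.sum_const, card_range, smul_eq_mul] at h4
    have h2 := card_gap_mul_le (N + 2 * k) T0
    have h3 : (#{i ∈ range (N + 2 * k) | T0 < gp i} : ℝ) * (T0 + 1)
        ≤ 120 * N * ℓ := by
      refine le_trans ?_ hPN
      exact_mod_cast h2
    have h4 : (#{i ∈ range (N + 2 * k) | T0 < gp i} : ℝ) ≤ 120 * N / a := by
      have h5 : (#{i ∈ range (N + 2 * k) | T0 < gp i} : ℝ) * (a * ℓ) ≤ 120 * N * ℓ := by
        refine le_trans ?_ h3
        exact mul_le_mul_of_nonneg_left hT0b.le (Nat.cast_nonneg _)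
      rw [le_div_iff₀ ha0]
      have h6 : (#{i ∈ range (N + 2 * k) | T0 < gp i} : ℝ) * a * ℓ ≤ 120 * N * ℓ := by
        linarith
      exact le_of_mul_le_mul_right h6 hℓ0
    have h5 : (#B1 : ℝ) ≤ 2 * k * (#{i ∈ range (N + 2 * k) | T0 < gp i} : ℝ) := by
      exact_mod_cast h1
    calc (#B1 : ℝ) ≤ 2 * k * (120 * N / a) := h5.trans (mul_le_mul_of_nonneg_left h4 (by positivity))
      _ = η * N / 2 := by rw [ha]; field_simp; norm_num
  -- B2
  set X : ℕ := Nat.nth Nat.Prime N with hX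
  have hXN : N < X := self_lt_nth N
  have hXle : (X : ℝ) ≤ 120 * N * ℓ := by
    have := nth_prime_le' 0 N (by omega)
    rwa [add_zero] at this
  have hlogX : ℓ ≤ Real.log X := by
    apply Real.log_le_log (by linarith)
    exact_mod_cast hXN.le
  have hB2c : (#B2 : ℝ) ≤ η * N / 2 := by
    have h1 : ∀ s ∈ B2, imb k (s + k) ∈ Icc (-(V : ℤ)) V := by
      intro s hs
      have := (mem_filter.mp hs).2.2
      rw [mem_Icc]
      exact abs_le.mp this
    have h2 := Finset.card_eq_sum_card_fiberwise h1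
    have h3 : ∀ v ∈ Icc (-(V : ℤ)) V, (#{s ∈ B2 | imb k (s + k) = v} : ℝ)
        ≤ C * a ^ (2 * k - 1) * 120 * N / ℓ := by
      intro v _
      have h4 := hwin T0 X (by omega) v {s ∈ B2 | imb k (s + k) = v} (by
        intro s hs
        have hs' := mem_filter.mp hs
        have hs'' := mem_filter.mp hs'.1
        refine ⟨?_, hs''.2.1, hs'.2⟩
        exact (Nat.nth_monotone Nat.infinite_setOfPred_prime (mem_range.mp hs''.1).le))
      refine h4.trans ?_
      have h5 : (X : ℝ) / (Real.log X) ^ (2 * k + 1) ≤ 120 * N * ℓ / ℓ ^ (2 * k + 1) := by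
        apply div_le_div₀ (by positivity) hXle (by positivity)
        exact pow_le_pow_left₀ hℓ0.le hlogX _
      have h6 : (T0 : ℝ) ^ (2 * k - 1) ≤ (a * ℓ) ^ (2 * k - 1) :=
        pow_le_pow_left₀ (Nat.cast_nonneg _) hT0a _
      calc C * (T0 : ℝ) ^ (2 * k - 1) * (X / (Real.log X) ^ (2 * k + 1))
          ≤ C * (a * ℓ) ^ (2 * k - 1) * (120 * N * ℓ / ℓ ^ (2 * k + 1)) := by
            apply mul_le_mul (mul_le_mul_of_nonneg_left h6 hC.le) h5 (by positivity) (by positivity)
        _ = C * a ^ (2 * k - 1) * 120 * N / ℓ := by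
            have h7 : ℓ ^ (2 * k + 1) = ℓ ^ (2 * k - 1) * ℓ * ℓ := by
              rw [← pow_succ, ← pow_succ]
              congr 1
              omega
            rw [h7, mul_pow]
            field_simp
    have h4 : (#B2 : ℝ) ≤ ∑ _v ∈ Icc (-(V : ℤ)) V, C * a ^ (2 * k - 1) * 120 * N / ℓ := by
      rw [h2]
      push_cast
      exact Finset.sum_le_sum h3
    rw [Finset.sum_const, Int.card_Icc, nsmul_eq_mul] at h4
    have h5 : (((V : ℤ) + 1 - -(V : ℤ)).toNat : ℝ) ≤ 3 * (ε * ℓ) := by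
      have h6 : ((V : ℤ) + 1 - -(V : ℤ)).toNat = 2 * V + 1 := by omega
      rw [h6]
      push_cast
      linarith
    calc (#B2 : ℝ) ≤ (((V : ℤ) + 1 - -(V : ℤ)).toNat : ℝ) * (C * a ^ (2 * k - 1) * 120 * N / ℓ) := h4
      _ ≤ 3 * (ε * ℓ) * (C * a ^ (2 * k - 1) * 120 * N / ℓ) :=
          mul_le_mul_of_nonneg_right h5 (by positivity)
      _ = η * N / 2 := by
          rw [hε]
          field_simp
          norm_num
  linarith

lemma tele (f : ℕ → ℤ) (L a j : ℕ) :
    ∑ s ∈ range L, f (a + s + j) - ∑ s ∈ range L, f (a + s)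
      = ∑ i ∈ range j, (f (a + L + i) - f (a + i)) := by
  induction j with
  | zero => simp
  | succ j ih =>
    rw [Finset.sum_range_succ, ← ih]
    have h2 := Finset.sum_range_succ (fun s => f (a + s + j)) L
    have h3 := Finset.sum_range_succ' (fun s => f (a + s + j)) L
    have h4 : ∑ s ∈ range L, f (a + (s + 1) + j) = ∑ s ∈ range L, f (a + s + (j + 1)) := by
      apply Finset.sum_congr rfl
      intro s _
      congr 1
      omega
    rw [h4] at h3
    rw [add_zero] at h3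
    linarith

lemma block_sum (k L a T : ℕ) (h1 : ∀ i < 2 * k, gp (a + i) ≤ T)
    (h2 : ∀ i < 2 * k, gp (a + L + i) ≤ T) :
    |∑ s ∈ range L, imb k (a + s + k)| ≤ 8 * (k : ℤ) ^ 3 * T := by
  have e1 : ∑ s ∈ range L, imb k (a + s + k)
      = ∑ j ∈ range (2 * k), cc k j * (∑ s ∈ range L, (gp (a + s + j) : ℤ)
          - ∑ s ∈ range L, (gp (a + s) : ℤ)) := by
    have e2 : ∑ j ∈ range (2 * k), cc k j * (∑ s ∈ range L, (gp (a + s + j) : ℤ)
          - ∑ s ∈ range L, (gp (a + s) : ℤ))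
        = ∑ j ∈ range (2 * k), cc k j * ∑ s ∈ range L, (gp (a + s + j) : ℤ)
          - (∑ j ∈ range (2 * k), cc k j) * ∑ s ∈ range L, (gp (a + s) : ℤ) := by
      rw [Finset.sum_mul, ← Finset.sum_sub_distrib]
      apply Finset.sum_congr rfl
      intro j _; ring
    rw [e2, sum_cc, zero_mul, sub_zero]
    have e3 : ∀ s ∈ range L, imb k (a + s + k)
        = ∑ j ∈ range (2 * k), cc k j * (gp (a + s + j) : ℤ) := by
      intro s _
      rw [imb_eq_gaps]
      exact (Finset.sum_range (fun j => cc k j * (gp (a + s + j) : ℤ))).symm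
    rw [Finset.sum_congr rfl e3, Finset.sum_comm]
    apply Finset.sum_congr rfl
    intro j _
    rw [Finset.mul_sum]
  rw [e1]
  calc |∑ j ∈ range (2 * k), cc k j * (∑ s ∈ range L, (gp (a + s + j) : ℤ)
          - ∑ s ∈ range L, (gp (a + s) : ℤ))|
      ≤ ∑ j ∈ range (2 * k), |cc k j * (∑ s ∈ range L, (gp (a + s + j) : ℤ)
          - ∑ s ∈ range L, (gp (a + s) : ℤ))| := Finset.abs_sum_le_sum_abs _ _
    _ ≤ ∑ _j ∈ range (2 * k), (2 * (k : ℤ)) * (2 * k * T) := by
        apply Finset.sum_le_sum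
        intro j hj
        rw [mem_range] at hj
        rw [abs_mul]
        have hc : |cc k j| ≤ 2 * (k : ℤ) := by
          have := cc_abs_le k j
          exact_mod_cast this
        apply mul_le_mul hc _ (abs_nonneg _) (by positivity)
        rw [tele (fun n => (gp n : ℤ))]
        calc |∑ i ∈ range j, ((gp (a + L + i) : ℤ) - (gp (a + i) : ℤ))|
            ≤ ∑ i ∈ range j, |(gp (a + L + i) : ℤ) - (gp (a + i) : ℤ)| :=
              Finset.abs_sum_le_sum_abs _ _
          _ ≤ ∑ _i ∈ range j, (T : ℤ) := by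
              apply Finset.sum_le_sum
              intro i hi
              rw [mem_range] at hi
              have q1 := h1 i (by omega)
              have q2 := h2 i (by omega)
              rw [abs_le]
              constructor <;> omega
          _ = j * T := by rw [Finset.sum_const, card_range, nsmul_eq_mul]
          _ ≤ 2 * k * T := by
              apply mul_le_mul_of_nonneg_right _ (by positivity)
              exact_mod_cast hj.le
    _ = 8 * (k : ℤ) ^ 3 * T := by
        rw [Finset.sum_const, card_range, nsmul_eq_mul]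
        push_cast
        ring

lemma shift_count (P : ℕ → Prop) [DecidablePred P] (N i : ℕ) :
    #{t ∈ range N | P t} ≤ #{s ∈ range N | P (s + i)} + i := by
  have h1 : ({t ∈ range N | P t} : Finset ℕ) ⊆
      range i ∪ ({s ∈ range N | P (s + i)} : Finset ℕ).image (fun s => s + i) := by
    intro t ht
    have ht' := mem_filter.mp ht
    rw [mem_union]
    by_cases h : t < i
    · left; exact mem_range.mpr h
    · right
      rw [mem_image]
      refine ⟨t - i, mem_filter.mpr ⟨?_, ?_⟩, ?_⟩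
      · have := mem_range.mp ht'.1
        rw [mem_range]; omega
      · have : t - i + i = t := by omega
        rw [this]; exact ht'.2
      · omega
  have h2 := (Finset.card_le_card h1).trans (Finset.card_union_le _ _)
  rw [card_range] at h2
  have h3 := Finset.card_image_le (s := ({s ∈ range N | P (s + i)} : Finset ℕ)) (f := fun s => s + i)
  omega

/-- windows which contain both signs -/
lemma both_signs (F : ℕ → ℝ) (N L : ℕ) (ℓ δ B : ℝ) (hℓ : 0 < ℓ) (hδ : 0 < δ) (hL : 1 ≤ L)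
    (hA : δ * N ≤ #{s ∈ range N | δ * ℓ ≤ F s}) (Bad : Finset ℕ)
    (hBad : (#Bad : ℝ) ≤ δ * N / 8) (hsum : ∀ s ∈ range N, s ∉ Bad → ∑ i ∈ range L, F (s + i) ≤ B * ℓ)
    (hLB : B < δ ^ 2 * L / 2) (hN : 8 * L ≤ δ * N) :
    δ * N / 8 ≤ #{s ∈ range N | (∃ i < L, 0 < F (s + i)) ∧ (∃ i < L, F (s + i) ≤ 0)} := by
  classical
  have hL0 : (0 : ℝ) < L := by exact_mod_cast hL
  set c : ℕ → ℕ := fun s => #{i ∈ range L | δ * ℓ ≤ F (s + i)} with hc
  have hcL : ∀ s, c s ≤ L := fun s => by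
    refine (Finset.card_filter_le _ _).trans ?_
    rw [card_range]
  -- the double count
  have h1 : ∑ s ∈ range N, c s = ∑ i ∈ range L, #{s ∈ range N | δ * ℓ ≤ F (s + i)} := by
    simp only [hc, Finset.card_filter]
    rw [Finset.sum_comm]
  have h2 : (L : ℝ) * (δ * N - L) ≤ ∑ s ∈ range N, (c s : ℝ) := by
    have h3 : ((∑ s ∈ range N, c s : ℕ) : ℝ)
        = ∑ i ∈ range L, (#{s ∈ range N | δ * ℓ ≤ F (s + i)} : ℝ) := by
      rw [h1]; push_cast; rfl
    push_cast at h3
    rw [h3]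
    have h4 : ∑ _i ∈ range L, (δ * N - L) ≤ ∑ i ∈ range L, (#{s ∈ range N | δ * ℓ ≤ F (s + i)} : ℝ) := by
      apply Finset.sum_le_sum
      intro i hi
      have h5 := shift_count (fun s => δ * ℓ ≤ F s) N i
      have h6 : (#{t ∈ range N | δ * ℓ ≤ F t} : ℝ) ≤ #{s ∈ range N | δ * ℓ ≤ F (s + i)} + i := by
        exact_mod_cast h5
      have h7 : (i : ℝ) ≤ L := by exact_mod_cast (mem_range.mp hi).le
      linarith
    rwa [Finset.sum_const, card_range, nsmul_eq_mul] at h4
  set W : Finset ℕ := {s ∈ range N | δ * L / 2 ≤ (c s : ℝ)} with hW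
  have h3 : ∑ s ∈ range N, (c s : ℝ) ≤ #W * L + N * (δ * L / 2) := by
    have h4 : ∀ s ∈ range N, (c s : ℝ) ≤ (if δ * L / 2 ≤ (c s : ℝ) then (L : ℝ) else 0) + δ * L / 2 := by
      intro s _
      split_ifs with h
      · have : (c s : ℝ) ≤ L := by exact_mod_cast hcL s
        have : 0 ≤ δ * L / 2 := by positivity
        linarith
      · push Not at h; linarith
    refine (Finset.sum_le_sum h4).trans ?_
    rw [Finset.sum_add_distrib, Finset.sum_const, card_range, nsmul_eq_mul,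
      ← Finset.sum_filter, Finset.sum_const, nsmul_eq_mul]
  have h4 : δ * N / 4 ≤ #W := by
    have h5 : (L : ℝ) * (δ * N - L) ≤ L * (#W + N * δ / 2) := by
      have : #W * (L : ℝ) + N * (δ * L / 2) = L * (#W + N * δ / 2) := by ring
      rw [← this]
      exact h2.trans h3
    have h6 := le_of_mul_le_mul_left h5 hL0
    have h7 : (L : ℝ) ≤ δ * N / 8 := by linarith
    linarith
  have h5 : W \ Bad ⊆ ({s ∈ range N | (∃ i < L, 0 < F (s + i)) ∧ (∃ i < L, F (s + i) ≤ 0)}
      : Finset ℕ) := by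
    intro s hs
    have hs1 := (mem_sdiff.mp hs).1
    have hs2 := (mem_sdiff.mp hs).2
    have hs3 := mem_filter.mp hs1
    refine mem_filter.mpr ⟨hs3.1, ?_, ?_⟩
    · have h6 : 0 < c s := by
        have : (0 : ℝ) < c s := lt_of_lt_of_le (by positivity) hs3.2
        exact_mod_cast this
      obtain ⟨i, hi⟩ := Finset.card_pos.mp h6
      have hi' := mem_filter.mp hi
      exact ⟨i, mem_range.mp hi'.1, lt_of_lt_of_le (by positivity) hi'.2⟩
    · by_contra hcon
      push Not at hcon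
      have h6 := hsum s hs3.1 hs2
      have h7 : (c s : ℝ) * (δ * ℓ) ≤ ∑ i ∈ range L, F (s + i) := by
        calc (c s : ℝ) * (δ * ℓ) = ∑ _i ∈ range L with δ * ℓ ≤ F (s + _i), δ * ℓ := by
              rw [Finset.sum_const, nsmul_eq_mul]
          _ ≤ ∑ i ∈ range L with δ * ℓ ≤ F (s + i), F (s + i) := by
              apply Finset.sum_le_sum
              intro i hi
              exact (mem_filter.mp hi).2
          _ ≤ ∑ i ∈ range L, F (s + i) := by
              apply Finset.sum_le_sum_of_subset_of_nonneg (Finset.filter_subset _ _)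
              intro i hi _
              exact (hcon i (mem_range.mp hi)).le
      have h8 : δ * L / 2 * (δ * ℓ) ≤ (c s : ℝ) * (δ * ℓ) :=
        mul_le_mul_of_nonneg_right hs3.2 (by positivity)
      have h9 : δ ^ 2 * L / 2 * ℓ ≤ B * ℓ := by
        have : δ ^ 2 * L / 2 * ℓ = δ * L / 2 * (δ * ℓ) := by ring
        rw [this]
        linarith
      have := le_of_mul_le_mul_right h9 hℓ
      linarith
  have h6 : (#W : ℝ) ≤ #(W \ Bad) + #Bad := by
    have : #W ≤ #(W \ Bad) + #Bad := by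
      have := Finset.card_le_card_sdiff_add_card (s := W) (t := Bad)
      exact this
    exact_mod_cast this
  have h7 : (#(W \ Bad) : ℝ) ≤ #{s ∈ range N | (∃ i < L, 0 < F (s + i)) ∧ (∃ i < L, F (s + i) ≤ 0)} := by
    exact_mod_cast Finset.card_le_card h5
  linarith

lemma exists_change (P : ℕ → Prop) (a b : ℕ) (hab : a ≤ b) (h : ¬ (P a ↔ P b)) :
    ∃ n, a ≤ n ∧ n < b ∧ ¬ (P n ↔ P (n + 1)) := by
  have key : ∀ c : ℕ, (∀ n, a ≤ n → n < a + c → (P n ↔ P (n + 1))) → (P a ↔ P (a + c)) := by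
    intro c
    induction c with
    | zero => intro _; rfl
    | succ c ih =>
      intro hc
      have h1 := ih (fun n hn hn' => hc n hn (by omega))
      have h2 := hc (a + c) (by omega) (by omega)
      rw [h1, h2]
      rfl
  by_contra hcon
  push Not at hcon
  apply h
  have h1 := key (b - a) (fun n hn hn' => hcon n hn (by omega))
  have h2 : a + (b - a) = b := by omega
  rwa [h2] at h1

lemma change_count (P : ℕ → Prop) [DecidablePred P] (N L : ℕ) :
    #{s ∈ range N | (∃ i < L, P (s + i)) ∧ (∃ i < L, ¬ P (s + i))}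
      ≤ L * #{n ∈ range (N + L) | ¬ (P n ↔ P (n + 1))} := by
  classical
  set Ch : Finset ℕ := {n ∈ range (N + L) | ¬ (P n ↔ P (n + 1))} with hCh
  have h1 : ({s ∈ range N | (∃ i < L, P (s + i)) ∧ (∃ i < L, ¬ P (s + i))} : Finset ℕ)
      ⊆ (range L).biUnion (fun i => {s ∈ range N | s + i ∈ Ch}) := by
    intro s hs
    have hs' := mem_filter.mp hs
    obtain ⟨⟨i, hi, hPi⟩, ⟨j, hj, hPj⟩⟩ := hs'.2
    have hsN := mem_range.mp hs'.1
    have h2 : ∃ n, s ≤ n ∧ n < s + L ∧ ¬ (P n ↔ P (n + 1)) := by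
      rcases le_total i j with h | h
      · obtain ⟨n, h3, h4, h5⟩ := exists_change P (s + i) (s + j) (by omega) (by tauto)
        exact ⟨n, by omega, by omega, h5⟩
      · obtain ⟨n, h3, h4, h5⟩ := exists_change P (s + j) (s + i) (by omega) (by tauto)
        exact ⟨n, by omega, by omega, h5⟩
    obtain ⟨n, h3, h4, h5⟩ := h2
    rw [mem_biUnion]
    refine ⟨n - s, mem_range.mpr (by omega), mem_filter.mpr ⟨hs'.1, ?_⟩⟩
    have : s + (n - s) = n := by omega
    rw [this]
    exact mem_filter.mpr ⟨mem_range.mpr (by omega), h5⟩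
  refine (Finset.card_le_card h1).trans (Finset.card_biUnion_le.trans ?_)
  have h2 : ∀ i ∈ range L, #{s ∈ range N | s + i ∈ Ch} ≤ #Ch := by
    intro i _
    apply Finset.card_le_card_of_injOn (fun s => s + i)
    · intro s hs
      exact (mem_filter.mp hs).2
    · intro s _ s' _ h
      simpa using h
  refine (Finset.sum_le_sum h2).trans ?_
  rw [Finset.sum_const, card_range, smul_eq_mul]

lemma updown (P : ℕ → Prop) [DecidablePred P] (N : ℕ) :
    (#{n ∈ range N | ¬ P n ∧ P (n + 1)} : ℤ) - #{n ∈ range N | P n ∧ ¬ P (n + 1)}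
      = (if P N then 1 else 0) - (if P 0 then 1 else 0) := by
  induction N with
  | zero => simp
  | succ N ih =>
    rw [Finset.range_add_one, Finset.filter_insert, Finset.filter_insert]
    by_cases h1 : P N <;> by_cases h2 : P (N + 1) <;> simp [h1, h2] at ih ⊢ <;> omega

lemma updown_le (P : ℕ → Prop) [DecidablePred P] (N : ℕ) :
    #{n ∈ range N | ¬ (P n ↔ P (n + 1))} ≤ 2 * #{n ∈ range N | P n ∧ ¬ P (n + 1)} + 1 ∧
    #{n ∈ range N | ¬ (P n ↔ P (n + 1))} ≤ 2 * #{n ∈ range N | ¬ P n ∧ P (n + 1)} + 1 := by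
  have h1 := updown P N
  have h2 : ({n ∈ range N | ¬ (P n ↔ P (n + 1))} : Finset ℕ)
      = {n ∈ range N | P n ∧ ¬ P (n + 1)} ∪ {n ∈ range N | ¬ P n ∧ P (n + 1)} := by
    ext n
    simp only [mem_filter, mem_union]
    tauto
  have h3 := Finset.card_union_le ({n ∈ range N | P n ∧ ¬ P (n + 1)} : Finset ℕ)
    ({n ∈ range N | ¬ P n ∧ P (n + 1)} : Finset ℕ)
  rw [← h2] at h3
  have h4 : ((if P N then 1 else 0) : ℤ) - (if P 0 then 1 else 0) ≤ 1 := by
    split_ifs <;> norm_num
  have h5 : -1 ≤ ((if P N then 1 else 0) : ℤ) - (if P 0 then 1 else 0) := by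
    split_ifs <;> norm_num
  rw [← h1] at h4 h5
  omega

lemma strict_count (F : ℕ → ℝ) (R Q : ℕ → Prop) [DecidablePred R] [DecidablePred Q] (N L : ℕ) (e : ℝ)
    (h : ∀ n, e < |F n| → e < |F (n + 1)| → R n → Q n) :
    #{n ∈ range (N + L) | R n} ≤ #{n ∈ range N | Q n} + L + 1 + 2 * #{s ∈ range N | |F s| ≤ e} := by
  classical
  set Z : Finset ℕ := {s ∈ range N | |F s| ≤ e} with hZ
  have h1 : ({n ∈ range (N + L) | R n} : Finset ℕ)
      ⊆ ((({n ∈ range N | Q n} : Finset ℕ) ∪ Ico N (N + L)) ∪ {N - 1}) ∪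
        (Z ∪ {n ∈ range N | n + 1 ∈ Z}) := by
    intro n hn
    have hn' := mem_filter.mp hn
    have hnN := mem_range.mp hn'.1
    rw [mem_union, mem_union, mem_union, mem_union]
    by_cases h1 : N ≤ n
    · left; left; right; exact mem_Ico.mpr ⟨h1, hnN⟩
    push Not at h1
    by_cases h2 : n ∈ Z
    · right; left; exact h2
    by_cases h3 : n + 1 ∈ Z
    · right; right; exact mem_filter.mpr ⟨mem_range.mpr h1, h3⟩
    by_cases h4 : n = N - 1
    · left; right; exact mem_singleton.mpr h4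
    left; left; left
    refine mem_filter.mpr ⟨mem_range.mpr h1, h n ?_ ?_ hn'.2⟩
    · by_contra hcon
      push Not at hcon
      exact h2 (mem_filter.mpr ⟨mem_range.mpr h1, hcon⟩)
    · by_contra hcon
      push Not at hcon
      exact h3 (mem_filter.mpr ⟨mem_range.mpr (by omega), hcon⟩)
  have h2 : #{n ∈ range N | n + 1 ∈ Z} ≤ #Z := by
    apply Finset.card_le_card_of_injOn (fun n => n + 1)
    · intro n hn
      exact (mem_filter.mp hn).2
    · intro n _ n' _ h
      simpa using h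
  have h3 := Finset.card_le_card h1
  have h4 := Finset.card_union_le ((({n ∈ range N | Q n} : Finset ℕ) ∪ Ico N (N + L)) ∪ {N - 1})
    (Z ∪ {n ∈ range N | n + 1 ∈ Z})
  have h5 := Finset.card_union_le Z ({n ∈ range N | n + 1 ∈ Z} : Finset ℕ)
  have h6 := Finset.card_union_le (({n ∈ range N | Q n} : Finset ℕ) ∪ Ico N (N + L)) {N - 1}
  have h7 := Finset.card_union_le ({n ∈ range N | Q n} : Finset ℕ) (Ico N (N + L))
  rw [Nat.card_Ico] at h7
  rw [card_singleton] at h6
  omega

/-- **The imbalance changes its sign, in both directions and at the scale of the logarithm, a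
positive proportion of the time.** -/
theorem changes (k : ℕ) (hk : 1 ≤ k) : ∃ δ : ℝ, 0 < δ ∧ ∃ N0 : ℕ, ∀ N : ℕ, N0 ≤ N →
    δ * N ≤ #{n ∈ range N | k ≤ n ∧ δ * Real.log N ≤ (imb k n : ℝ) ∧
      (imb k (n + 1) : ℝ) ≤ -(δ * Real.log N)} ∧
    δ * N ≤ #{n ∈ range N | k ≤ n ∧ (imb k n : ℝ) ≤ -(δ * Real.log N) ∧
      δ * Real.log N ≤ (imb k (n + 1) : ℝ)} := by
  classical
  obtain ⟨δ1, hδ1, M0, hsig⟩ := signs k hk
  have hk0 : (1 : ℝ) ≤ k := by exact_mod_cast hk
  set a : ℝ := 3840 * k / δ1 with ha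
  have ha0 : 0 < a := by positivity
  set B : ℝ := 8 * (k : ℝ) ^ 3 * a with hB
  have hB0 : 0 < B := by positivity
  set L : ℕ := ⌈2 * B / δ1 ^ 2⌉₊ + 1 with hL
  have hL1 : 1 ≤ L := by omega
  have hL0 : (0 : ℝ) < L := by exact_mod_cast hL1
  have hLB : B < δ1 ^ 2 * L / 2 := by
    have h1 : 2 * B / δ1 ^ 2 < L := by
      rw [hL]; push_cast
      have := Nat.le_ceil (2 * B / δ1 ^ 2)
      linarith
    rw [div_lt_iff₀ (by positivity)] at h1
    linarith
  obtain ⟨ε, hε, M1, hsmall⟩ := small_imb k hk (δ1 / (128 * L)) (by positivity)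
  set δ : ℝ := min ε (δ1 / (64 * L)) with hδ
  have hδ0 : 0 < δ := by positivity
  have hδε : δ ≤ ε := min_le_left _ _
  have hδ2 : δ ≤ δ1 / (64 * L) := min_le_right _ _
  refine ⟨δ, hδ0, max (max M0 M1) (max (L + 2 * k + 20) (max ⌈8 * L / δ1⌉₊
    ⌈32 * L * (L + k + 2) / δ1⌉₊)), ?_⟩
  intro N hN
  have hN0 : M0 ≤ N := ((le_max_left _ _).trans (le_max_left _ _)).trans hN
  have hN1 : M1 ≤ N := ((le_max_right _ _).trans (le_max_left _ _)).trans hN
  have hN2 : L + 2 * k + 20 ≤ N := ((le_max_left _ _).trans (le_max_right _ _)).trans hN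
  have hN3 : ⌈8 * L / δ1⌉₊ ≤ N :=
    (((le_max_left _ _).trans (le_max_right _ _)).trans (le_max_right _ _)).trans hN
  have hN4 : ⌈32 * L * (L + k + 2) / δ1⌉₊ ≤ N :=
    (((le_max_right _ _).trans (le_max_right _ _)).trans (le_max_right _ _)).trans hN
  have hN3' : 8 * (L : ℝ) ≤ δ1 * N := by
    have : 8 * (L : ℝ) / δ1 ≤ N := (Nat.le_ceil _).trans (by exact_mod_cast hN3)
    rw [div_le_iff₀ hδ1] at this
    linarith
  have hN4' : 32 * (L : ℝ) * (L + k + 2) ≤ δ1 * N := by
    have : 32 * (L : ℝ) * (L + k + 2) / δ1 ≤ N := (Nat.le_ceil _).trans (by exact_mod_cast hN4)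
    rw [div_le_iff₀ hδ1] at this
    linarith
  set ℓ : ℝ := Real.log N with hℓ
  have hNpos : (20 : ℝ) ≤ N := by exact_mod_cast (by omega : 20 ≤ N)
  have hℓ0 : 0 < ℓ := Real.log_pos (by linarith)
  set F : ℕ → ℝ := fun s => (imb k (s + k) : ℝ) with hF
  -- many s with F s large
  have hA : δ1 * N ≤ #{s ∈ range N | δ1 * ℓ ≤ F s} := by
    refine (hsig N hN0).1.trans ?_
    refine Nat.cast_le.mpr ?_
    apply Finset.card_le_card_of_injOn (fun n => n - k)
    · intro n hn
      have hn' := mem_filter.mp hn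
      rw [Finset.mem_coe, mem_filter, mem_range]
      have h1 := mem_range.mp hn'.1
      refine ⟨by simp only; omega, ?_⟩
      have h2 : n - k + k = n := by have := hn'.2.1; omega
      simp only [hF]
      rw [h2]
      exact hn'.2.2
    · intro n hn n' hn' h
      have h1 := (mem_filter.mp hn).2.1
      have h2 := (mem_filter.mp hn').2.1
      simp only at h
      omega
  -- windows with a large gap near the ends
  set T : ℕ := ⌊a * ℓ⌋₊ with hT
  have hTa : (T : ℝ) ≤ a * ℓ := Nat.floor_le (by positivity)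
  have hTb : a * ℓ < T + 1 := Nat.lt_floor_add_one _
  set Bad : Finset ℕ := {s ∈ range N | (∃ j < 2 * k, T < gp (s + j)) ∨ (∃ j < 2 * k, T < gp (s + L + j))}
    with hBadd
  have hPN := nth_prime_le' (L + 2 * k) N (by omega)
  have hBad : (#Bad : ℝ) ≤ δ1 * N / 8 := by
    have h1 : #Bad ≤ 4 * k * #{i ∈ range (N + (L + 2 * k)) | T < gp i} := by
      have h1 : Bad ⊆ ((range (2 * k)).biUnion (fun j => {s ∈ range N | T < gp (s + j)})) ∪
          ((range (2 * k)).biUnion (fun j => {s ∈ range N | T < gp (s + L + j)})) := by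
        intro s hs
        have hs' := mem_filter.mp hs
        rw [mem_union, mem_biUnion, mem_biUnion]
        rcases hs'.2 with ⟨j, hj, h⟩ | ⟨j, hj, h⟩
        · left; exact ⟨j, mem_range.mpr hj, mem_filter.mpr ⟨hs'.1, h⟩⟩
        · right; exact ⟨j, mem_range.mpr hj, mem_filter.mpr ⟨hs'.1, h⟩⟩
      have h2 : ∀ e : ℕ, e ≤ L → #((range (2 * k)).biUnion (fun j => {s ∈ range N | T < gp (s + e + j)}))
          ≤ 2 * k * #{i ∈ range (N + (L + 2 * k)) | T < gp i} := by
        intro e he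
        have h3 : ∀ j ∈ range (2 * k), #{s ∈ range N | T < gp (s + e + j)}
            ≤ #{n ∈ range (N + (L + 2 * k)) | T < gp n} := by
          intro j hj
          rw [mem_range] at hj
          apply Finset.card_le_card_of_injOn (fun s => s + e + j)
          · intro s hs
            have hs' := mem_filter.mp hs
            rw [Finset.mem_coe, mem_filter, mem_range]
            have := mem_range.mp hs'.1
            exact ⟨by simp only; omega, hs'.2⟩
          · intro s _ s' _ h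
            simp only at h
            omega
        have h4 := (Finset.card_biUnion_le (s := range (2 * k))
          (t := fun j => ({s ∈ range N | T < gp (s + e + j)} : Finset ℕ))).trans (Finset.sum_le_sum h3)
        rwa [Finset.sum_const, card_range, smul_eq_mul] at h4
      have h5 := h2 0 (by omega)
      simp only [add_zero] at h5
      have h6 := h2 L le_rfl
      have h7 := (Finset.card_le_card h1).trans (Finset.card_union_le _ _)
      have h8 : 4 * k * #{i ∈ range (N + (L + 2 * k)) | T < gp i}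
          = 2 * k * #{i ∈ range (N + (L + 2 * k)) | T < gp i}
            + 2 * k * #{i ∈ range (N + (L + 2 * k)) | T < gp i} := by ring
      rw [h8]
      exact h7.trans (Nat.add_le_add h5 h6)
    have h2 := card_gap_mul_le (N + (L + 2 * k)) T
    have h3 : (#{i ∈ range (N + (L + 2 * k)) | T < gp i} : ℝ) * (T + 1) ≤ 120 * N * ℓ := by
      refine le_trans ?_ hPN
      exact_mod_cast h2
    have h4 : (#{i ∈ range (N + (L + 2 * k)) | T < gp i} : ℝ) ≤ 120 * N / a := by
      have h5 : (#{i ∈ range (N + (L + 2 * k)) | T < gp i} : ℝ) * (a * ℓ) ≤ 120 * N * ℓ := by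
        refine le_trans ?_ h3
        exact mul_le_mul_of_nonneg_left hTb.le (Nat.cast_nonneg _)
      rw [le_div_iff₀ ha0]
      have h6 : (#{i ∈ range (N + (L + 2 * k)) | T < gp i} : ℝ) * a * ℓ ≤ 120 * N * ℓ := by
        linarith
      exact le_of_mul_le_mul_right h6 hℓ0
    have h5 : (#Bad : ℝ) ≤ 4 * k * (#{i ∈ range (N + (L + 2 * k)) | T < gp i} : ℝ) := by
      exact_mod_cast h1
    calc (#Bad : ℝ) ≤ 4 * k * (120 * N / a) := h5.trans (mul_le_mul_of_nonneg_left h4 (by positivity))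
      _ = δ1 * N / 8 := by rw [ha]; field_simp; norm_num
  have hsum : ∀ s ∈ range N, s ∉ Bad → ∑ i ∈ range L, F (s + i) ≤ B * ℓ := by
    intro s hs hsB
    have h1 : ∀ i < 2 * k, gp (s + i) ≤ T := by
      intro i hi
      by_contra hcon
      push Not at hcon
      exact hsB (mem_filter.mpr ⟨hs, Or.inl ⟨i, hi, hcon⟩⟩)
    have h2 : ∀ i < 2 * k, gp (s + L + i) ≤ T := by
      intro i hi
      by_contra hcon
      push Not at hcon
      exact hsB (mem_filter.mpr ⟨hs, Or.inr ⟨i, hi, hcon⟩⟩)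
    have h3 := (le_abs_self _).trans (block_sum k L s T h1 h2)
    have h4 : ((∑ i ∈ range L, imb k (s + i + k) : ℤ) : ℝ) ≤ 8 * (k : ℝ) ^ 3 * T := by
      exact_mod_cast h3
    push_cast at h4
    calc ∑ i ∈ range L, F (s + i) ≤ 8 * (k : ℝ) ^ 3 * T := h4
      _ ≤ 8 * (k : ℝ) ^ 3 * (a * ℓ) := mul_le_mul_of_nonneg_left hTa (by positivity)
      _ = B * ℓ := by rw [hB]; ring
  have hboth := both_signs F N L ℓ δ1 B hℓ0 hδ1 hL1 hA Bad hBad hsum hLB hN3'
  -- changes of sign
  set P : ℕ → Prop := fun s => 0 < F s with hP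
  have h1 : #{s ∈ range N | (∃ i < L, 0 < F (s + i)) ∧ (∃ i < L, F (s + i) ≤ 0)}
      ≤ L * #{n ∈ range (N + L) | ¬ (P n ↔ P (n + 1))} := by
    have h2 := change_count P N L
    simp only [hP, not_lt] at h2 ⊢
    exact h2
  have h2 : δ1 * N / 8 ≤ L * (#{n ∈ range (N + L) | ¬ (P n ↔ P (n + 1))} : ℝ) := by
    refine hboth.trans ?_
    exact_mod_cast h1
  have hud := updown_le P (N + L)
  have hZ := hsmall N hN1
  rw [← hℓ] at hZ
  -- a general lower bound
  have gen : ∀ (R Q : ℕ → Prop) [DecidablePred R] [DecidablePred Q], (∀ n, ε * ℓ < |F n| → ε * ℓ < |F (n + 1)| → R n → Q n) →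
      #{n ∈ range (N + L) | ¬ (P n ↔ P (n + 1))} ≤ 2 * #{n ∈ range (N + L) | R n} + 1 →
      δ * N + k ≤ #{n ∈ range N | Q n} := by
    intro R Q _ _ hRQ hcnt
    have h3 := strict_count F R Q N L (ε * ℓ) hRQ
    have h4 : (#{n ∈ range (N + L) | R n} : ℝ)
        ≤ #{n ∈ range N | Q n} + L + 1 + 2 * #{s ∈ range N | |F s| ≤ ε * ℓ} := by exact_mod_cast h3
    have h5 : (#{n ∈ range (N + L) | ¬ (P n ↔ P (n + 1))} : ℝ) ≤ 2 * #{n ∈ range (N + L) | R n} + 1 := by
      exact_mod_cast hcnt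
    have h6 : (#{s ∈ range N | |F s| ≤ ε * ℓ} : ℝ) ≤ δ1 / (128 * L) * N := hZ
    have h7 : δ1 * N / (8 * L) ≤ #{n ∈ range (N + L) | ¬ (P n ↔ P (n + 1))} := by
      rw [div_le_iff₀ (by positivity)]
      linarith
    have h8 : δ * N ≤ δ1 / (64 * L) * N := mul_le_mul_of_nonneg_right hδ2 (by linarith)
    have h9 : (L : ℝ) + k + 2 ≤ δ1 * N / (32 * L) := by
      rw [le_div_iff₀ (by positivity)]
      linarith
    have e1 : δ1 / (64 * L) * N = δ1 * N / (8 * L) / 8 := by field_simp; norm_num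
    have e2 : δ1 / (128 * L) * N = δ1 * N / (8 * L) / 16 := by field_simp; norm_num
    have e3 : δ1 * N / (32 * L) = δ1 * N / (8 * L) / 4 := by field_simp; norm_num
    rw [e1] at h8
    rw [e2] at h6
    rw [e3] at h9
    linarith
  -- transfer to indices
  have tr : ∀ (Q : ℕ → Prop) [DecidablePred Q], #{n ∈ range N | Q (n + k)} ≤ #{n ∈ range N | k ≤ n ∧ Q n} + k := by
    intro Q _
    have h3 : ({n ∈ range N | Q (n + k)} : Finset ℕ).image (fun n => n + k)
        ⊆ ({n ∈ range N | k ≤ n ∧ Q n} : Finset ℕ) ∪ Ico N (N + k) := by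
      intro n hn
      obtain ⟨s, hs, rfl⟩ := mem_image.mp hn
      have hs' := mem_filter.mp hs
      have := mem_range.mp hs'.1
      rw [mem_union]
      by_cases h : s + k < N
      · left; exact mem_filter.mpr ⟨mem_range.mpr h, by omega, hs'.2⟩
      · right; exact mem_Ico.mpr ⟨by omega, by omega⟩
    have h4 := (Finset.card_le_card h3).trans (Finset.card_union_le _ _)
    rw [Finset.card_image_of_injective _ (by intro x y h; simpa using h), Nat.card_Ico] at h4
    omega
  have hεℓ : δ * ℓ ≤ ε * ℓ := mul_le_mul_of_nonneg_right hδε hℓ0.le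
  constructor
  · have h3 := gen (fun n => P n ∧ ¬ P (n + 1))
      (fun n => δ * ℓ ≤ (imb k (n + k) : ℝ) ∧ (imb k (n + k + 1) : ℝ) ≤ -(δ * ℓ)) (by
        intro n h3 h4 h5
        have h6 : 0 < F n := h5.1
        have h7 : F (n + 1) ≤ 0 := not_lt.mp h5.2
        rw [abs_of_pos h6] at h3
        rw [abs_of_nonpos h7] at h4
        have h8 : n + 1 + k = n + k + 1 := by omega
        simp only [hF] at h3 h4
        rw [h8] at h4
        exact ⟨by linarith, by linarith⟩) hud.1
    have h4 := tr (fun n => δ * ℓ ≤ (imb k n : ℝ) ∧ (imb k (n + 1) : ℝ) ≤ -(δ * ℓ))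
    have h5 : (#{n ∈ range N | δ * ℓ ≤ (imb k (n + k) : ℝ) ∧ (imb k (n + k + 1) : ℝ) ≤ -(δ * ℓ)} : ℝ)
        ≤ #{n ∈ range N | k ≤ n ∧ δ * ℓ ≤ (imb k n : ℝ) ∧ (imb k (n + 1) : ℝ) ≤ -(δ * ℓ)} + k := by
      exact_mod_cast h4
    linarith
  · have h3 := gen (fun n => ¬ P n ∧ P (n + 1))
      (fun n => (imb k (n + k) : ℝ) ≤ -(δ * ℓ) ∧ δ * ℓ ≤ (imb k (n + k + 1) : ℝ)) (by
        intro n h3 h4 h5
        have h6 : 0 < F (n + 1) := h5.2
        have h7 : F n ≤ 0 := not_lt.mp h5.1
        rw [abs_of_pos h6] at h4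
        rw [abs_of_nonpos h7] at h3
        have h8 : n + 1 + k = n + k + 1 := by omega
        simp only [hF] at h3 h4
        rw [h8] at h4
        exact ⟨by linarith, by linarith⟩) hud.2
    have h4 := tr (fun n => (imb k n : ℝ) ≤ -(δ * ℓ) ∧ δ * ℓ ≤ (imb k (n + 1) : ℝ))
    have h5 : (#{n ∈ range N | (imb k (n + k) : ℝ) ≤ -(δ * ℓ) ∧ δ * ℓ ≤ (imb k (n + k + 1) : ℝ)} : ℝ)
        ≤ #{n ∈ range N | k ≤ n ∧ (imb k n : ℝ) ≤ -(δ * ℓ) ∧ δ * ℓ ≤ (imb k (n + 1) : ℝ)} + k := by
      exact_mod_cast h4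
    linarith

end Pool.Agent.Lib.MP_b61f81_nt
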