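import Pool.Agent.Lib.MP_b61f81_nt.FLK
import Pool.Agent.Lib.MP_bae66e_nt.Cheb

/-!
# Products over primes and a bound for sifted intervals
-/

set_option autoImplicit false

namespace Pool.Agent.Lib.MP_b61f81_nt

open Finset Pool.Agent.Lib.MP_bae66e_nt Pool.Agent.Lib.MP_bae66e_nt.AP3

lemma exp_le_one_sub {y : ℝ} (hy0 : 0 ≤ y) (hy : y ≤ 1 / 2) : Real.exp (-(y + y ^ 2)) ≤ 1 - y := by
  have h2 : Real.exp (-(y + y ^ 2)) ≤ 1 / (1 + (y + y ^ 2) + (y + y ^ 2) ^ 2 / 2) := by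
    rw [Real.exp_neg, inv_eq_one_div]
    apply one_div_le_one_div_of_le (by positivity)
    exact Real.quadratic_le_exp_of_nonneg (by positivity)
  refine h2.trans ?_
  rw [div_le_iff₀ (by positivity)]
  have h3 : (1 - y) * (1 + (y + y ^ 2) + (y + y ^ 2) ^ 2 / 2)
      = 1 + y ^ 2 * ((1 - y) * (1 + y) ^ 2 / 2 - y) := by ring
  rw [h3]
  have h4 : 0 ≤ (1 - y) * (1 + y) ^ 2 / 2 - y := by
    have h5 : 0 ≤ (1 - y) * ((1 + y) ^ 2 - 2) + 2 * (1 - y) - 2 * y := by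
      have h6 : (1 - y) * ((1 + y) ^ 2 - 2) + 2 * (1 - y) - 2 * y = 1 - y - y ^ 2 - y ^ 3 := by ring
      rw [h6]
      have h7 : y ^ 2 ≤ 1 / 4 := by nlinarith
      have h8 : y ^ 3 ≤ 1 / 8 := by nlinarith
      linarith
    linarith
  have h6 : 0 ≤ y ^ 2 * ((1 - y) * (1 + y) ^ 2 / 2 - y) := mul_nonneg (by positivity) h4
  linarith

/-- the factors of the dimension `κ` product -/
lemma factor_bounds {κ ℓ : ℕ} (h : 2 * κ < ℓ) :
    1 / 2 ≤ 1 - (κ : ℝ) / ℓ ∧ 1 - (κ : ℝ) / ℓ ≤ 1 := by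
  have hℓ : (0 : ℝ) < ℓ := by exact_mod_cast (by omega : 0 < ℓ)
  have h1 : (κ : ℝ) / ℓ ≤ 1 / 2 := by
    rw [div_le_div_iff₀ hℓ (by norm_num)]
    have : (2 * κ : ℝ) ≤ ℓ := by exact_mod_cast h.le
    linarith
  have h2 : 0 ≤ (κ : ℝ) / ℓ := by positivity
  constructor <;> linarith

noncomputable def PK (κ w T : ℕ) : ℝ := ∏ ℓ ∈ prI w T, (1 - (κ : ℝ) / ℓ)

lemma PK_pos {κ w T : ℕ} (h : 2 * κ ≤ w) : 0 < PK κ w T := by
  unfold PK
  apply prod_pos
  intro ℓ hℓ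
  have := (factor_bounds (κ := κ) (ℓ := ℓ) (by have := (mem_prI.mp hℓ).1.1; omega)).1
  linarith

lemma PK_le_one {κ w T : ℕ} (h : 2 * κ ≤ w) : PK κ w T ≤ 1 := by
  unfold PK
  apply prod_le_one
  · intro ℓ hℓ
    have := (factor_bounds (κ := κ) (ℓ := ℓ) (by have := (mem_prI.mp hℓ).1.1; omega)).1
    linarith
  · intro ℓ hℓ
    exact (factor_bounds (κ := κ) (ℓ := ℓ) (by have := (mem_prI.mp hℓ).1.1; omega)).2

lemma prI_split {w v T : ℕ} (h1 : w ≤ v) (h2 : v ≤ T) : prI w T = prI w v ∪ prI v T := by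
  ext p
  rw [mem_union, mem_prI, mem_prI, mem_prI]
  constructor
  · rintro ⟨⟨h3, h4⟩, h5⟩
    rcases le_or_gt p v with h | h
    · left; exact ⟨⟨h3, h⟩, h5⟩
    · right; exact ⟨⟨h, h4⟩, h5⟩
  · rintro (⟨⟨h3, h4⟩, h5⟩ | ⟨⟨h3, h4⟩, h5⟩)
    · exact ⟨⟨h3, h4.trans h2⟩, h5⟩
    · exact ⟨⟨by omega, h4⟩, h5⟩

lemma prI_disj {w v T : ℕ} : Disjoint (prI w v) (prI v T) := by
  rw [disjoint_left]
  intro p h1 h2
  have := (mem_prI.mp h1).1.2
  have := (mem_prI.mp h2).1.1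
  omega

lemma PK_split {κ w v T : ℕ} (h1 : w ≤ v) (h2 : v ≤ T) : PK κ w T = PK κ w v * PK κ v T := by
  unfold PK
  rw [prI_split h1 h2, prod_union prI_disj]

lemma PK_mono {κ w v T : ℕ} (h : 2 * κ ≤ w) (h1 : w ≤ v) (h2 : v ≤ T) : PK κ w T ≤ PK κ v T := by
  rw [PK_split h1 h2]
  have := PK_le_one (κ := κ) (w := w) (T := v) h
  have := PK_pos (κ := κ) (w := v) (T := T) (by omega)
  nlinarith

lemma sum_inv_sq_prI (w T : ℕ) : ∑ p ∈ prI w T, 1 / (p : ℝ) ^ 2 ≤ 1 := by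
  refine le_trans ?_ (sum_prms_inv_sq_le T)
  apply sum_le_sum_of_subset_of_nonneg
  · intro p hp
    have := mem_prI.mp hp
    rw [mem_prms]; exact ⟨this.1.2, this.2⟩
  · intro p _ _; positivity

lemma PK_ge (κ T : ℕ) : KT T ^ κ * Real.exp (-(κ : ℝ) ^ 2) ≤ PK κ (2 * κ) T := by
  have h1 : ∀ ℓ ∈ prI (2 * κ) T, (1 - 1 / (ℓ : ℝ)) ^ κ * Real.exp (-((κ : ℝ) ^ 2 * (1 / (ℓ : ℝ) ^ 2)))
      ≤ 1 - (κ : ℝ) / ℓ := by
    intro ℓ hℓ
    have hℓ' := mem_prI.mp hℓ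
    have hp := hℓ'.2
    have hp2 : (2 : ℝ) ≤ ℓ := by exact_mod_cast hp.two_le
    have hb := factor_bounds (κ := κ) (ℓ := ℓ) hℓ'.1.1
    have hy0 : 0 ≤ (κ : ℝ) / ℓ := by positivity
    have h2 := exp_le_one_sub hy0 (by linarith [hb.1])
    refine le_trans ?_ h2
    rw [neg_add, Real.exp_add]
    have h3 : (1 - 1 / (ℓ : ℝ)) ^ κ ≤ Real.exp (-((κ : ℝ) / ℓ)) := by
      have h4 : 1 - 1 / (ℓ : ℝ) ≤ Real.exp (-(1 / (ℓ : ℝ))) := by
        have := Real.add_one_le_exp (-(1 / (ℓ : ℝ)))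
        linarith
      have h5 : 0 ≤ 1 - 1 / (ℓ : ℝ) := (one_sub_inv_pos hp).le
      calc (1 - 1 / (ℓ : ℝ)) ^ κ ≤ (Real.exp (-(1 / (ℓ : ℝ)))) ^ κ := pow_le_pow_left₀ h5 h4 κ
        _ = Real.exp (-((κ : ℝ) / ℓ)) := by
            rw [← Real.exp_nat_mul]; congr 1; ring
    apply mul_le_mul h3 _ (Real.exp_pos _).le (Real.exp_pos _).le
    apply le_of_eq
    congr 1
    ring
  have h2 : KT T ^ κ ≤ ∏ ℓ ∈ prI (2 * κ) T, (1 - 1 / (ℓ : ℝ)) ^ κ := by
    rw [prod_pow]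
    apply pow_le_pow_left₀ (KT_pos T).le
    rcases le_or_gt (2 * κ) T with h | h
    · unfold KT
      rw [prI_split (Nat.zero_le (2 * κ)) h, prod_union prI_disj]
      have h3 : ∏ p ∈ prI 0 (2 * κ), (1 - 1 / (p : ℝ)) ≤ 1 := by
        apply prod_le_one
        · intro p hp; exact (one_sub_inv_pos (mem_prI.mp hp).2).le
        · intro p _
          have : (0 : ℝ) ≤ 1 / (p : ℝ) := by positivity
          linarith
      have h4 : 0 ≤ ∏ p ∈ prI (2 * κ) T, (1 - 1 / (p : ℝ)) :=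
        prod_nonneg fun p hp => (one_sub_inv_pos (mem_prI.mp hp).2).le
      nlinarith
    · have h3 : prI (2 * κ) T = ∅ := by
        rw [eq_empty_iff_forall_notMem]
        intro p hp
        have := (mem_prI.mp hp).1
        omega
      rw [h3, prod_empty]
      unfold KT
      apply prod_le_one
      · intro p hp; exact (one_sub_inv_pos (mem_prI.mp hp).2).le
      · intro p _
        have : (0 : ℝ) ≤ 1 / (p : ℝ) := by positivity
        linarith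
  have h3 : Real.exp (-(κ : ℝ) ^ 2)
      ≤ ∏ ℓ ∈ prI (2 * κ) T, Real.exp (-((κ : ℝ) ^ 2 * (1 / (ℓ : ℝ) ^ 2))) := by
    rw [← Real.exp_sum]
    apply Real.exp_le_exp.mpr
    rw [sum_neg_distrib, ← mul_sum]
    have := sum_inv_sq_prI (2 * κ) T
    have h4 : (κ : ℝ) ^ 2 * ∑ p ∈ prI (2 * κ) T, 1 / (p : ℝ) ^ 2 ≤ (κ : ℝ) ^ 2 * 1 :=
      mul_le_mul_of_nonneg_left this (by positivity)
    linarith
  calc KT T ^ κ * Real.exp (-(κ : ℝ) ^ 2)
      ≤ (∏ ℓ ∈ prI (2 * κ) T, (1 - 1 / (ℓ : ℝ)) ^ κ)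
        * ∏ ℓ ∈ prI (2 * κ) T, Real.exp (-((κ : ℝ) ^ 2 * (1 / (ℓ : ℝ) ^ 2))) := by
        apply mul_le_mul h2 h3 (Real.exp_pos _).le
        exact le_trans (by have := KT_pos T; positivity) h2
    _ = ∏ ℓ ∈ prI (2 * κ) T, (1 - 1 / (ℓ : ℝ)) ^ κ
        * Real.exp (-((κ : ℝ) ^ 2 * (1 / (ℓ : ℝ) ^ 2))) := prod_mul_distrib.symm
    _ ≤ PK κ (2 * κ) T := by
        unfold PK
        apply prod_le_prod _ h1
        intro ℓ hℓ
        have := (one_sub_inv_pos (mem_prI.mp hℓ).2).le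
        positivity

lemma exists_PK_ge (κ : ℕ) : ∃ c : ℝ, 0 < c ∧ ∀ T : ℕ, 2 ≤ T → c / Real.log T ^ κ ≤ PK κ (2 * κ) T := by
  obtain ⟨c, hc, h⟩ := exists_KT_ge
  refine ⟨c ^ κ * Real.exp (-(κ : ℝ) ^ 2), by positivity, ?_⟩
  intro T hT
  have hlT : 0 < Real.log T := Real.log_pos (by exact_mod_cast hT)
  refine le_trans ?_ (PK_ge κ T)
  have h1 : (c / Real.log T) ^ κ ≤ KT T ^ κ := pow_le_pow_left₀ (by positivity) (h T hT) κ
  calc c ^ κ * Real.exp (-(κ : ℝ) ^ 2) / Real.log T ^ κ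
      = (c / Real.log T) ^ κ * Real.exp (-(κ : ℝ) ^ 2) := by rw [div_pow]; ring
    _ ≤ _ := mul_le_mul_of_nonneg_right h1 (Real.exp_pos _).le

/-- comparison of the product of dimension `κ + 1` up to `√T` with that of dimension `κ` up to `T` -/
lemma exists_PK_ratio (κ : ℕ) : ∃ C : ℝ, 0 < C ∧ ∀ w T : ℕ, 2 * κ + 2 ≤ w → w ≤ Nat.sqrt T → 2 ≤ T →
    PK (κ + 1) w (Nat.sqrt T) ≤ C * (Real.log w / Real.log T) * PK κ w T := by
  obtain ⟨c, hc, hKT⟩ := exists_KT_ge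
  obtain ⟨L0, hL01, hL0⟩ := exists_L0
  refine ⟨2 / c * Real.exp (κ * L0), by positivity, ?_⟩
  intro w T hw hwT hT
  set z := Nat.sqrt T with hz
  have hzT : z ≤ T := Nat.sqrt_le_self T
  have hw2 : 2 ≤ w := by omega
  have hlw : 0 < Real.log w := Real.log_pos (by exact_mod_cast hw2)
  have hlT : 0 < Real.log T := Real.log_pos (by exact_mod_cast hT)
  -- factor (1 - (κ+1)/ℓ) ≤ (1 - κ/ℓ)(1 - 1/ℓ)
  have h1 : PK (κ + 1) w z ≤ PK κ w z * ∏ ℓ ∈ prI w z, (1 - 1 / (ℓ : ℝ)) := by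
    unfold PK
    rw [← prod_mul_distrib]
    apply prod_le_prod
    · intro ℓ hℓ
      have := (factor_bounds (κ := κ + 1) (ℓ := ℓ) (by have := (mem_prI.mp hℓ).1.1; omega)).1
      linarith
    · intro ℓ hℓ
      have hℓ0 : (0 : ℝ) < ℓ := by exact_mod_cast (mem_prI.mp hℓ).2.pos
      have h2 : 0 ≤ (κ : ℝ) / ℓ * (1 / ℓ) := by positivity
      push_cast
      have h3 : (1 - (κ : ℝ) / ℓ) * (1 - 1 / ℓ) = 1 - ((κ : ℝ) + 1) / ℓ + κ / ℓ * (1 / ℓ) := by
        field_simp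
        ring
      rw [h3]
      linarith
  -- KT z / KT w
  have h2 : ∏ ℓ ∈ prI w z, (1 - 1 / (ℓ : ℝ)) ≤ 2 / c * (Real.log w / Real.log T) := by
    have e1 : KT z = KT w * ∏ ℓ ∈ prI w z, (1 - 1 / (ℓ : ℝ)) := by
      unfold KT
      rw [prI_split (Nat.zero_le w) hwT, prod_union prI_disj]
    have e2 := KT_le z (by omega)
    have e3 := hKT w hw2
    have e4 : Real.log T / 2 ≤ Real.log ((z : ℝ) + 1) := by
      have h3 : (T : ℝ) ≤ ((z : ℝ) + 1) ^ 2 := by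
        have := Nat.lt_succ_sqrt T
        have h4 : T ≤ (z + 1) ^ 2 := by rw [sq]; exact this.le
        exact_mod_cast h4
      have h4 := Real.log_le_log (by exact_mod_cast (by omega : 0 < T)) h3
      rw [Real.log_pow] at h4
      push_cast at h4
      linarith
    have hP0 : 0 ≤ ∏ ℓ ∈ prI w z, (1 - 1 / (ℓ : ℝ)) :=
      prod_nonneg fun p hp => (one_sub_inv_pos (mem_prI.mp hp).2).le
    have e5 : c / Real.log w * ∏ ℓ ∈ prI w z, (1 - 1 / (ℓ : ℝ)) ≤ 2 / Real.log T := by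
      calc c / Real.log w * ∏ ℓ ∈ prI w z, (1 - 1 / (ℓ : ℝ))
          ≤ KT w * ∏ ℓ ∈ prI w z, (1 - 1 / (ℓ : ℝ)) := mul_le_mul_of_nonneg_right e3 hP0
        _ = KT z := e1.symm
        _ ≤ 1 / Real.log ((z : ℝ) + 1) := e2
        _ ≤ 1 / (Real.log T / 2) := one_div_le_one_div_of_le (by positivity) e4
        _ = 2 / Real.log T := by field_simp
    have e6 : ∏ ℓ ∈ prI w z, (1 - 1 / (ℓ : ℝ))
        = (Real.log w / c) * (c / Real.log w * ∏ ℓ ∈ prI w z, (1 - 1 / (ℓ : ℝ))) := by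
      field_simp
    rw [e6]
    calc (Real.log w / c) * (c / Real.log w * ∏ ℓ ∈ prI w z, (1 - 1 / (ℓ : ℝ)))
        ≤ (Real.log w / c) * (2 / Real.log T) := mul_le_mul_of_nonneg_left e5 (by positivity)
      _ = 2 / c * (Real.log w / Real.log T) := by field_simp
  -- the primes between z and T
  have h3 : Real.exp (-(κ * L0)) ≤ PK κ z T := by
    have e1 : ∀ ℓ ∈ prI z T, Real.exp (-(2 * ((κ : ℝ) / ℓ))) ≤ 1 - (κ : ℝ) / ℓ := by
      intro ℓ hℓ
      have hb := factor_bounds (κ := κ) (ℓ := ℓ) (by have := (mem_prI.mp hℓ).1.1; omega)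
      have hy0 : 0 ≤ (κ : ℝ) / ℓ := by positivity
      refine le_trans ?_ (exp_le_one_sub hy0 (by linarith [hb.1]))
      apply Real.exp_le_exp.mpr
      have : ((κ : ℝ) / ℓ) ^ 2 ≤ (κ : ℝ) / ℓ := by
        have := hb.1
        nlinarith
      linarith
    unfold PK
    refine le_trans ?_ (prod_le_prod (fun ℓ _ => (Real.exp_pos _).le) e1)
    rw [← Real.exp_sum]
    apply Real.exp_le_exp.mpr
    rw [sum_neg_distrib]
    have e2 : ∑ ℓ ∈ prI z T, 2 * ((κ : ℝ) / ℓ) = κ * ∑ ℓ ∈ prI z T, 2 / (ℓ : ℝ) := by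
      rw [mul_sum]
      apply sum_congr rfl
      intro p _
      ring
    rw [e2]
    have e3 : ∑ ℓ ∈ prI z T, 2 / (ℓ : ℝ) ≤ L0 := hL0 T
    have := mul_le_mul_of_nonneg_left e3 (Nat.cast_nonneg κ : (0 : ℝ) ≤ κ)
    linarith
  have h4 : PK κ w T = PK κ w z * PK κ z T := PK_split hwT hzT
  have hPw : 0 < PK κ w z := PK_pos (by omega)
  have h5 : PK κ w z ≤ Real.exp (κ * L0) * PK κ w T := by
    rw [h4]
    have e1 : 1 ≤ Real.exp (κ * L0) * PK κ z T := by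
      have := mul_le_mul_of_nonneg_left h3 (Real.exp_pos (κ * L0)).le
      rw [← Real.exp_add] at this
      simpa using this
    calc PK κ w z = PK κ w z * 1 := by ring
      _ ≤ PK κ w z * (Real.exp (κ * L0) * PK κ z T) := mul_le_mul_of_nonneg_left e1 hPw.le
      _ = _ := by ring
  calc PK (κ + 1) w z ≤ PK κ w z * ∏ ℓ ∈ prI w z, (1 - 1 / (ℓ : ℝ)) := h1
    _ ≤ PK κ w z * (2 / c * (Real.log w / Real.log T)) := mul_le_mul_of_nonneg_left h2 hPw.le
    _ ≤ (Real.exp (κ * L0) * PK κ w T) * (2 / c * (Real.log w / Real.log T)) :=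
        mul_le_mul_of_nonneg_right h5 (by positivity)
    _ = _ := by ring

/-- sifted intervals are small -/
theorem exists_bt : ∃ C : ℝ, 0 < C ∧ ∀ a w : ℕ, 2 ≤ w →
    (#{n ∈ Ioc a (a + w) | ∀ p ∈ prI 0 w, ¬ p ∣ n} : ℝ) ≤ C * w / Real.log w := by
  obtain ⟨e, T0, he, hT0, hfl⟩ := exists_flHalf 1
  have he0 : (0 : ℝ) < e := by exact_mod_cast he
  refine ⟨3 * e + 2 + Real.log ((T0 : ℝ) ^ (2 * e)), by
    have : 0 ≤ Real.log ((T0 : ℝ) ^ (2 * e)) := Real.log_nonneg (one_le_pow₀ (by exact_mod_cast (by omega : 1 ≤ T0)))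
    positivity, ?_⟩
  intro a w hw
  have hw0 : (2 : ℝ) ≤ w := by exact_mod_cast hw
  have hlw : 0 < Real.log w := Real.log_pos (by linarith)
  set S : Finset ℕ := {n ∈ Ioc a (a + w) | ∀ p ∈ prI 0 w, ¬ p ∣ n} with hS
  have hT0log : 0 ≤ Real.log ((T0 : ℝ) ^ (2 * e)) :=
    Real.log_nonneg (one_le_pow₀ (by exact_mod_cast (by omega : 1 ≤ T0)))
  set z : ℕ := ⌊(w : ℝ) ^ (1 / (2 * (e : ℝ)))⌋₊ with hz
  have hz1 : (z : ℝ) ≤ (w : ℝ) ^ (1 / (2 * (e : ℝ))) := Nat.floor_le (by positivity)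
  have hz2 : (w : ℝ) ^ (1 / (2 * (e : ℝ))) < z + 1 := Nat.lt_floor_add_one _
  have hpow : ((w : ℝ) ^ (1 / (2 * (e : ℝ)))) ^ (2 * e) = w := by
    rw [← Real.rpow_natCast, ← Real.rpow_mul (by linarith)]
    push_cast
    rw [one_div_mul_cancel (by positivity), Real.rpow_one]
  rcases lt_or_ge z T0 with h | h
  · -- small w
    have h1 : (#S : ℝ) ≤ w := by
      have : #S ≤ w := by
        refine (card_filter_le _ _).trans ?_
        rw [Nat.card_Ioc]; omega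
      exact_mod_cast this
    have h2 : (w : ℝ) ≤ (T0 : ℝ) ^ (2 * e) := by
      rw [← hpow]
      apply pow_le_pow_left₀ (by positivity)
      have : ((z + 1 : ℕ) : ℝ) ≤ T0 := by exact_mod_cast h
      push_cast at this
      linarith
    have h3 : Real.log w ≤ Real.log ((T0 : ℝ) ^ (2 * e)) := Real.log_le_log (by linarith) h2
    rw [le_div_iff₀ hlw]
    calc (#S : ℝ) * Real.log w ≤ w * Real.log ((T0 : ℝ) ^ (2 * e)) :=
          mul_le_mul h1 h3 hlw.le (by linarith)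
      _ ≤ (3 * e + 2 + Real.log ((T0 : ℝ) ^ (2 * e))) * w := by nlinarith
  · set Om : ℕ → Finset ℕ := fun ℓ => if ℓ.Prime then {0} else ∅ with hOm
    have hxb : ∀ ℓ, xb Om ℓ ≤ 1 / 2 := by
      intro ℓ
      unfold xb
      by_cases hp : ℓ.Prime
      · rw [hOm]; simp only [if_pos hp, card_singleton, Nat.cast_one]
        exact one_div_le_one_div_of_le (by norm_num) (by exact_mod_cast hp.two_le)
      · rw [hOm]; simp only [if_neg hp, card_empty, Nat.cast_zero, zero_div]; norm_num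
    have hcard : ∀ ℓ, #(Om ℓ) ≤ 1 := by
      intro ℓ
      rw [hOm]; simp only
      split_ifs <;> simp
    have h1 := hfl z h Om a (a + w) (by omega) hxb hcard (prI 0 z)
      (fun ℓ hℓ => ⟨(mem_prI.mp hℓ).2, (mem_prI.mp hℓ).1.2⟩)
      (fun ℓ hℓ c hc => by
        rw [hOm] at hc
        simp only [if_pos (mem_prI.mp hℓ).2, mem_singleton] at hc
        rw [hc]; exact (mem_prI.mp hℓ).2.pos) 1 0 one_pos (fun ℓ _ => Nat.coprime_one_right ℓ)
    have hprod : ∏ ℓ ∈ prI 0 z, (1 - xb Om ℓ) = KT z := by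
      unfold KT
      apply prod_congr rfl
      intro p hp
      unfold xb
      rw [hOm]; simp only [if_pos (mem_prI.mp hp).2, card_singleton, Nat.cast_one]
    rw [hprod] at h1
    have hsub : S ⊆ cset Om a (a + w) 1 0 ∅ (prI 0 z) := by
      intro n hn
      have hn' := mem_filter.mp hn
      unfold cset
      rw [mem_filter]
      refine ⟨hn'.1, Nat.modEq_one, by simp, ?_⟩
      intro ℓ hℓ
      have hp := (mem_prI.mp hℓ).2
      rw [hOm]; simp only [if_pos hp, mem_singleton]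
      intro h0
      refine hn'.2 ℓ (mem_prI.mpr ⟨⟨hp.pos, ?_⟩, hp⟩) (Nat.dvd_of_mod_eq_zero h0)
      have h2 := (mem_prI.mp hℓ).1.2
      have h3 : (z : ℝ) ≤ w := by
        refine hz1.trans ?_
        calc (w : ℝ) ^ (1 / (2 * (e : ℝ))) ≤ (w : ℝ) ^ (1 : ℝ) := by
              apply Real.rpow_le_rpow_of_exponent_le (by linarith)
              rw [div_le_one (by positivity)]
              have : (1 : ℝ) ≤ e := by exact_mod_cast he
              linarith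
          _ = w := Real.rpow_one _
      have h4 : z ≤ w := by exact_mod_cast h3
      omega
    have h2 : (#S : ℝ) ≤ #(cset Om a (a + w) 1 0 ∅ (prI 0 z)) := by
      exact_mod_cast card_le_card hsub
    have h3 := (abs_le.mp h1).2
    push_cast at h3
    have e1 : ((a : ℝ) + w - a) / 1 * KT z = w * KT z := by ring
    rw [e1] at h3
    have hz0 : 1 ≤ z := by omega
    have h4 : KT z ≤ 2 * e / Real.log w := by
      refine (KT_le z hz0).trans ?_
      have h5 : Real.log w / (2 * e) ≤ Real.log ((z : ℝ) + 1) := by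
        have h6 := Real.log_le_log (by positivity) hz2.le
        rw [Real.log_rpow (by linarith)] at h6
        calc Real.log w / (2 * e) = 1 / (2 * (e : ℝ)) * Real.log w := by ring
          _ ≤ _ := h6
      calc 1 / Real.log ((z : ℝ) + 1) ≤ 1 / (Real.log w / (2 * e)) :=
            one_div_le_one_div_of_le (by positivity) h5
        _ = 2 * e / Real.log w := by field_simp
    have h5 : (z : ℝ) ^ e ≤ 2 * w / Real.log w := by
      have h6 : ((z : ℝ) ^ e) ^ 2 ≤ w := by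
        rw [← pow_mul, mul_comm e 2, ← hpow]
        exact pow_le_pow_left₀ (Nat.cast_nonneg z) hz1 _
      have h7 : (z : ℝ) ^ e ≤ √(w : ℝ) := Real.le_sqrt_of_sq_le h6
      refine h7.trans ?_
      rw [le_div_iff₀ hlw]
      have h8 := log_le_two_sqrt (x := (w : ℝ)) (by linarith)
      have h9 : √(w : ℝ) * √(w : ℝ) = w := Real.mul_self_sqrt (by linarith)
      calc √(w : ℝ) * Real.log w ≤ √(w : ℝ) * (2 * √(w : ℝ)) :=
            mul_le_mul_of_nonneg_left h8 (Real.sqrt_nonneg _)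
        _ = 2 * (√(w : ℝ) * √(w : ℝ)) := by ring
        _ = 2 * w := by rw [h9]
    have h6 : (w : ℝ) * KT z ≤ w * (2 * e / Real.log w) := mul_le_mul_of_nonneg_left h4 (by linarith)
    have h7 : (#S : ℝ) ≤ 3 / 2 * (w * (2 * e / Real.log w)) + 2 * w / Real.log w := by linarith
    refine h7.trans ?_
    have h8 : 3 / 2 * (w * (2 * (e : ℝ) / Real.log w)) + 2 * w / Real.log w
        = (3 * e + 2) * w / Real.log w := by field_simp
    rw [h8]
    apply div_le_div_of_nonneg_right _ hlw.le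
    nlinarith

end Pool.Agent.Lib.MP_b61f81_nt
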