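import Pool.Agent.Lib.MP_b61f81_nt.Sign

/-!
# Balanced primes of order `k` are rare
-/

set_option autoImplicit false

open Finset

namespace Pool.Agent.Lib.MP_b61f81_nt

open Pool.Agent.Lib.MP_bae66e_nt Pool.Agent.Lib.MP_bae66e_nt.LL

/-- the indices of the primes up to `x` with imbalance `v` -/
noncomputable def balS (k : ℕ) (v : ℤ) (x : ℕ) : Finset ℕ :=
  {n ∈ range x | k ≤ n ∧ Nat.nth Nat.Prime n ≤ x ∧ imb k n = v}

lemma nth_le_nth {a b : ℕ} (h : a ≤ b) : Nat.nth Nat.Prime a ≤ Nat.nth Nat.Prime b :=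
  Nat.nth_monotone Nat.infinite_setOfPred_prime h

lemma card_gap_le (x T : ℕ) :
    #{i ∈ range x | T < gp i ∧ Nat.nth Nat.Prime (i + 1) ≤ x} * (T + 1) ≤ x := by
  set A : Finset ℕ := {i ∈ range x | T < gp i ∧ Nat.nth Nat.Prime (i + 1) ≤ x} with hA
  rcases A.eq_empty_or_nonempty with h | h
  · rw [h]; simp
  · set M := A.max' h + 1 with hM
    have hmem := A.max'_mem h
    have hM1 : Nat.nth Nat.Prime M ≤ x := (mem_filter.mp hmem).2.2
    have hsub : A ⊆ {i ∈ range M | T < gp i} := by
      intro i hi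
      rw [mem_filter, mem_range]
      have := A.le_max' i hi
      exact ⟨by omega, (mem_filter.mp hi).2.1⟩
    calc #A * (T + 1) ≤ #{i ∈ range M | T < gp i} * (T + 1) :=
          Nat.mul_le_mul_right _ (Finset.card_le_card hsub)
      _ ≤ Nat.nth Nat.Prime M := card_gap_mul_le M T
      _ ≤ x := hM1

lemma card_end_le (k x : ℕ) :
    #{n ∈ range x | Nat.nth Nat.Prime n ≤ x ∧ x < Nat.nth Nat.Prime (n + k)} ≤ k := by
  set A : Finset ℕ := {n ∈ range x | Nat.nth Nat.Prime n ≤ x ∧ x < Nat.nth Nat.Prime (n + k)}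
    with hA
  rcases A.eq_empty_or_nonempty with h | h
  · rw [h]; simp
  · set n0 := A.min' h with hn0
    have h0 := (mem_filter.mp (A.min'_mem h)).2
    have hsub : A ⊆ Ico n0 (n0 + k) := by
      intro n hn
      rw [mem_Ico]
      refine ⟨A.min'_le n hn, ?_⟩
      by_contra hcon
      push Not at hcon
      have h1 := nth_le_nth hcon
      have h2 := (mem_filter.mp hn).2.1
      have h3 : x < Nat.nth Nat.Prime (n0 + k) := h0.2
      omega
    calc #A ≤ #(Ico n0 (n0 + k)) := Finset.card_le_card hsub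
      _ = k := by rw [Nat.card_Ico]; omega

lemma card_bal_le (k x T : ℕ) (v : ℤ) :
    (#(balS k v x) : ℝ) ≤ #{s ∈ range x | Nat.nth Nat.Prime s ≤ x ∧ (∀ j < 2 * k, gp (s + j) ≤ T) ∧
      imb k (s + k) = v} + 2 * k * (x / (T + 1)) + k := by
  set A1 : Finset ℕ := {s ∈ range x | Nat.nth Nat.Prime s ≤ x ∧ (∀ j < 2 * k, gp (s + j) ≤ T) ∧
      imb k (s + k) = v} with hA1
  set A3 : Finset ℕ := {n ∈ range x | Nat.nth Nat.Prime n ≤ x ∧ x < Nat.nth Nat.Prime (n + k)}
    with hA3
  set D : Finset ℕ := {i ∈ range x | T < gp i ∧ Nat.nth Nat.Prime (i + 1) ≤ x} with hD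
  have hcover : balS k v x ⊆ A1.image (· + k) ∪ ((range (2 * k)).biUnion
      (fun j => {n ∈ balS k v x | n - k + j ∈ D}) ∪ A3) := by
    intro n hn
    have hn' := (mem_filter.mp hn).2
    have hnx := (mem_filter.mp hn).1
    rw [mem_union, mem_union]
    by_cases h1 : ∀ j < 2 * k, gp (n - k + j) ≤ T
    · left
      rw [mem_image]
      refine ⟨n - k, mem_filter.mpr ⟨?_, ?_, h1, ?_⟩, by omega⟩
      · rw [mem_range] at *; omega
      · exact (nth_le_nth (by omega)).trans hn'.2.1
      · rw [Nat.sub_add_cancel hn'.1]; exact hn'.2.2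
    · push Not at h1
      obtain ⟨j, hj, hg⟩ := h1
      right
      by_cases h2 : x < Nat.nth Nat.Prime (n + k)
      · right
        exact mem_filter.mpr ⟨hnx, hn'.2.1, h2⟩
      · left
        push Not at h2
        rw [mem_biUnion]
        refine ⟨j, mem_range.mpr hj, mem_filter.mpr ⟨hn, mem_filter.mpr ⟨?_, hg, ?_⟩⟩⟩
        · rw [mem_range]
          have h3 : n - k + j < n + k := by omega
          have h4 := self_lt_nth (n + k)
          omega
        · exact (nth_le_nth (by omega)).trans h2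
  have h1 := Finset.card_le_card hcover
  have h2 : #(A1.image (· + k)) ≤ #A1 := Finset.card_image_le
  have h3 : #((range (2 * k)).biUnion (fun j => {n ∈ balS k v x | n - k + j ∈ D}))
      ≤ 2 * k * #D := by
    calc #((range (2 * k)).biUnion (fun j => {n ∈ balS k v x | n - k + j ∈ D}))
        ≤ ∑ j ∈ range (2 * k), #{n ∈ balS k v x | n - k + j ∈ D} := Finset.card_biUnion_le
      _ ≤ ∑ _j ∈ range (2 * k), #D := by
          apply Finset.sum_le_sum
          intro j _
          apply Finset.card_le_card_of_injOn (fun n => n - k + j)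
          · intro n hn
            exact (mem_filter.mp hn).2
          · intro n hn n' hn' h
            have e1 := (mem_filter.mp (mem_filter.mp hn).1).2.1
            have e2 := (mem_filter.mp (mem_filter.mp hn').1).2.1
            simp only at h
            omega
      _ = 2 * k * #D := by rw [Finset.sum_const, card_range, smul_eq_mul]
  have h4 := card_end_le k x
  have h5 := card_gap_le x T
  have h6 : (#D : ℝ) ≤ x / (T + 1) := by
    rw [le_div_iff₀ (by positivity)]
    exact_mod_cast h5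
  have h7 : #(balS k v x) ≤ #A1 + (2 * k * #D + k) := by
    refine h1.trans ((Finset.card_union_le _ _).trans ?_)
    refine Nat.add_le_add h2 ((Finset.card_union_le _ _).trans ?_)
    exact Nat.add_le_add h3 h4
  have h8 : (#(balS k v x) : ℝ) ≤ #A1 + (2 * k * #D + k) := by exact_mod_cast h7
  have h9 : 2 * (k : ℝ) * #D ≤ 2 * k * (x / (T + 1)) := mul_le_mul_of_nonneg_left h6 (by positivity)
  linarith

/-- **Balanced primes are rare.** -/
theorem rare (k : ℕ) (hk : 1 ≤ k) : ∃ C : ℝ, 0 < C ∧ ∀ v : ℤ, ∀ x : ℕ, 2 ≤ x →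
    (#(balS k v x) : ℝ) ≤ C * x / (Real.log x) ^ (1 + 1 / (2 * k) : ℝ) := by
  obtain ⟨C, hC, hwin⟩ := exists_window k hk
  have hk0 : (1 : ℝ) ≤ k := by exact_mod_cast hk
  refine ⟨C + 2 * k + 5 * k, by positivity, ?_⟩
  intro v x hx
  have hx0 : (2 : ℝ) ≤ x := by exact_mod_cast hx
  set L : ℝ := Real.log x with hL
  have hL0 : 0 < L := Real.log_pos (by linarith)
  set e : ℝ := 1 + 1 / (2 * k) with he
  have he1 : 1 ≤ e := by
    rw [he]; have : 0 ≤ 1 / (2 * (k : ℝ)) := by positivity
    linarith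
  have he2 : e ≤ 2 := by
    rw [he]
    have : 1 / (2 * (k : ℝ)) ≤ 1 := by
      rw [div_le_one (by positivity)]; linarith
    linarith
  set τ : ℝ := L ^ e with hτ
  have hτ0 : 0 < τ := Real.rpow_pos_of_pos hL0 _
  set T : ℕ := ⌊τ⌋₊ with hT
  have hT1 : (T : ℝ) ≤ τ := Nat.floor_le hτ0.le
  have hT2 : τ < T + 1 := Nat.lt_floor_add_one _
  have h1 := card_bal_le k x T v
  have h2 := hwin T x hx v {s ∈ range x | Nat.nth Nat.Prime s ≤ x ∧
    (∀ j < 2 * k, gp (s + j) ≤ T) ∧ imb k (s + k) = v} (fun s hs => (mem_filter.mp hs).2)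
  -- first term
  have h3 : C * (T : ℝ) ^ (2 * k - 1) * (x / L ^ (2 * k + 1)) ≤ C * x / τ := by
    have e1 : (T : ℝ) ^ (2 * k - 1) ≤ τ ^ (2 * k - 1) :=
      pow_le_pow_left₀ (Nat.cast_nonneg _) hT1 _
    have e2 : τ ^ (2 * k) = L ^ (2 * k + 1) := by
      rw [hτ, ← Real.rpow_natCast (L ^ e), ← Real.rpow_mul hL0.le, ← Real.rpow_natCast L]
      congr 1
      rw [he]
      push_cast
      field_simp
    have e3 : τ ^ (2 * k) = τ ^ (2 * k - 1) * τ := by
      rw [← pow_succ]; congr 1; omega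
    calc C * (T : ℝ) ^ (2 * k - 1) * (x / L ^ (2 * k + 1))
        ≤ C * τ ^ (2 * k - 1) * (x / L ^ (2 * k + 1)) := by
          apply mul_le_mul_of_nonneg_right (mul_le_mul_of_nonneg_left e1 hC.le) (by positivity)
      _ = C * x / τ := by
          rw [← e2, e3]
          field_simp
  have h4 : 2 * (k : ℝ) * (x / (T + 1)) ≤ 2 * k * x / τ := by
    rw [mul_div_assoc]
    apply mul_le_mul_of_nonneg_left _ (by positivity)
    exact div_le_div_of_nonneg_left (by positivity) hτ0 hT2.le
  have h5 : (k : ℝ) ≤ 5 * k * x / τ := by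
    rw [le_div_iff₀ hτ0]
    have h6 : τ ≤ 5 * x := by
      rcases le_total L 1 with h | h
      · have : τ ≤ 1 := Real.rpow_le_one hL0.le h (by linarith)
        linarith
      · calc τ ≤ L ^ (2 : ℝ) := Real.rpow_le_rpow_of_exponent_le h he2
          _ = L ^ 2 := by norm_cast
          _ ≤ (2 * √(x : ℝ)) ^ 2 := pow_le_pow_left₀ hL0.le (log_le_two_sqrt (by linarith)) 2
          _ = 4 * x := by rw [mul_pow, Real.sq_sqrt (by linarith)]; norm_num
          _ ≤ 5 * x := by linarith
    nlinarith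
  have h6 : (C + 2 * k + 5 * k) * x / τ = C * x / τ + 2 * k * x / τ + 5 * k * x / τ := by
    rw [← add_div, ← add_div]
    congr 1
    ring
  rw [h6]
  linarith [h1, h2, h3, h4, h5]

/-- the indices of the primes with imbalance `v` -/
def balI (k : ℕ) (v : ℤ) : Set ℕ := {n | k ≤ n ∧ imb k n = v}

/-- **The sum of the reciprocals of the balanced primes of order `k` converges.** -/
theorem summable_bal (k : ℕ) (hk : 1 ≤ k) (v : ℤ) :
    Summable (fun n : balI k v => 1 / (Nat.nth Nat.Prime n : ℝ)) := by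
  obtain ⟨C, hC, hrare⟩ := rare k hk
  have hk0 : (1 : ℝ) ≤ k := by exact_mod_cast hk
  set e : ℝ := 1 + 1 / (2 * k) with he
  have he1 : 1 < e := by
    rw [he]; have : 0 < 1 / (2 * (k : ℝ)) := by positivity
    linarith
  -- dyadic bound
  have hsum : Summable (fun i : ℕ => 2 * C / (Real.log 2) ^ e * (1 / ((i : ℝ) + 1) ^ e)) := by
    apply Summable.mul_left
    have := (Real.summable_one_div_nat_rpow (p := e)).mpr he1
    have h2 := (summable_nat_add_iff 1).mpr this
    simpa using h2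
  have hlog2 : 0 < Real.log 2 := Real.log_pos (by norm_num)
  apply summable_of_sum_le (c := ∑' i : ℕ, 2 * C / (Real.log 2) ^ e * (1 / ((i : ℝ) + 1) ^ e))
  · intro n; positivity
  · intro F
    -- group by the dyadic size of the prime
    set s : Finset ℕ := F.image (fun n : balI k v => (n : ℕ)) with hs
    have hFs : ∑ n ∈ F, 1 / (Nat.nth Nat.Prime n : ℝ) = ∑ n ∈ s, 1 / (Nat.nth Nat.Prime n : ℝ) := by
      rw [hs, Finset.sum_image]
      intro a _ b _ h
      exact Subtype.ext h
    rw [hFs]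
    have hsb : ∀ n ∈ s, k ≤ n ∧ imb k n = v := by
      intro n hn
      obtain ⟨a, _, rfl⟩ := Finset.mem_image.mp hn
      exact a.2
    set g : ℕ → ℕ := fun n => Nat.log 2 (Nat.nth Nat.Prime n) with hg
    obtain ⟨M, hM⟩ : ∃ M, ∀ n ∈ s, g n < M := by
      refine ⟨s.sup g + 1, fun n hn => ?_⟩
      have := Finset.le_sup (f := g) hn
      omega
    have hmaps : ∀ n ∈ s, g n ∈ range M := fun n hn => mem_range.mpr (hM n hn)
    rw [← Finset.sum_fiberwise_of_maps_to hmaps]
    refine le_trans ?_ (hsum.sum_le_tsum (range M) (fun i _ => by positivity))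
    apply Finset.sum_le_sum
    intro i _
    have hfib : ∀ n ∈ ({n ∈ s | g n = i} : Finset ℕ), 2 ^ i ≤ Nat.nth Nat.Prime n ∧
        Nat.nth Nat.Prime n < 2 ^ (i + 1) := by
      intro n hn
      have h1 := (mem_filter.mp hn).2
      have hp := (Nat.prime_nth_prime n).pos
      rw [hg] at h1
      simp only at h1
      constructor
      · rw [← h1]; exact Nat.pow_log_le_self 2 hp.ne'
      · rw [← h1]; exact Nat.lt_pow_succ_log_self (by norm_num) _
    have hcard : (#{n ∈ s | g n = i} : ℝ) ≤ C * (2 ^ (i + 1) : ℕ) / (Real.log ((2 ^ (i + 1) : ℕ) : ℝ)) ^ e := by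
      refine le_trans ?_ (hrare v (2 ^ (i + 1)) (by
        calc 2 = 2 ^ 1 := by norm_num
          _ ≤ 2 ^ (i + 1) := Nat.pow_le_pow_right (by norm_num) (by omega)))
      refine Nat.cast_le.mpr ?_
      apply Finset.card_le_card
      intro n hn
      have h1 := hfib n hn
      have h2 := hsb n (mem_filter.mp hn).1
      unfold balS
      rw [mem_filter, mem_range]
      have h3 := self_lt_nth n
      exact ⟨by omega, h2.1, h1.2.le, h2.2⟩
    calc ∑ n ∈ s with g n = i, 1 / (Nat.nth Nat.Prime n : ℝ)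
        ≤ ∑ _n ∈ s with g _n = i, 1 / (2 : ℝ) ^ i := by
          apply Finset.sum_le_sum
          intro n hn
          apply one_div_le_one_div_of_le (by positivity)
          exact_mod_cast (hfib n hn).1
      _ = (#{n ∈ s | g n = i} : ℝ) * (1 / 2 ^ i) := by rw [Finset.sum_const, nsmul_eq_mul]
      _ ≤ C * (2 ^ (i + 1) : ℕ) / (Real.log ((2 ^ (i + 1) : ℕ) : ℝ)) ^ e * (1 / 2 ^ i) :=
          mul_le_mul_of_nonneg_right hcard (by positivity)
      _ = 2 * C / (Real.log 2) ^ e * (1 / ((i : ℝ) + 1) ^ e) := by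
          push_cast
          rw [Real.log_pow, Real.mul_rpow (by positivity) hlog2.le, pow_succ]
          push_cast
          field_simp

end Pool.Agent.Lib.MP_b61f81_nt
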