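import Pool.Agent.Lib.MP_b61f81_nt.Good
import Pool.Agent.Lib.MP_b61f81_nt.BoxLow

/-!
# Balanced rough numbers
-/

set_option autoImplicit false

open Finset

namespace Pool.Agent.Lib.MP_b61f81_nt

open Pool.Agent.Lib.MP_bae66e_nt Pool.Agent.Lib.MP_bae66e_nt.AP3

/-- `n > 1` all of whose prime factors exceed `n ^ c` -/
def Rough (c : ℝ) (n : ℕ) : Prop := 1 < n ∧ ∀ p : ℕ, p.Prime → p ∣ n → (n : ℝ) ^ c < p

lemma rough_half (n : ℕ) : Rough (1 / 2) n ↔ n.Prime := by
  constructor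
  · rintro ⟨h1, h2⟩
    by_contra hn
    have h3 := Nat.minFac_sq_le_self (by omega) hn
    have h4 := h2 n.minFac (Nat.minFac_prime (by omega)) (Nat.minFac_dvd n)
    have h5 : ((n.minFac : ℝ)) ≤ (n : ℝ) ^ (1 / 2 : ℝ) := by
      rw [← Real.sqrt_eq_rpow]
      apply Real.le_sqrt_of_sq_le
      exact_mod_cast h3
    linarith
  · intro hn
    refine ⟨hn.one_lt, ?_⟩
    intro p hp hd
    have h1 : p = n := (Nat.prime_dvd_prime_iff_eq hp hn).mp hd
    rw [h1]
    have h2 : (1 : ℝ) < n := by exact_mod_cast hn.one_lt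
    calc (n : ℝ) ^ (1 / 2 : ℝ) < (n : ℝ) ^ (1 : ℝ) :=
          Real.rpow_lt_rpow_of_exponent_lt h2 (by norm_num)
      _ = n := Real.rpow_one _

lemma rough_infinite {c : ℝ} (hc : c < 1) : (setOf (Rough c)).Infinite := by
  apply Nat.infinite_setOfPred_prime.mono
  intro n hn
  have hn' : n.Prime := hn
  refine ⟨hn'.one_lt, ?_⟩
  intro p hp hd
  have h1 : p = n := (Nat.prime_dvd_prime_iff_eq hp hn').mp hd
  rw [h1]
  have h2 : (1 : ℝ) < n := by exact_mod_cast hn'.one_lt
  calc (n : ℝ) ^ c < (n : ℝ) ^ (1 : ℝ) :=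
        Real.rpow_lt_rpow_of_exponent_lt h2 hc
    _ = n := Real.rpow_one _

lemma count_const (r : ℕ → Prop) [DecidablePred r] (a b : ℕ) (hab : a ≤ b)
    (h : ∀ x, a ≤ x → x < b → ¬ r x) : Nat.count r b = Nat.count r a := by
  induction b, hab using Nat.le_induction with
  | base => rfl
  | succ b hb ih =>
    rw [Nat.count_succ, if_neg (h b hb (Nat.lt_succ_self b)), add_zero]
    exact ih (fun x hx hx' => h x hx (by omega))

/-- consecutive elements of `r` -/
lemma nth_consecutive (r : ℕ → Prop) [DecidablePred r] (f : ℕ → ℕ) (m : ℕ)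
    (hf : ∀ j < m, f j < f (j + 1)) (hr : ∀ j ≤ m, r (f j))
    (hgap : ∀ j < m, ∀ x, f j < x → x < f (j + 1) → ¬ r x) :
    ∀ j ≤ m, Nat.nth r (Nat.count r (f 0) + j) = f j := by
  have h1 : ∀ j ≤ m, Nat.count r (f j) = Nat.count r (f 0) + j := by
    intro j
    induction j with
    | zero => intro _; rfl
    | succ j ih =>
      intro hj
      have h2 := count_const r (f j + 1) (f (j + 1)) (hf j (by omega))
        (fun x hx hx' => hgap j (by omega) x (by omega) hx')
      rw [h2, Nat.count_succ, if_pos (hr j (by omega)), ih (by omega)]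
      ring
  intro j hj
  rw [← h1 j hj]
  exact Nat.nth_count (hr j hj)

/-- partial sums of a gap vector -/
def cum {m : ℕ} (t : Fin m → ℕ) (i : ℕ) : ℕ := ∑ j ∈ range i, (if h : j < m then t ⟨j, h⟩ else 0)

lemma cum_succ {m : ℕ} (t : Fin m → ℕ) {i : ℕ} (hi : i < m) : cum t (i + 1) = cum t i + t ⟨i, hi⟩ := by
  unfold cum
  rw [Finset.sum_range_succ, dif_pos hi]

lemma cum_zero {m : ℕ} (t : Fin m → ℕ) : cum t 0 = 0 := by simp [cum]

lemma cum_strict {m : ℕ} (t : Fin m → ℕ) (ht : ∀ j, 1 ≤ t j) {i j : ℕ} (hij : i < j) (hj : j ≤ m) :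
    cum t i < cum t j := by
  induction j, hij using Nat.le_induction with
  | base =>
    rw [cum_succ t (by omega)]
    have := ht ⟨i, by omega⟩
    omega
  | succ j hij ih =>
    rw [cum_succ t (by omega)]
    have := ih (by omega)
    omega

lemma cum_le {m Y : ℕ} (t : Fin m → ℕ) (ht : ∀ j, t j ≤ Y) {i : ℕ} (hi : i ≤ m) :
    cum t i ≤ m * Y := by
  unfold cum
  calc ∑ j ∈ range i, (if h : j < m then t ⟨j, h⟩ else 0) ≤ ∑ _j ∈ range i, Y := by
        apply Finset.sum_le_sum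
        intro j _
        split_ifs
        · exact ht _
        · exact Nat.zero_le _
    _ = i * Y := by rw [Finset.sum_const, card_range, smul_eq_mul]
    _ ≤ m * Y := Nat.mul_le_mul_right _ hi

/-- the set of shifts of a gap vector -/
def shifts {m : ℕ} (q : ℕ) (t : Fin m → ℕ) : Finset ℕ := (range (m + 1)).image (fun i => q * cum t i)

lemma card_shifts {m q : ℕ} (hq : 0 < q) (t : Fin m → ℕ) (ht : ∀ j, 1 ≤ t j) :
    #(shifts q t) = m + 1 := by
  unfold shifts
  rw [Finset.card_image_of_injOn, card_range]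
  intro i hi j hj h
  rw [Finset.mem_coe, mem_range] at hi hj
  simp only at h
  have h1 : cum t i = cum t j := Nat.eq_of_mul_eq_mul_left hq h
  rcases lt_trichotomy i j with h2 | h2 | h2
  · have := cum_strict t ht h2 (by omega); omega
  · exact h2
  · have := cum_strict t ht h2 (by omega); omega

/-- A good window gives a balanced element. -/
lemma balanced_of_good {c : ℝ} (hc0 : 0 < c) {k q w X T Y n A B : ℕ} (hk : 1 ≤ k) (hq : 0 < q)
    (hA : A = X) (hB : B + w ≤ 2 * X) (hw : q * (2 * k * Y) ≤ w)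
    (hT : (2 * (X : ℝ)) ^ c < T + 1) (hT' : (Nat.sqrt T : ℝ) ≤ (X : ℝ) ^ c)
    (t : Fin (2 * k) → ℕ) (ht : t ∈ box (fun j : Fin (2 * k) => cc k j) Y 0)
    (hn : n ∈ Mset A B T (shifts q t) \ Zset A B T (Nat.sqrt T) w (shifts q t)) :
    ∃ i0 : ℕ, (∀ j ≤ 2 * k, Nat.nth (Rough c) (i0 + j) = n + q * cum t j) ∧
      ∑ i ∈ Icc 1 k, (Nat.nth (Rough c) (i0 + k - i) + Nat.nth (Rough c) (i0 + k + i))
        = 2 * k * Nat.nth (Rough c) (i0 + k) := by
  classical
  obtain ⟨ht1, ht2⟩ := mem_filter.mp ht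
  have htj : ∀ j, 1 ≤ t j ∧ t j ≤ Y := fun j => mem_Icc.mp (Fintype.mem_piFinset.mp ht1 j)
  obtain ⟨hn1, hn2⟩ := mem_sdiff.mp hn
  obtain ⟨hn3, hn4⟩ := mem_filter.mp hn1
  have hnAB := mem_Ioc.mp hn3
  have hcumw : ∀ j ≤ 2 * k, q * cum t j ≤ w := fun j hj =>
    (Nat.mul_le_mul_left q (cum_le t (fun j => (htj j).2) hj)).trans hw
  have hX0 : (0 : ℝ) ≤ X := Nat.cast_nonneg X
  have hmem : ∀ j ≤ 2 * k, q * cum t j ∈ shifts q t := fun j hj => by
    unfold shifts
    rw [mem_image]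
    exact ⟨j, mem_range.mpr (by omega), rfl⟩
  -- the elements are rough
  have hr : ∀ j ≤ 2 * k, Rough c (n + q * cum t j) := by
    intro j hj
    have h1 := hcumw j hj
    have hge : 2 ≤ n + q * cum t j := by
      by_contra hcon
      have h2 : n = 1 ∧ q * cum t j = 0 := by omega
      -- then X = 0, impossible as n ≤ B ≤ 2 X
      omega
    refine ⟨by omega, ?_⟩
    intro p hp hd
    by_contra hcon
    push Not at hcon
    have h2 : (p : ℝ) < T + 1 := by
      refine lt_of_le_of_lt hcon (lt_of_le_of_lt ?_ hT)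
      apply Real.rpow_le_rpow (Nat.cast_nonneg _) _ hc0.le
      have : n + q * cum t j ≤ 2 * X := by omega
      exact_mod_cast this
    have h3 : p ≤ T := by
      have : p < T + 1 := by exact_mod_cast h2
      omega
    exact hn4 _ (hmem j hj) p (mem_prI.mpr ⟨⟨hp.pos, h3⟩, hp⟩) hd
  -- no further rough numbers
  have hno : ∀ x, n < x → x ≤ n + w → Rough c x → ∃ j ≤ 2 * k, x = n + q * cum t j := by
    intro x hx1 hx2 hx3
    by_contra hcon
    push Not at hcon
    apply hn2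
    unfold Zset
    rw [mem_filter]
    refine ⟨hn1, x - n, mem_Icc.mpr ⟨by omega, by omega⟩, ?_, ?_⟩
    · intro hS
      unfold shifts at hS
      obtain ⟨j, hj, hj'⟩ := mem_image.mp hS
      exact hcon j (by have := mem_range.mp hj; omega) (by omega)
    · intro p hp hd
      have e : n + (x - n) = x := by omega
      rw [e] at hd
      have hp' := mem_prI.mp hp
      have h1 := hx3.2 p hp'.2 hd
      have h2 : (p : ℝ) ≤ (x : ℝ) ^ c := by
        calc (p : ℝ) ≤ (Nat.sqrt T : ℝ) := by exact_mod_cast hp'.1.2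
          _ ≤ (X : ℝ) ^ c := hT'
          _ ≤ (x : ℝ) ^ c := by
              apply Real.rpow_le_rpow hX0 _ hc0.le
              exact_mod_cast (by omega : X ≤ x)
      linarith
  set f : ℕ → ℕ := fun j => n + q * cum t j with hf
  have hfs : ∀ j < 2 * k, f j < f (j + 1) := by
    intro j hj
    rw [hf]
    simp only
    have h1 := cum_strict t (fun j => (htj j).1) (Nat.lt_succ_self j) (by omega : j + 1 ≤ 2 * k)
    have := Nat.mul_lt_mul_of_pos_left h1 hq
    have h2 : q * cum t j < q * cum t (j + 1) := this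
    omega
  have hcon := nth_consecutive (Rough c) f (2 * k) hfs hr (by
    intro j hj x hx1 hx2 hx3
    have h1 := hcumw (j + 1) (by omega)
    have hx2' : x < n + q * cum t (j + 1) := hx2
    have hx1' : n + q * cum t j < x := hx1
    obtain ⟨i, hi, hxi⟩ := hno x (by omega) (by omega) hx3
    rcases le_or_gt i j with h2 | h2
    · have h3 : cum t i ≤ cum t j := by
        rcases eq_or_lt_of_le h2 with rfl | h3
        · exact le_rfl
        · exact (cum_strict t (fun j => (htj j).1) h3 (by omega)).le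
      have := Nat.mul_le_mul_left q h3
      omega
    · have h3 : cum t (j + 1) ≤ cum t i := by
        rcases eq_or_lt_of_le (show j + 1 ≤ i from h2) with h4 | h3
        · rw [h4]
        · exact (cum_strict t (fun j => (htj j).1) h3 (by omega)).le
      have := Nat.mul_le_mul_left q h3
      omega)
  refine ⟨Nat.count (Rough c) (f 0), hcon, ?_⟩
  set i0 := Nat.count (Rough c) (f 0) with hi0
  have himb := imb_eq (fun i => (Nat.nth (Rough c) i : ℤ)) k i0
  have hz : ∑ j ∈ range (2 * k), cc k j *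
      ((Nat.nth (Rough c) (i0 + j + 1) : ℤ) - (Nat.nth (Rough c) (i0 + j) : ℤ)) = 0 := by
    have h1 : ∑ j ∈ range (2 * k), cc k j *
        ((Nat.nth (Rough c) (i0 + j + 1) : ℤ) - (Nat.nth (Rough c) (i0 + j) : ℤ))
        = ∑ j : Fin (2 * k), (q : ℤ) * (cc k j * (t j : ℤ)) := by
      rw [Finset.sum_range]
      apply Finset.sum_congr rfl
      intro j _
      have h2 := hcon (j + 1) (by have := j.isLt; omega)
      have h3 := hcon j (by have := j.isLt; omega)
      rw [add_assoc, h2, h3, hf]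
      simp only
      rw [cum_succ t j.isLt]
      push_cast
      ring
    rw [h1, ← Finset.mul_sum, ht2, mul_zero]
  rw [hz] at himb
  have h1 : ∑ i ∈ Icc 1 k, ((Nat.nth (Rough c) (i0 + k - i) : ℤ) + (Nat.nth (Rough c) (i0 + k + i) : ℤ))
      = 2 * k * (Nat.nth (Rough c) (i0 + k) : ℤ) := by
    have h2 : ∑ i ∈ Icc 1 k, ((Nat.nth (Rough c) (i0 + k - i) : ℤ) + (Nat.nth (Rough c) (i0 + k + i) : ℤ))
        = ∑ i ∈ Icc 1 k, ((Nat.nth (Rough c) (i0 + k + i) : ℤ) + (Nat.nth (Rough c) (i0 + k - i) : ℤ)) := by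
      apply Finset.sum_congr rfl
      intro i _
      ring
    rw [h2]
    linarith
  exact_mod_cast h1

/-- the indices of the balanced elements in `(X, 2X]` -/
def balR (c : ℝ) (k X : ℕ) : Set ℕ :=
  {i | k ≤ i ∧ X < Nat.nth (Rough c) i ∧ Nat.nth (Rough c) i ≤ 2 * X ∧
    ∑ j ∈ Icc 1 k, (Nat.nth (Rough c) (i - j) + Nat.nth (Rough c) (i + j))
      = 2 * k * Nat.nth (Rough c) i}

lemma balR_finite {c : ℝ} (hc : c < 1) (k X : ℕ) : (balR c k X).Finite := by
  apply (Set.finite_Iic (2 * X)).subset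
  intro i hi
  have h1 : i ≤ Nat.nth (Rough c) i := Nat.le_nth (fun hf => absurd hf (rough_infinite hc))
  exact h1.trans hi.2.2.1

theorem rough_main (k : ℕ) (hk : 1 ≤ k) : ∃ c₀ δ : ℝ, 0 < c₀ ∧ 0 < δ ∧ c₀ ≤ 1 / 2 ∧
    ∀ c : ℝ, 0 < c → c ≤ c₀ → ∃ X₀ : ℕ, ∀ X : ℕ, X₀ ≤ X →
      δ * X / (c * Real.log X) ^ 2 ≤ ((balR c k X).ncard : ℝ) := by
  classical
  obtain ⟨c1, θ, e, T0, hc1, hθ0, hθ1, hT02, hgood⟩ := tuple_good (2 * k + 1)
  set u : ℕ := 2 * (2 * k + 1) + 2 with hu
  set q : ℕ := u.factorial with hq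
  have hq0 : 0 < q := Nat.factorial_pos u
  have hk0 : (1 : ℝ) ≤ k := by exact_mod_cast hk
  have hqR : (1 : ℝ) ≤ q := by exact_mod_cast hq0
  set a : ℝ := θ / (8 * q * k) with ha
  have ha0 : 0 < a := by positivity
  set c₀ : ℝ := 1 / (2 * e + 2) with hc₀
  have he0 : (0 : ℝ) ≤ e := Nat.cast_nonneg e
  refine ⟨c₀, c1 * a ^ (2 * k - 1) / (24 * k ^ 2), by positivity, by positivity, ?_, ?_⟩
  · rw [hc₀]
    apply one_div_le_one_div_of_le (by norm_num)
    linarith
  intro c hc0 hcc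
  have hc12 : c ≤ 1 / 2 := hcc.trans (by
    rw [hc₀]
    apply one_div_le_one_div_of_le (by norm_num)
    linarith)
  -- the size of T
  set Tf : ℕ → ℕ := fun X => ⌊(2 * (X : ℝ)) ^ c⌋₊ with hTf
  have hTlim : Filter.Tendsto (fun X : ℕ => (2 * (X : ℝ)) ^ c) Filter.atTop Filter.atTop :=
    (tendsto_rpow_atTop hc0).comp
      (Filter.Tendsto.const_mul_atTop (by norm_num) tendsto_natCast_atTop_atTop)
  have hlarge : ∀ᶠ X : ℕ in Filter.atTop,
      max ((T0 : ℝ) + 1) (Real.exp ((u + 16 * q * k : ℝ) / θ) + 1) ≤ (2 * (X : ℝ)) ^ c :=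
    hTlim.eventually_ge_atTop _
  obtain ⟨X1, hX1⟩ := Filter.eventually_atTop.mp hlarge
  refine ⟨max X1 100, ?_⟩
  intro X hX
  have hXX1 : X1 ≤ X := (le_max_left _ _).trans hX
  have hX100 : 100 ≤ X := (le_max_right _ _).trans hX
  have hXR : (100 : ℝ) ≤ X := by exact_mod_cast hX100
  have hbig := hX1 X hXX1
  set T : ℕ := Tf X with hT
  have hT1 : (T : ℝ) ≤ (2 * (X : ℝ)) ^ c := Nat.floor_le (by positivity)
  have hT2 : (2 * (X : ℝ)) ^ c < T + 1 := Nat.lt_floor_add_one _
  have hTT0 : T0 ≤ T := by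
    have h1 : (T0 : ℝ) + 1 < T + 1 := lt_of_le_of_lt ((le_max_left _ _).trans hbig) hT2
    have h2 : (T0 : ℝ) < T := by linarith
    exact_mod_cast h2.le
  have hTexp : Real.exp ((u + 16 * q * k : ℝ) / θ) ≤ T := by
    have h1 := lt_of_le_of_lt ((le_max_right _ _).trans hbig) hT2
    linarith
  have hTpos : (0 : ℝ) < T := lt_of_lt_of_le (Real.exp_pos _) hTexp
  set L : ℝ := Real.log T with hL
  have hLbig : (u + 16 * q * k : ℝ) ≤ θ * L := by
    have h1 : (u + 16 * q * k : ℝ) / θ ≤ L := by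
      rw [hL, Real.le_log_iff_exp_le hTpos]; exact hTexp
    rw [div_le_iff₀ hθ0] at h1
    linarith
  set w : ℕ := ⌊θ * L⌋₊ with hw
  have hθL0 : 0 ≤ θ * L := le_trans (by positivity) hLbig
  have hw1 : (w : ℝ) ≤ θ * L := Nat.floor_le hθL0
  have hw2 : θ * L < w + 1 := Nat.lt_floor_add_one _
  have hwu : u + 16 * q * k ≤ w := by
    rw [hw]
    apply Nat.le_floor
    push_cast
    exact hLbig
  set Y : ℕ := w / (2 * q * k) with hY
  have hqk : 0 < 2 * q * k := by positivity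
  have hYw : q * (2 * k * Y) ≤ w := by
    have := Nat.div_mul_le_self w (2 * q * k)
    calc q * (2 * k * Y) = w / (2 * q * k) * (2 * q * k) := by rw [hY]; ring
      _ ≤ w := this
  have hYge : a * L ≤ Y := by
    have h1 : w < (Y + 1) * (2 * q * k) := by
      rw [hY]
      have := Nat.lt_div_mul_add (a := w) hqk
      nlinarith
    have h2 : (w : ℝ) + 1 ≤ (Y + 1) * (2 * q * k) := by exact_mod_cast h1
    have h3 : 8 ≤ Y := by
      rw [hY, Nat.le_div_iff_mul_le hqk]
      nlinarith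
    have h3' : (8 : ℝ) ≤ Y := by exact_mod_cast h3
    have h4 : θ * L ≤ (2 * Y) * (2 * q * k) := by
      refine (hw2.le.trans h2).trans ?_
      apply mul_le_mul_of_nonneg_right _ (by positivity)
      linarith
    rw [ha, div_mul_eq_mul_div, div_le_iff₀ (by positivity)]
    nlinarith
  have hY1 : 1 ≤ Y := by
    rw [hY, Nat.le_div_iff_mul_le hqk]
    nlinarith
  -- w is small compared with X
  have hlogX : 0 < Real.log X := Real.log_pos (by linarith)
  have hlog2X : Real.log (2 * X) ≤ 2 * Real.log X := by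
    rw [Real.log_mul (by norm_num) (by linarith)]
    have : Real.log 2 ≤ Real.log X := Real.log_le_log (by norm_num) (by linarith)
    linarith
  have hLX : L ≤ 2 * (c * Real.log X) := by
    have h1 : L ≤ Real.log ((2 * (X : ℝ)) ^ c) := Real.log_le_log hTpos hT1
    rw [Real.log_rpow (by linarith)] at h1
    nlinarith
  have hL0 : 0 < L := by
    have : (0 : ℝ) < u + 16 * q * k := by positivity
    by_contra hcon
    push Not at hcon
    nlinarith
  have hwX : 4 * w ≤ X := by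
    have h1 : (w : ℝ) ≤ L := hw1.trans (by nlinarith)
    have h2 : L ≤ Real.log X := by nlinarith
    have h3 : Real.log X ≤ 4 * (√(√(X : ℝ)) - 1) := by
      set s : ℝ := √(√(X : ℝ)) with hs
      have hx1 : 0 < √(X : ℝ) := Real.sqrt_pos.mpr (by linarith)
      have hs0 : 0 < s := Real.sqrt_pos.mpr hx1
      have e1 : s ^ 2 = √(X : ℝ) := Real.sq_sqrt hx1.le
      have e2 : (√(X : ℝ)) ^ 2 = X := Real.sq_sqrt (by linarith)
      have e3 : Real.log X = 4 * Real.log s := by
        rw [← e2, Real.log_pow, ← e1, Real.log_pow]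
        push_cast; ring
      have e4 := Real.log_le_sub_one_of_pos hs0
      rw [e3]; linarith
    have h4 : 16 * (√(√(X : ℝ)) - 1) ≤ X := by
      set s : ℝ := √(√(X : ℝ)) with hs
      have hx1 : 0 < √(X : ℝ) := Real.sqrt_pos.mpr (by linarith)
      have hs0 : 0 < s := Real.sqrt_pos.mpr hx1
      have e1 : s ^ 2 = √(X : ℝ) := Real.sq_sqrt hx1.le
      have e2 : (√(X : ℝ)) ^ 2 = X := Real.sq_sqrt (by linarith)
      have e5 : s ^ 4 = X := by rw [← e2, ← e1]; ring
      rw [← e5]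
      have e6 : 3 ≤ s := by
        by_contra hcon
        push Not at hcon
        have : s ^ 4 < 3 ^ 4 := pow_lt_pow_left₀ hcon hs0.le (by norm_num)
        rw [e5] at this
        norm_num at this
        linarith
      nlinarith [pow_le_pow_left₀ (by norm_num : (0 : ℝ) ≤ 3) e6 3]
    have h5 : ((4 * w : ℕ) : ℝ) ≤ X := by push_cast; linarith
    exact_mod_cast h5
  set B : ℕ := X + X / 2 with hB
  have hBw : B + w ≤ 2 * X := by omega
  have hXB : X ≤ B := by omega
  have hBA : (X : ℝ) / 3 ≤ (B : ℝ) - X := by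
    have h1 : X ≤ 3 * (X / 2) := by omega
    have h2 : (X : ℝ) ≤ 3 * ((X / 2 : ℕ) : ℝ) := by exact_mod_cast h1
    rw [hB]; push_cast
    linarith
  have hTe : (T : ℝ) ^ e ≤ (B : ℝ) - X := by
    refine le_trans ?_ hBA
    have h1 : (T : ℝ) ^ e ≤ ((2 * (X : ℝ)) ^ c) ^ e := pow_le_pow_left₀ hTpos.le hT1 e
    have h2 : ((2 * (X : ℝ)) ^ c) ^ e = (2 * (X : ℝ)) ^ (c * e) := by
      rw [← Real.rpow_natCast, ← Real.rpow_mul (by linarith)]
    have h3 : c * e ≤ 1 / 2 := by
      have h4 : c * e ≤ c₀ * e := mul_le_mul_of_nonneg_right hcc he0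
      have h5 : c₀ * e ≤ 1 / 2 := by
        rw [hc₀, div_mul_eq_mul_div, div_le_div_iff₀ (by positivity) (by norm_num)]
        linarith
      linarith
    have h4 : (2 * (X : ℝ)) ^ (c * e) ≤ (2 * (X : ℝ)) ^ (1 / 2 : ℝ) :=
      Real.rpow_le_rpow_of_exponent_le (by linarith) h3
    have h5 : (2 * (X : ℝ)) ^ (1 / 2 : ℝ) ≤ X / 3 := by
      rw [← Real.sqrt_eq_rpow]
      apply Real.sqrt_le_iff.mpr
      constructor
      · positivity
      · nlinarith
    rw [h2] at h1
    linarith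
  have hsqT : (Nat.sqrt T : ℝ) ≤ (X : ℝ) ^ c := by
    have h1 : ((Nat.sqrt T : ℕ) : ℝ) ^ 2 ≤ T := by
      have := Nat.sqrt_le' T
      exact_mod_cast this
    have h2 : (T : ℝ) ≤ ((X : ℝ) ^ c) ^ 2 := by
      refine hT1.trans ?_
      rw [← Real.rpow_natCast, ← Real.rpow_mul (by linarith), mul_comm c, Real.rpow_mul (by linarith)]
      apply Real.rpow_le_rpow (by linarith) _ hc0.le
      push_cast
      rw [Real.rpow_two]
      nlinarith
    have h3 : (0 : ℝ) < (X : ℝ) ^ c := Real.rpow_pos_of_pos (by linarith) _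
    exact (pow_le_pow_iff_left₀ (Nat.cast_nonneg _) h3.le (by norm_num)).mp (h1.trans h2)
  -- the good pairs
  set Bx := box (fun j : Fin (2 * k) => cc k j) Y 0 with hBx
  set Gd : (Fin (2 * k) → ℕ) → Finset ℕ := fun t =>
    Mset X B T (shifts q t) \ Zset X B T (Nat.sqrt T) w (shifts q t) with hGd
  have htj : ∀ t ∈ Bx, ∀ j, 1 ≤ t j ∧ t j ≤ Y := fun t ht j =>
    mem_Icc.mp (Fintype.mem_piFinset.mp (mem_filter.mp ht).1 j)
  have hGdc : ∀ t ∈ Bx, c1 * (((B : ℝ) - X) / L ^ (2 * k + 1)) ≤ #(Gd t) := by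
    intro t ht
    apply hgood T hTT0 w X B (shifts q t) (by omega) hw1 hXB hTe
      (card_shifts hq0 t (fun j => (htj t ht j).1))
    · intro h hh
      obtain ⟨j, hj, rfl⟩ := mem_image.mp hh
      have := mem_range.mp hj
      exact (Nat.mul_le_mul_left q (cum_le t (fun j => (htj t ht j).2) (by omega))).trans hYw
    · intro h hh
      obtain ⟨j, _, rfl⟩ := mem_image.mp hh
      exact Dvd.intro _ rfl
  -- the injection
  have hex : ∀ z : (t : Fin (2 * k) → ℕ) × ℕ, z ∈ Bx.sigma Gd →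
      ∃ i0 : ℕ, (∀ j ≤ 2 * k, Nat.nth (Rough c) (i0 + j) = z.2 + q * cum z.1 j) ∧
        ∑ i ∈ Icc 1 k, (Nat.nth (Rough c) (i0 + k - i) + Nat.nth (Rough c) (i0 + k + i))
          = 2 * k * Nat.nth (Rough c) (i0 + k) := by
    rintro ⟨t, n⟩ hz
    rw [Finset.mem_sigma] at hz
    exact balanced_of_good hc0 hk hq0 rfl hBw hYw hT2 hsqT t hz.1 hz.2
  have hcard : (#(Bx.sigma Gd) : ℕ) ≤ (balR c k X).ncard := by
    choose! g hg using hex
    rw [← Set.ncard_coe_finset]
    refine Set.ncard_le_ncard_of_injOn (fun z => g z + k) ?_ ?_ (balR_finite (by linarith) k X)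
    · intro z hz
      have hz' : z ∈ Bx.sigma Gd := hz
      obtain ⟨h1, h2⟩ := hg z hz'
      rw [Finset.mem_sigma] at hz'
      have h3 := h1 k (by omega)
      have h4 := mem_Ioc.mp (mem_filter.mp (mem_sdiff.mp hz'.2).1).1
      have h5 : q * cum z.1 k ≤ w :=
        (Nat.mul_le_mul_left q (cum_le z.1 (fun j => (htj z.1 hz'.1 j).2) (by omega))).trans hYw
      refine ⟨by simp, ?_, ?_, h2⟩
      · rw [h3]; omega
      · rw [h3]; omega
    · intro z hz z' hz' h
      have hz1 : z ∈ Bx.sigma Gd := hz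
      have hz2 : z' ∈ Bx.sigma Gd := hz'
      obtain ⟨h1, _⟩ := hg z hz1
      obtain ⟨h2, _⟩ := hg z' hz2
      have h3 : g z = g z' := by simpa using h
      rw [← h3] at h2
      have h4 : z.2 = z'.2 := by
        have a1 := h1 0 (by omega)
        have a2 := h2 0 (by omega)
        rw [a1, cum_zero, cum_zero] at a2
        omega
      have h5 : ∀ j ≤ 2 * k, cum z.1 j = cum z'.1 j := by
        intro j hj
        have a1 := h1 j hj
        have a2 := h2 j hj
        rw [a1, h4] at a2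
        have a3 : q * cum z.1 j = q * cum z'.1 j := by omega
        exact Nat.eq_of_mul_eq_mul_left hq0 a3
      have h6 : z.1 = z'.1 := by
        funext j
        have a1 := h5 j (by have := j.isLt; omega)
        have a2 := h5 (j + 1) (by have := j.isLt; omega)
        rw [cum_succ z.1 j.isLt, cum_succ z'.1 j.isLt] at a2
        simp only [Fin.eta] at a2
        omega
      obtain ⟨t, n⟩ := z
      obtain ⟨t', n'⟩ := z'
      simp only at h4 h6
      rw [h4, h6]
  have hsig : (#Bx : ℝ) * (c1 * (((B : ℝ) - X) / L ^ (2 * k + 1))) ≤ ((balR c k X).ncard : ℝ) := by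
    have h1 : (#Bx : ℝ) * (c1 * (((B : ℝ) - X) / L ^ (2 * k + 1))) ≤ (#(Bx.sigma Gd) : ℝ) := by
      rw [Finset.card_sigma]
      push_cast
      have := Finset.sum_le_sum hGdc
      rwa [Finset.sum_const, nsmul_eq_mul] at this
    exact h1.trans (by exact_mod_cast hcard)
  refine le_trans ?_ hsig
  have hbx := box_ge k hk Y hY1
  rw [← hBx] at hbx
  have h1 : (a * L) ^ (2 * k - 1) / (2 * (k : ℝ) ^ 2) ≤ #Bx := by
    rw [div_le_iff₀ (by positivity)]
    have h2 : (a * L) ^ (2 * k - 1) ≤ (Y : ℝ) ^ (2 * k - 1) :=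
      pow_le_pow_left₀ (by positivity) hYge _
    linarith
  have h2 : c1 * ((X / 3) / L ^ (2 * k + 1)) ≤ c1 * (((B : ℝ) - X) / L ^ (2 * k + 1)) := by
    apply mul_le_mul_of_nonneg_left _ hc1.le
    exact div_le_div_of_nonneg_right hBA (by positivity)
  have h3 : (a * L) ^ (2 * k - 1) / (2 * (k : ℝ) ^ 2) * (c1 * ((X / 3) / L ^ (2 * k + 1)))
      ≤ (#Bx : ℝ) * (c1 * (((B : ℝ) - X) / L ^ (2 * k + 1))) :=
    mul_le_mul h1 h2 (by positivity) (Nat.cast_nonneg _)
  refine le_trans ?_ h3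
  have h4 : (a * L) ^ (2 * k - 1) / (2 * (k : ℝ) ^ 2) * (c1 * ((X / 3) / L ^ (2 * k + 1)))
      = c1 * a ^ (2 * k - 1) / (6 * k ^ 2) * (X / L ^ 2) := by
    have e1 : L ^ (2 * k + 1) = L ^ (2 * k - 1) * L ^ 2 := by
      rw [← pow_add]; congr 1; omega
    rw [e1, mul_pow]
    field_simp
    norm_num
  rw [h4]
  have h5 : (X : ℝ) / (2 * (c * Real.log X)) ^ 2 ≤ X / L ^ 2 := by
    apply div_le_div_of_nonneg_left (by linarith) (by positivity)
    exact pow_le_pow_left₀ hL0.le hLX 2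
  calc c1 * a ^ (2 * k - 1) / (24 * k ^ 2) * X / (c * Real.log X) ^ 2
      = c1 * a ^ (2 * k - 1) / (6 * k ^ 2) * (X / (2 * (c * Real.log X)) ^ 2) := by
        rw [mul_pow]
        field_simp
        norm_num
    _ ≤ _ := mul_le_mul_of_nonneg_left h5 (by positivity)

end Pool.Agent.Lib.MP_b61f81_nt
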