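import Pool.Agent.Lib.MP_b61f81_nt.Win
import Pool.Agent.Lib.MP_b61f81_nt.Core

/-!
# Both signs of the imbalance have positive lower density
-/

set_option autoImplicit false

open Finset

namespace Pool.Agent.Lib.MP_b61f81_nt

open Pool.Agent.Lib.MP_bae66e_nt Pool.Agent.Lib.MP_bae66e_nt.LL

lemma primeCounting_nth (M : ℕ) : Nat.primeCounting (Nat.nth Nat.Prime M) = M + 1 := by
  have h1 := Nat.primeCounting'_nth_eq M
  unfold Nat.primeCounting
  unfold Nat.primeCounting' at *
  rw [Nat.count_succ, h1, if_pos (Nat.prime_nth_prime M)]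

lemma self_lt_nth (M : ℕ) : M < Nat.nth Nat.Prime M := by
  have h1 := Nat.le_nth (p := Nat.Prime) (n := M) (fun hf => absurd hf Nat.infinite_setOfPred_prime)
  rcases Nat.lt_or_ge M (Nat.nth Nat.Prime M) with h | h
  · exact h
  · exfalso
    have h2 : Nat.nth Nat.Prime M = M := le_antisymm h h1
    have h3 := Nat.primeCounting'_nth_eq M
    rw [h2] at h3
    unfold Nat.primeCounting' at h3
    have hM2 : 2 ≤ M := by
      have := (Nat.prime_nth_prime M).two_le
      omega
    have h4 : Nat.count Nat.Prime M < M := by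
      obtain ⟨t, rfl⟩ : ∃ t, M = 1 + t := ⟨M - 1, by omega⟩
      rw [Nat.count_add]
      have h5 := Nat.count_le (p := fun k => Nat.Prime (1 + k)) (n := t)
      have h6 : Nat.count Nat.Prime 1 = 0 := by
        rw [Nat.count_succ, Nat.count_zero, if_neg Nat.not_prime_zero]
      omega
    omega

lemma nth_prime_le (M : ℕ) (hM : 15 ≤ M) :
    (Nat.nth Nat.Prime M : ℝ) ≤ 20 * (M + 1) * Real.log (M + 1) := by
  set p := Nat.nth Nat.Prime M with hp
  have hpM : M < p := self_lt_nth M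
  have h1 := pi_lower p (by omega)
  rw [primeCounting_nth] at h1
  have hp0 : (16 : ℝ) ≤ p := by exact_mod_cast (by omega : 16 ≤ p)
  have hlogp : 0 < Real.log p := Real.log_pos (by linarith)
  push_cast at h1
  rw [div_le_iff₀ (by positivity)] at h1
  have h2 := log_le_two_sqrt (x := (p : ℝ)) (by linarith)
  have hM0 : (0 : ℝ) < (M : ℝ) + 1 := by positivity
  have hs : 0 < √(p : ℝ) := Real.sqrt_pos.mpr (by linarith)
  have hsq : √(p : ℝ) * √(p : ℝ) = p := Real.mul_self_sqrt (by linarith)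
  have h3 : √(p : ℝ) ≤ 8 * (M + 1) := by
    have : √(p : ℝ) * √(p : ℝ) ≤ 8 * (M + 1) * √(p : ℝ) := by
      rw [hsq]
      nlinarith
    exact le_of_mul_le_mul_right this hs
  have h4 : (p : ℝ) ≤ (8 * (M + 1)) ^ 2 := by
    rw [← hsq, sq]
    exact mul_le_mul h3 h3 hs.le (by positivity)
  have h5 : Real.log p ≤ 5 * Real.log (M + 1) := by
    have h6 := Real.log_le_log (by linarith) h4
    rw [Real.log_pow, Real.log_mul (by norm_num) hM0.ne'] at h6
    have h7 : Real.log 8 ≤ Real.log (M + 1) := by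
      apply Real.log_le_log (by norm_num)
      have : (15 : ℝ) ≤ M := by exact_mod_cast hM
      linarith
    have h8 : 0 ≤ Real.log ((M : ℝ) + 1) := Real.log_nonneg (by
      have : (0 : ℝ) ≤ M := Nat.cast_nonneg M
      linarith)
    push_cast at h6
    linarith
  have h9 : (M + 1 : ℝ) * (4 * Real.log p) ≤ (M + 1) * (4 * (5 * Real.log (M + 1))) := by
    apply mul_le_mul_of_nonneg_left _ hM0.le
    linarith
  linarith

lemma nth_prime_le' (m N : ℕ) (hN : m + 20 ≤ N) :
    (Nat.nth Nat.Prime (N + m) : ℝ) ≤ 120 * N * Real.log N := by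
  have h1 := nth_prime_le (N + m) (by omega)
  have hN0 : (20 : ℝ) ≤ N := by exact_mod_cast (by omega : 20 ≤ N)
  have h2 : ((N + m : ℕ) : ℝ) + 1 ≤ 2 * N := by
    have : ((N + m : ℕ) : ℝ) + 1 = ((N + m + 1 : ℕ) : ℝ) := by push_cast; ring
    rw [this]
    exact_mod_cast (by omega : N + m + 1 ≤ 2 * N)
  have h3 : Real.log (((N + m : ℕ) : ℝ) + 1) ≤ 2 * Real.log N := by
    have : Real.log (((N + m : ℕ) : ℝ) + 1) ≤ Real.log ((N : ℝ) ^ 2) := by
      apply Real.log_le_log (by positivity)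
      nlinarith
    rwa [Real.log_pow] at this
  have hlog : 0 ≤ Real.log (N : ℝ) := Real.log_nonneg (by linarith)
  have h0 : (0 : ℝ) < ((N + m : ℕ) : ℝ) + 1 := by positivity
  calc (Nat.nth Nat.Prime (N + m) : ℝ)
      ≤ 20 * (((N + m : ℕ) : ℝ) + 1) * Real.log (((N + m : ℕ) : ℝ) + 1) := h1
    _ ≤ 20 * (((N + m : ℕ) : ℝ) + 1) * (2 * Real.log N) :=
        mul_le_mul_of_nonneg_left h3 (by positivity)
    _ ≤ 20 * (2 * N) * (2 * Real.log N) := by
        apply mul_le_mul_of_nonneg_right _ (by positivity)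
        linarith
    _ ≤ 120 * N * Real.log N := by nlinarith [mul_nonneg (Nat.cast_nonneg (α := ℝ) N) hlog]

lemma sum_gp (M : ℕ) : ∑ i ∈ range M, gp i + Nat.nth Nat.Prime 0 = Nat.nth Nat.Prime M := by
  induction M with
  | zero => simp
  | succ M ih =>
    rw [Finset.sum_range_succ]
    unfold gp at *
    have := nth_lt M
    omega

lemma card_gap_mul_le (M T : ℕ) :
    #{i ∈ range M | T < gp i} * (T + 1) ≤ Nat.nth Nat.Prime M := by
  calc #{i ∈ range M | T < gp i} * (T + 1) = ∑ _i ∈ range M with T < gp _i, (T + 1) := by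
        rw [Finset.sum_const, smul_eq_mul]
    _ ≤ ∑ i ∈ range M with T < gp i, gp i := by
        apply Finset.sum_le_sum
        intro i hi
        exact (mem_filter.mp hi).2
    _ ≤ ∑ i ∈ range M, gp i := Finset.sum_le_sum_of_subset (Finset.filter_subset _ _)
    _ ≤ Nat.nth Nat.Prime M := by
        have := sum_gp M
        omega

lemma cc_abs_le (k j : ℕ) : |(cc k j : ℝ)| ≤ 2 * k := by
  have h1 : #({i ∈ Icc 1 k | k ≤ j ∧ j < k + i} : Finset ℕ) ≤ k := by
    refine (Finset.card_filter_le _ _).trans ?_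
    rw [Nat.card_Icc]; omega
  have h2 : #({i ∈ Icc 1 k | k ≤ j + i ∧ j < k} : Finset ℕ) ≤ k := by
    refine (Finset.card_filter_le _ _).trans ?_
    rw [Nat.card_Icc]; omega
  have h3 : |cc k j| ≤ 2 * k := by
    unfold cc
    rw [abs_le]
    constructor <;> omega
  exact_mod_cast h3

lemma sum_cc (k : ℕ) : ∑ j ∈ range (2 * k), cc k j = 0 := by
  have h := imb_eq (fun n => (n : ℤ)) k 0
  have h1 : ∑ i ∈ Icc 1 k, ((((0 + k + i : ℕ) : ℤ)) + ((0 + k - i : ℕ) : ℤ)) = 2 * k * k := by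
    have h2 : ∀ i ∈ Icc 1 k, ((((0 + k + i : ℕ) : ℤ)) + ((0 + k - i : ℕ) : ℤ)) = 2 * k := by
      intro i hi
      rw [mem_Icc] at hi
      omega
    rw [Finset.sum_congr rfl h2, Finset.sum_const, Nat.card_Icc]
    simp only [nsmul_eq_mul, add_tsub_cancel_right]
    ring
  rw [h1] at h
  have h3 : ∑ j ∈ range (2 * k), cc k j * (((0 + j + 1 : ℕ) : ℤ) - ((0 + j : ℕ) : ℤ))
      = ∑ j ∈ range (2 * k), cc k j := by
    apply Finset.sum_congr rfl
    intro j _
    push_cast
    ring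
  rw [h3] at h
  rw [← h]
  push_cast
  ring

/-- few windows have small imbalance: the hypothesis of `core` -/
theorem exists_good (k : ℕ) (hk : 1 ≤ k) : ∃ ε a : ℝ, 0 < ε ∧ 0 < a ∧ ∃ N1 : ℕ, ∀ N : ℕ, N1 ≤ N →
    ∃ T0 : ℕ, (T0 : ℝ) ≤ a * Real.log N ∧
      (N : ℝ) / 2 ≤ #{s ∈ range N | (∀ j < 2 * k, gp (s + j) ≤ T0) ∧
        ε * Real.log N < |(imb k (s + k) : ℝ)|} := by
  obtain ⟨C, hC, hwin⟩ := exists_window k hk
  have hk0 : (0 : ℝ) < k := by exact_mod_cast hk
  set a : ℝ := 960 * k with ha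
  have ha0 : 0 < a := by positivity
  set ε : ℝ := 1 / (1440 * C * a ^ (2 * k - 1)) with hε
  have hε0 : 0 < ε := by positivity
  refine ⟨ε, a, hε0, ha0, max (2 * k + 20) ⌈Real.exp (1 / ε)⌉₊, ?_⟩
  intro N hN
  have hN1 : 2 * k + 20 ≤ N := (le_max_left _ _).trans hN
  have hN2 : Real.exp (1 / ε) ≤ N :=
    (Nat.le_ceil _).trans (by exact_mod_cast (le_max_right _ _).trans hN)
  set ℓ : ℝ := Real.log N with hℓ
  have hN0 : (20 : ℝ) ≤ N := by exact_mod_cast (by omega : 20 ≤ N)
  have hℓε : 1 / ε ≤ ℓ := by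
    rw [hℓ, Real.le_log_iff_exp_le (by linarith)]
    exact hN2
  have hℓ0 : 0 < ℓ := lt_of_lt_of_le (by positivity) hℓε
  have h1ε : 1 ≤ ε * ℓ := by
    rw [div_le_iff₀ hε0] at hℓε
    linarith
  set T0 : ℕ := ⌊a * ℓ⌋₊ with hT0
  have hT0a : (T0 : ℝ) ≤ a * ℓ := Nat.floor_le (by positivity)
  have hT0b : a * ℓ < T0 + 1 := Nat.lt_floor_add_one _
  refine ⟨T0, hT0a, ?_⟩
  set V : ℕ := ⌊ε * ℓ⌋₊ with hV
  have hVa : (V : ℝ) ≤ ε * ℓ := Nat.floor_le (by positivity)
  have hVb : ε * ℓ < V + 1 := Nat.lt_floor_add_one _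
  set G : Finset ℕ := {s ∈ range N | (∀ j < 2 * k, gp (s + j) ≤ T0) ∧
        ε * ℓ < |(imb k (s + k) : ℝ)|} with hG
  set B1 : Finset ℕ := {s ∈ range N | ∃ j < 2 * k, T0 < gp (s + j)} with hB1
  set B2 : Finset ℕ := {s ∈ range N | (∀ j < 2 * k, gp (s + j) ≤ T0) ∧
        |imb k (s + k)| ≤ V} with hB2
  have hcover : range N ⊆ G ∪ (B1 ∪ B2) := by
    intro s hs
    rw [mem_union, mem_union]
    by_cases h1 : ∃ j < 2 * k, T0 < gp (s + j)
    · right; left; exact mem_filter.mpr ⟨hs, h1⟩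
    · push Not at h1
      by_cases h2 : |imb k (s + k)| ≤ V
      · right; right; exact mem_filter.mpr ⟨hs, h1, h2⟩
      · left
        refine mem_filter.mpr ⟨hs, h1, ?_⟩
        push Not at h2
        have h3 : (V : ℤ) + 1 ≤ |imb k (s + k)| := h2
        have h4 : ((V : ℝ) + 1) ≤ |(imb k (s + k) : ℝ)| := by exact_mod_cast h3
        linarith
  have hcard : (N : ℝ) ≤ #G + (#B1 + #B2) := by
    have h1 := Finset.card_le_card hcover
    rw [card_range] at h1
    have h2 := h1.trans ((Finset.card_union_le _ _).trans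
      (Nat.add_le_add_left (Finset.card_union_le _ _) _))
    exact_mod_cast h2
  -- B1
  have hPN := nth_prime_le' (2 * k) N hN1
  have hB1c : (#B1 : ℝ) ≤ N / 4 := by
    have h1 : #B1 ≤ 2 * k * #{i ∈ range (N + 2 * k) | T0 < gp i} := by
      have h1 : B1 ⊆ (range (2 * k)).biUnion (fun j => {s ∈ range N | T0 < gp (s + j)}) := by
        intro s hs
        have hs' := mem_filter.mp hs
        obtain ⟨j, hj, h⟩ := hs'.2
        rw [mem_biUnion]
        exact ⟨j, mem_range.mpr hj, mem_filter.mpr ⟨hs'.1, h⟩⟩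
      have h2 : #B1 ≤ ∑ j ∈ range (2 * k), #{s ∈ range N | T0 < gp (s + j)} :=
        (Finset.card_le_card h1).trans Finset.card_biUnion_le
      have h3 : ∀ j ∈ range (2 * k), #{s ∈ range N | T0 < gp (s + j)}
          ≤ #{n ∈ range (N + 2 * k) | T0 < gp n} := by
        intro j hj
        rw [mem_range] at hj
        apply Finset.card_le_card_of_injOn (fun s => s + j)
        · intro s hs
          have hs' := mem_filter.mp hs
          rw [Finset.mem_coe, mem_filter, mem_range]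
          have := mem_range.mp hs'.1
          exact ⟨add_lt_add this hj, hs'.2⟩
        · intro s _ s' _ h
          simpa using h
      have h4 := h2.trans (Finset.sum_le_sum h3)
      rwa [Finset.sum_const, card_range, smul_eq_mul] at h4
    have h2 := card_gap_mul_le (N + 2 * k) T0
    have h3 : (#{i ∈ range (N + 2 * k) | T0 < gp i} : ℝ) * (T0 + 1)
        ≤ 120 * N * ℓ := by
      refine le_trans ?_ hPN
      exact_mod_cast h2
    have h4 : (#{i ∈ range (N + 2 * k) | T0 < gp i} : ℝ) ≤ 120 * N / a := by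
      have h5 : (#{i ∈ range (N + 2 * k) | T0 < gp i} : ℝ) * (a * ℓ) ≤ 120 * N * ℓ := by
        refine le_trans ?_ h3
        exact mul_le_mul_of_nonneg_left hT0b.le (Nat.cast_nonneg _)
      rw [le_div_iff₀ ha0]
      have h6 : (#{i ∈ range (N + 2 * k) | T0 < gp i} : ℝ) * a * ℓ ≤ 120 * N * ℓ := by
        linarith
      exact le_of_mul_le_mul_right h6 hℓ0
    have h5 : (#B1 : ℝ) ≤ 2 * k * (#{i ∈ range (N + 2 * k) | T0 < gp i} : ℝ) := by
      exact_mod_cast h1
    calc (#B1 : ℝ) ≤ 2 * k * (120 * N / a) := h5.trans (mul_le_mul_of_nonneg_left h4 (by positivity))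
      _ = N / 4 := by rw [ha]; field_simp; norm_num
  -- B2
  set X : ℕ := Nat.nth Nat.Prime N with hX
  have hXN : N < X := self_lt_nth N
  have hXle : (X : ℝ) ≤ 120 * N * ℓ := by
    have := nth_prime_le' 0 N (by omega)
    rwa [add_zero] at this
  have hlogX : ℓ ≤ Real.log X := by
    apply Real.log_le_log (by linarith)
    exact_mod_cast hXN.le
  have hB2c : (#B2 : ℝ) ≤ N / 4 := by
    have h1 : ∀ s ∈ B2, imb k (s + k) ∈ Icc (-(V : ℤ)) V := by
      intro s hs
      have := (mem_filter.mp hs).2.2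
      rw [mem_Icc]
      exact abs_le.mp this
    have h2 := Finset.card_eq_sum_card_fiberwise h1
    have h3 : ∀ v ∈ Icc (-(V : ℤ)) V, (#{s ∈ B2 | imb k (s + k) = v} : ℝ)
        ≤ C * a ^ (2 * k - 1) * 120 * N / ℓ := by
      intro v _
      have h4 := hwin T0 X (by omega) v {s ∈ B2 | imb k (s + k) = v} (by
        intro s hs
        have hs' := mem_filter.mp hs
        have hs'' := mem_filter.mp hs'.1
        refine ⟨?_, hs''.2.1, hs'.2⟩
        exact (Nat.nth_monotone Nat.infinite_setOfPred_prime (mem_range.mp hs''.1).le))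
      refine h4.trans ?_
      have h5 : (X : ℝ) / (Real.log X) ^ (2 * k + 1) ≤ 120 * N * ℓ / ℓ ^ (2 * k + 1) := by
        apply div_le_div₀ (by positivity) hXle (by positivity)
        exact pow_le_pow_left₀ hℓ0.le hlogX _
      have h6 : (T0 : ℝ) ^ (2 * k - 1) ≤ (a * ℓ) ^ (2 * k - 1) :=
        pow_le_pow_left₀ (Nat.cast_nonneg _) hT0a _
      calc C * (T0 : ℝ) ^ (2 * k - 1) * (X / (Real.log X) ^ (2 * k + 1))
          ≤ C * (a * ℓ) ^ (2 * k - 1) * (120 * N * ℓ / ℓ ^ (2 * k + 1)) := by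
            apply mul_le_mul (mul_le_mul_of_nonneg_left h6 hC.le) h5 (by positivity) (by positivity)
        _ = C * a ^ (2 * k - 1) * 120 * N / ℓ := by
            have h7 : ℓ ^ (2 * k + 1) = ℓ ^ (2 * k - 1) * ℓ * ℓ := by
              rw [← pow_succ, ← pow_succ]
              congr 1
              omega
            rw [h7, mul_pow]
            field_simp
    have h4 : (#B2 : ℝ) ≤ ∑ _v ∈ Icc (-(V : ℤ)) V, C * a ^ (2 * k - 1) * 120 * N / ℓ := by
      rw [h2]
      push_cast
      exact Finset.sum_le_sum h3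
    rw [Finset.sum_const, Int.card_Icc, nsmul_eq_mul] at h4
    have h5 : (((V : ℤ) + 1 - -(V : ℤ)).toNat : ℝ) ≤ 3 * (ε * ℓ) := by
      have h6 : ((V : ℤ) + 1 - -(V : ℤ)).toNat = 2 * V + 1 := by omega
      rw [h6]
      push_cast
      linarith
    calc (#B2 : ℝ) ≤ (((V : ℤ) + 1 - -(V : ℤ)).toNat : ℝ) * (C * a ^ (2 * k - 1) * 120 * N / ℓ) := h4
      _ ≤ 3 * (ε * ℓ) * (C * a ^ (2 * k - 1) * 120 * N / ℓ) :=
          mul_le_mul_of_nonneg_right h5 (by positivity)
      _ = N / 4 := by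
          rw [hε]
          field_simp
          norm_num
  linarith

/-- **Both signs of the imbalance have positive lower density.** -/
theorem signs (k : ℕ) (hk : 1 ≤ k) : ∃ δ : ℝ, 0 < δ ∧ ∃ N0 : ℕ, ∀ N : ℕ, N0 ≤ N →
    δ * N ≤ #{n ∈ range N | k ≤ n ∧ δ * Real.log N ≤ (imb k n : ℝ)} ∧
    δ * N ≤ #{n ∈ range N | k ≤ n ∧ (imb k n : ℝ) ≤ -(δ * Real.log N)} := by
  obtain ⟨ε, a, hε, ha, N1, hgood⟩ := exists_good k hk
  have hk0 : (1 : ℝ) ≤ k := by exact_mod_cast hk
  -- general sign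
  have main : ∀ σ : ℝ, |σ| = 1 → ∃ δ : ℝ, 0 < δ ∧ ∃ N0 : ℕ, ∀ N : ℕ, N0 ≤ N →
      δ * N ≤ #{s ∈ range N | δ * Real.log N ≤ σ * (imb k (s + k) : ℝ)} := by
    intro σ hσ
    obtain ⟨δ, hδ, N0, hcore⟩ := core (2 * k) (by omega) (fun j => σ * (cc k j : ℝ)) (2 * k)
      (by linarith) (fun j _ => by
        rw [abs_mul, hσ, one_mul]; exact cc_abs_le k j)
      (by
        rw [← Finset.mul_sum]
        have := sum_cc k
        have h2 : ∑ j ∈ range (2 * k), (cc k j : ℝ) = 0 := by exact_mod_cast this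
        rw [h2, mul_zero]) ε 120 a hε (by norm_num) ha
    have hL : ∀ s, ∑ j ∈ range (2 * k), σ * (cc k j : ℝ) * (gp (s + j) : ℝ)
        = σ * (imb k (s + k) : ℝ) := by
      intro s
      rw [imb_eq_gaps]
      push_cast
      rw [← Finset.sum_range (fun j => (cc k j : ℝ) * (gp (s + j) : ℝ)), Finset.mul_sum]
      apply Finset.sum_congr rfl
      intro j _; ring
    refine ⟨δ, hδ, max N0 (max N1 (2 * k + 20)), ?_⟩
    intro N hN
    have hNa : N0 ≤ N := (le_max_left _ _).trans hN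
    have hNb : N1 ≤ N := ((le_max_left _ _).trans (le_max_right _ _)).trans hN
    have hNc : 2 * k + 20 ≤ N := ((le_max_right _ _).trans (le_max_right _ _)).trans hN
    obtain ⟨T0, hT0, hG⟩ := hgood N hNb
    have hlog : 0 < Real.log N := Real.log_pos (by exact_mod_cast (by omega : 1 < N))
    have h1 := hcore N (Real.log N) gp T0 hNa hlog hT0 (by
      have h2 := sum_gp (N + 2 * k)
      have h3 : ((∑ i ∈ range (N + 2 * k), gp i : ℕ) : ℝ) ≤ Nat.nth Nat.Prime (N + 2 * k) := by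
        exact_mod_cast (by omega)
      push_cast at h3
      exact h3.trans (nth_prime_le' (2 * k) N hNc)) (by
      refine hG.trans (le_of_eq ?_)
      congr 2
      ext s
      simp only [mem_filter]
      rw [hL s, abs_mul, hσ, one_mul])
    simp only [hL] at h1
    exact h1
  obtain ⟨δ1, hδ1, M1, h1⟩ := main 1 (by norm_num)
  obtain ⟨δ2, hδ2, M2, h2⟩ := main (-1) (by norm_num)
  refine ⟨min δ1 δ2 / 2, by positivity, max (max (M1 + k) (M2 + k)) (2 * k + 20), ?_⟩
  intro N hN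
  have hNa : M1 + k ≤ N := ((le_max_left _ _).trans (le_max_left _ _)).trans hN
  have hNb : M2 + k ≤ N := ((le_max_right _ _).trans (le_max_left _ _)).trans hN
  have hNc : 2 * k + 20 ≤ N := (le_max_right _ _).trans hN
  set δ : ℝ := min δ1 δ2 / 2 with hδ
  have hN0 : (20 : ℝ) ≤ N := by exact_mod_cast (by omega : 20 ≤ N)
  set N' : ℕ := N - k with hN'
  have hN'1 : (N : ℝ) / 2 ≤ N' := by
    have : N ≤ 2 * N' := by omega
    have : (N : ℝ) ≤ 2 * N' := by exact_mod_cast this
    linarith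
  have hlogN' : Real.log N / 2 ≤ Real.log N' := by
    have h3 : Real.log N ≤ Real.log ((N' : ℝ) ^ 2) := by
      apply Real.log_le_log (by linarith)
      nlinarith
    rw [Real.log_pow] at h3
    push_cast at h3
    linarith
  have hlogN : 0 < Real.log N := Real.log_pos (by linarith)
  have aux : ∀ (δ' : ℝ), δ ≤ δ' / 2 → 0 < δ' → δ * N ≤ δ' * N' ∧ δ * Real.log N ≤ δ' * Real.log N' := by
    intro δ' hd hd0
    constructor
    · calc δ * N ≤ δ' / 2 * N := mul_le_mul_of_nonneg_right hd (by linarith)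
        _ = δ' * (N / 2) := by ring
        _ ≤ δ' * N' := mul_le_mul_of_nonneg_left hN'1 hd0.le
    · calc δ * Real.log N ≤ δ' / 2 * Real.log N := mul_le_mul_of_nonneg_right hd hlogN.le
        _ = δ' * (Real.log N / 2) := by ring
        _ ≤ δ' * Real.log N' := mul_le_mul_of_nonneg_left hlogN' hd0.le
  have hd1 : δ ≤ δ1 / 2 := by
    rw [hδ]; have := min_le_left δ1 δ2; linarith
  have hd2 : δ ≤ δ2 / 2 := by
    rw [hδ]; have := min_le_right δ1 δ2; linarith
  constructor
  · have h3 := h1 N' (by omega)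
    refine (aux δ1 hd1 hδ1).1.trans (h3.trans ?_)
    refine Nat.cast_le.mpr ?_
    apply Finset.card_le_card_of_injOn (fun s => s + k)
    · intro s hs
      have hs' := mem_filter.mp hs
      rw [Finset.mem_coe, mem_filter, mem_range]
      have := mem_range.mp hs'.1
      refine ⟨by simp only; omega, by simp, ?_⟩
      have h4 := hs'.2
      rw [one_mul] at h4
      exact (aux δ1 hd1 hδ1).2.trans h4
    · intro s _ s' _ h
      simpa using h
  · have h3 := h2 N' (by omega)
    refine (aux δ2 hd2 hδ2).1.trans (h3.trans ?_)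
    refine Nat.cast_le.mpr ?_
    apply Finset.card_le_card_of_injOn (fun s => s + k)
    · intro s hs
      have hs' := mem_filter.mp hs
      rw [Finset.mem_coe, mem_filter, mem_range]
      have := mem_range.mp hs'.1
      refine ⟨by simp only; omega, by simp, ?_⟩
      have h4 := hs'.2
      have h5 := (aux δ2 hd2 hδ2).2
      simp only
      linarith
    · intro s _ s' _ h
      simpa using h

end Pool.Agent.Lib.MP_b61f81_nt
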