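import Pool.Agent.Lib.MP_bae66e_nt.LL.K.K07
import Pool.Agent.Lib.MP_bae66e_nt.LL.K.K08

/-!
# Sums of products of `1 / rho` over boxes with one linear constraint
-/

set_option autoImplicit false

open Finset

namespace Pool.Agent.Lib.MP_b61f81_nt

open Pool.Agent.Lib.MP_bae66e_nt Pool.Agent.Lib.MP_bae66e_nt.LL

/-- gap vectors in `[1,T]^m` with `∑ c_j g_j = v` -/
def box {m : ℕ} (c : Fin m → ℤ) (T : ℕ) (v : ℤ) : Finset (Fin m → ℕ) :=
  {g ∈ Fintype.piFinset (fun _ : Fin m => Icc 1 T) | ∑ j, c j * (g j : ℤ) = v}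

lemma sum_pair_aux {m : ℕ} (e : Fin m → ℤ) (g g' : Fin m → ℕ) (a b : Fin m) (hab : a ≠ b)
    (h1 : ∀ j, j ≠ a → j ≠ b → g j = g' j) :
    ∑ j, e j * (g j : ℤ) - ∑ j, e j * (g' j : ℤ)
      = e a * ((g a : ℤ) - g' a) + e b * ((g b : ℤ) - g' b) := by
  rw [← sum_sub_distrib]
  rw [← Finset.sum_subset (Finset.subset_univ {a, b})]
  · rw [Finset.sum_pair hab]
    ring
  · intro j _ hj
    simp only [mem_insert, mem_singleton, not_or] at hj
    rw [h1 j hj.1 hj.2]
    ring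

lemma sum_box_le {m : ℕ} (c : Fin m → ℤ) (T : ℕ) (v : ℤ) (φ : ℕ → ℝ) (hφ : ∀ n, 0 ≤ φ n)
    (I : Finset (Fin m)) (hI : I.Nonempty) (a b : Fin m) (hab : a ≠ b)
    (hdet : c a * (if b ∈ I then 1 else 0) ≠ c b * (if a ∈ I then 1 else 0)) :
    ∑ g ∈ box c T v, φ (∑ i ∈ I, g i) ≤ (T : ℝ) ^ (m - 2) * ∑ s ∈ Icc 1 (m * T), φ s := by
  classical
  set F : (Fin m → ℕ) → (Fin m → ℕ) × ℕ := fun g =>
    (fun j => if j = a ∨ j = b then 1 else g j, ∑ i ∈ I, g i) with hF
  set R : Finset (Fin m → ℕ) :=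
    Fintype.piFinset (fun j : Fin m => if j = a ∨ j = b then {1} else Icc 1 T) with hR
  have hinj : Set.InjOn F (box c T v) := by
    intro g hg g' hg' h
    have hg1 : ∑ j, c j * (g j : ℤ) = v := (mem_filter.mp hg).2
    have hg2 : ∑ j, c j * (g' j : ℤ) = v := (mem_filter.mp hg').2
    have h1 : ∀ j, j ≠ a → j ≠ b → g j = g' j := by
      intro j hja hjb
      have := congrFun (congrArg Prod.fst h) j
      simpa [hF, hja, hjb] using this
    have h2 : ∑ i ∈ I, g i = ∑ i ∈ I, g' i := congrArg Prod.snd h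
    have e1 := sum_pair_aux c g g' a b hab h1
    rw [hg1, hg2, sub_self] at e1
    have e2 := sum_pair_aux (fun j => if j ∈ I then (1 : ℤ) else 0) g g' a b hab h1
    have e3 : ∀ f : Fin m → ℕ, ∑ j, (if j ∈ I then (1 : ℤ) else 0) * (f j : ℤ)
        = ((∑ i ∈ I, f i : ℕ) : ℤ) := by
      intro f
      push_cast
      simp only [ite_mul, one_mul, zero_mul]
      rw [← Finset.sum_filter, Finset.filter_mem_eq_inter, Finset.univ_inter]
    rw [e3 g, e3 g', h2, sub_self] at e2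
    set x : ℤ := (g a : ℤ) - g' a with hx
    set y : ℤ := (g b : ℤ) - g' b with hy
    set ea : ℤ := if a ∈ I then 1 else 0 with hea
    set eb : ℤ := if b ∈ I then 1 else 0 with heb
    have hd : c a * eb - c b * ea ≠ 0 := sub_ne_zero.mpr hdet
    have hx0 : x = 0 := by
      have : (c a * eb - c b * ea) * x = 0 := by linear_combination (-eb) * e1 + (c b) * e2
      exact (mul_eq_zero.mp this).resolve_left hd
    have hy0 : y = 0 := by
      have : (c a * eb - c b * ea) * y = 0 := by linear_combination (ea) * e1 - (c a) * e2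
      exact (mul_eq_zero.mp this).resolve_left hd
    funext j
    by_cases hja : j = a
    · rw [hja]; omega
    · by_cases hjb : j = b
      · rw [hjb]; omega
      · exact h1 j hja hjb
  have hcardR : #R = T ^ (m - 2) := by
    rw [hR, Fintype.card_piFinset]
    have h1 : ∀ j : Fin m, #(if j = a ∨ j = b then ({1} : Finset ℕ) else Icc 1 T)
        = if j = a ∨ j = b then 1 else T := by
      intro j
      split_ifs
      · simp
      · simp
    rw [Finset.prod_congr rfl fun j _ => h1 j, Finset.prod_ite, Finset.prod_const_one, one_mul,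
      Finset.prod_const]
    congr 1
    have h2 : ({j : Fin m | ¬ (j = a ∨ j = b)} : Finset (Fin m)) = ({a, b} : Finset (Fin m))ᶜ := by
      ext j; simp
    rw [h2, Finset.card_compl, Finset.card_pair hab, Fintype.card_fin]
  have hsub : (box c T v).image F ⊆ R ×ˢ Icc 1 (m * T) := by
    intro z hz
    obtain ⟨g, hg, rfl⟩ := Finset.mem_image.mp hz
    have hg0 : ∀ j, 1 ≤ g j ∧ g j ≤ T := by
      intro j
      have := Fintype.mem_piFinset.mp (mem_filter.mp hg).1 j
      exact mem_Icc.mp this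
    rw [mem_product]
    refine ⟨?_, ?_⟩
    · rw [hR, Fintype.mem_piFinset]
      intro j
      change (if j = a ∨ j = b then 1 else g j) ∈ _
      split_ifs with h
      · exact mem_singleton_self 1
      · exact mem_Icc.mpr (hg0 j)
    · rw [mem_Icc]
      constructor
      · obtain ⟨i, hi⟩ := hI
        exact (hg0 i).1.trans (Finset.single_le_sum (f := g) (fun _ _ => Nat.zero_le _) hi)
      · calc ∑ i ∈ I, g i ≤ ∑ i ∈ I, T := Finset.sum_le_sum fun i _ => (hg0 i).2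
          _ ≤ ∑ i : Fin m, T := Finset.sum_le_sum_of_subset (Finset.subset_univ I)
          _ = m * T := by simp
  calc ∑ g ∈ box c T v, φ (∑ i ∈ I, g i)
      = ∑ z ∈ (box c T v).image F, φ z.2 := by
        rw [Finset.sum_image hinj]
    _ ≤ ∑ z ∈ R ×ˢ Icc 1 (m * T), φ z.2 :=
        Finset.sum_le_sum_of_subset_of_nonneg hsub fun z _ _ => hφ _
    _ = (T : ℝ) ^ (m - 2) * ∑ s ∈ Icc 1 (m * T), φ s := by
        rw [Finset.sum_product]
        simp only [Finset.sum_const, nsmul_eq_mul, hcardR]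
        push_cast
        ring

lemma prod_le_one_add_sum {ι : Type*} (F : Finset ι) (x : ι → ℝ) (hx : ∀ i ∈ F, 1 ≤ x i)
    (n : ℕ) (hn : #F ≤ n) : ∏ i ∈ F, x i ≤ 1 + ∑ i ∈ F, (x i) ^ n := by
  rcases F.eq_empty_or_nonempty with rfl | hF
  · simp
  obtain ⟨i0, hi0, hmax⟩ := Finset.exists_max_image F x hF
  have h1 : ∏ i ∈ F, x i ≤ (x i0) ^ #F := by
    rw [← Finset.prod_const]
    exact Finset.prod_le_prod (fun i hi => zero_le_one.trans (hx i hi)) hmax
  have h2 : (x i0) ^ #F ≤ (x i0) ^ n := pow_le_pow_right₀ (hx i0 hi0) hn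
  have h3 : (x i0) ^ n ≤ ∑ i ∈ F, (x i) ^ n :=
    Finset.single_le_sum (f := fun i => (x i) ^ n)
      (fun i hi => pow_nonneg (zero_le_one.trans (hx i hi)) n) hi0
  linarith

/-- partial sums -/
def Hs {m : ℕ} (g : Fin m → ℕ) (i : Fin m) : ℕ := ∑ j ∈ Iic i, g j

/-- the singular weight in `selberg_tuple` -/
noncomputable def WW {m : ℕ} (g : Fin m → ℕ) : ℝ :=
  (1 / ((∏ i, rho (Hs g i)) *
    ∏ i, ∏ l ∈ Finset.Ioi i, rho (((Hs g i : ℤ) - (Hs g l : ℤ)).natAbs))) ^ (m + 1)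

lemma Hs_sub {m : ℕ} (g : Fin m → ℕ) (i l : Fin m) (h : i < l) :
    ((Hs g i : ℤ) - (Hs g l : ℤ)).natAbs = ∑ j ∈ Ioc i l, g j := by
  have h1 : Hs g l = Hs g i + ∑ j ∈ Ioc i l, g j := by
    unfold Hs
    rw [← Finset.sum_union]
    · congr 1
      ext j
      simp only [mem_Iic, mem_union, mem_Ioc]
      constructor
      · intro hj
        rcases le_or_gt j i with h2 | h2
        · exact Or.inl h2
        · exact Or.inr ⟨h2, hj⟩
      · rintro (h2 | h2)
        · exact h2.trans h.le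
        · exact h2.2
    · rw [Finset.disjoint_left]
      intro j hj hj'
      rw [mem_Iic] at hj
      rw [mem_Ioc] at hj'
      exact absurd hj'.1 (not_lt.mpr hj)
  rw [h1]
  push_cast
  rw [sub_add_cancel_left, Int.natAbs_neg]
  norm_cast

/-- the exponent -/
def EE (m : ℕ) : ℕ := 2 * (m + 1) * m ^ 2

lemma WW_le {m : ℕ} (g : Fin m → ℕ) :
    WW g ≤ 2 + ∑ i, (1 / rho (∑ j ∈ Iic i, g j)) ^ EE m
      + ∑ i, ∑ l ∈ Finset.Ioi i, (1 / rho (∑ j ∈ Ioc i l, g j)) ^ EE m := by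
  have hone : ∀ n : ℕ, 1 ≤ 1 / rho n := fun n => by
    rw [le_div_iff₀ (rho_pos n), one_mul]; exact rho_le_one n
  have hone' : ∀ (n e : ℕ), 1 ≤ (1 / rho n) ^ e := fun n e => one_le_pow₀ (hone n)
  set A : ℝ := ∏ i, (1 / rho (∑ j ∈ Iic i, g j)) ^ (m + 1) with hA
  set B : ℝ := ∏ i, ∏ l ∈ Finset.Ioi i, (1 / rho (∑ j ∈ Ioc i l, g j)) ^ (m + 1) with hB
  have hW : WW g = A * B := by
    unfold WW
    rw [one_div, mul_inv, mul_pow, ← Finset.prod_inv_distrib, ← Finset.prod_pow, hA, hB]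
    congr 1
    · apply Finset.prod_congr rfl
      intro i _
      rw [one_div]; rfl
    · rw [← Finset.prod_inv_distrib, ← Finset.prod_pow]
      apply Finset.prod_congr rfl
      intro i _
      rw [← Finset.prod_inv_distrib, ← Finset.prod_pow]
      apply Finset.prod_congr rfl
      intro l hl
      rw [one_div, Hs_sub g i l (mem_Ioi.mp hl)]
  have hA2 : A ^ 2 ≤ 1 + ∑ i, (1 / rho (∑ j ∈ Iic i, g j)) ^ EE m := by
    have e1 : A ^ 2 = ∏ i, (1 / rho (∑ j ∈ Iic i, g j)) ^ (2 * (m + 1)) := by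
      rw [hA, ← Finset.prod_pow]
      apply Finset.prod_congr rfl
      intro i _
      rw [← pow_mul, mul_comm]
    rw [e1]
    have h2 := prod_le_one_add_sum (Finset.univ : Finset (Fin m))
      (fun i => (1 / rho (∑ j ∈ Iic i, g j)) ^ (2 * (m + 1))) (fun i _ => hone' _ _) (m ^ 2)
      (by rw [Finset.card_univ, Fintype.card_fin]; nlinarith [Nat.zero_le m])
    refine h2.trans (le_of_eq ?_)
    congr 1
    apply Finset.sum_congr rfl
    intro i _
    rw [← pow_mul]; rfl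
  have hB2 : B ^ 2 ≤ 1 + ∑ i, ∑ l ∈ Finset.Ioi i, (1 / rho (∑ j ∈ Ioc i l, g j)) ^ EE m := by
    have e1 : B ^ 2 = ∏ z ∈ (Finset.univ : Finset (Fin m)).sigma (fun i => Finset.Ioi i),
        (1 / rho (∑ j ∈ Ioc z.1 z.2, g j)) ^ (2 * (m + 1)) := by
      rw [Finset.prod_sigma, hB, ← Finset.prod_pow]
      apply Finset.prod_congr rfl
      intro i _
      rw [← Finset.prod_pow]
      apply Finset.prod_congr rfl
      intro l _
      rw [← pow_mul, mul_comm]
    rw [e1]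
    have h2 := prod_le_one_add_sum ((Finset.univ : Finset (Fin m)).sigma (fun i => Finset.Ioi i))
      (fun z => (1 / rho (∑ j ∈ Ioc z.1 z.2, g j)) ^ (2 * (m + 1))) (fun z _ => hone' _ _) (m ^ 2)
      (by
        rw [Finset.card_sigma]
        calc ∑ i : Fin m, #(Finset.Ioi i) ≤ ∑ i : Fin m, m := by
              apply Finset.sum_le_sum
              intro i _
              calc #(Finset.Ioi i) ≤ #(Finset.univ : Finset (Fin m)) :=
                    Finset.card_le_card (Finset.subset_univ _)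
                _ = m := by rw [Finset.card_univ, Fintype.card_fin]
          _ = m ^ 2 := by simp [sq])
    refine h2.trans (le_of_eq ?_)
    congr 1
    rw [Finset.sum_sigma]
    apply Finset.sum_congr rfl
    intro i _
    apply Finset.sum_congr rfl
    intro l _
    rw [← pow_mul]; rfl
  have hAB : A * B ≤ A ^ 2 + B ^ 2 := by nlinarith [sq_nonneg (A - B), sq_nonneg A, sq_nonneg B]
  rw [hW]
  linarith

/-- **Mean value of the singular weight over the box with one linear constraint.** -/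
theorem exists_box_weight {m : ℕ} (hm : 2 ≤ m) (c : Fin m → ℤ) (hc : ∀ j, c j ≠ 0)
    (a0 b0 : Fin m) (hne : c a0 ≠ c b0) :
    ∃ C : ℝ, 0 < C ∧ ∀ T : ℕ, ∀ v : ℤ, ∑ g ∈ box c T v, WW g ≤ C * (T : ℝ) ^ (m - 1) := by
  obtain ⟨C, hC1, hC⟩ := sum_inv_rho_pow_le (EE m)
  have key : ∀ (T : ℕ) (v : ℤ) (φ : ℕ → ℝ) (K : ℝ), (∀ n, 0 ≤ φ n) →
      (∀ N : ℕ, ∑ s ∈ Icc 1 N, φ s ≤ K * N) → ∀ I : Finset (Fin m), I.Nonempty →
      ∑ g ∈ box c T v, φ (∑ i ∈ I, g i) ≤ K * m * (T : ℝ) ^ (m - 1) := by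
    intro T v φ K hφ hK I hI
    have h1 : ∃ a b : Fin m, a ≠ b ∧
        c a * (if b ∈ I then 1 else 0) ≠ c b * (if a ∈ I then 1 else 0) := by
      by_cases h : ∃ a, a ∉ I
      · obtain ⟨a, ha⟩ := h
        obtain ⟨b, hb⟩ := hI
        refine ⟨a, b, fun h => ha (h ▸ hb), ?_⟩
        rw [if_pos hb, if_neg ha, mul_one, mul_zero]
        exact hc a
      · push Not at h
        refine ⟨a0, b0, fun h => hne (by rw [h]), ?_⟩
        rw [if_pos (h b0), if_pos (h a0), mul_one, mul_one]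
        exact hne
    obtain ⟨a, b, hab, hdet⟩ := h1
    have h2 := sum_box_le c T v φ hφ I hI a b hab hdet
    have h3 := hK (m * T)
    have hT : (T : ℝ) ^ (m - 1) = (T : ℝ) ^ (m - 2) * T := by
      rw [← pow_succ]
      congr 1
      omega
    calc ∑ g ∈ box c T v, φ (∑ i ∈ I, g i)
        ≤ (T : ℝ) ^ (m - 2) * ∑ s ∈ Icc 1 (m * T), φ s := h2
      _ ≤ (T : ℝ) ^ (m - 2) * (K * ((m * T : ℕ) : ℝ)) :=
          mul_le_mul_of_nonneg_left h3 (by positivity)
      _ = K * m * (T : ℝ) ^ (m - 1) := by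
          rw [hT]; push_cast; ring
  have hpos : ∀ n : ℕ, 0 ≤ (1 / rho n) ^ EE m := fun n =>
    pow_nonneg (one_div_nonneg.mpr (rho_pos n).le) _
  refine ⟨2 * m + C * m * m + C * m * m * m, by positivity, ?_⟩
  intro T v
  have hcard : ((#(box c T v) : ℕ) : ℝ) ≤ m * (T : ℝ) ^ (m - 1) := by
    have := key T v (fun _ => 1) 1 (fun _ => zero_le_one) (fun N => by simp)
      {a0} (Finset.singleton_nonempty _)
    simpa using this
  have h1 : ∑ g ∈ box c T v, WW g ≤ ∑ g ∈ box c T v, (2 + ∑ i, (1 / rho (∑ j ∈ Iic i, g j)) ^ EE m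
      + ∑ i, ∑ l ∈ Finset.Ioi i, (1 / rho (∑ j ∈ Ioc i l, g j)) ^ EE m) :=
    Finset.sum_le_sum fun g _ => WW_le g
  refine h1.trans ?_
  rw [Finset.sum_add_distrib, Finset.sum_add_distrib, Finset.sum_const, nsmul_eq_mul,
    Finset.sum_comm]
  have h2 : ∑ i : Fin m, ∑ g ∈ box c T v, (1 / rho (∑ j ∈ Iic i, g j)) ^ EE m
      ≤ ∑ _i : Fin m, C * m * (T : ℝ) ^ (m - 1) := by
    apply Finset.sum_le_sum
    intro i _
    exact key T v (fun n => (1 / rho n) ^ EE m) C hpos hC (Iic i) ⟨i, mem_Iic.mpr le_rfl⟩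
  have h3 : ∑ g ∈ box c T v, ∑ i : Fin m, ∑ l ∈ Finset.Ioi i,
      (1 / rho (∑ j ∈ Ioc i l, g j)) ^ EE m
      ≤ ∑ _i : Fin m, ∑ _l : Fin m, C * m * (T : ℝ) ^ (m - 1) := by
    rw [Finset.sum_comm]
    apply Finset.sum_le_sum
    intro i _
    rw [Finset.sum_comm]
    calc ∑ l ∈ Finset.Ioi i, ∑ g ∈ box c T v, (1 / rho (∑ j ∈ Ioc i l, g j)) ^ EE m
        ≤ ∑ _l ∈ Finset.Ioi i, C * m * (T : ℝ) ^ (m - 1) := by
          apply Finset.sum_le_sum
          intro l hl
          exact key T v (fun n => (1 / rho n) ^ EE m) C hpos hC (Ioc i l)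
            ⟨l, mem_Ioc.mpr ⟨mem_Ioi.mp hl, le_rfl⟩⟩
      _ ≤ ∑ _l : Fin m, C * m * (T : ℝ) ^ (m - 1) :=
          Finset.sum_le_sum_of_subset_of_nonneg (Finset.subset_univ _)
            (fun _ _ _ => by positivity)
  simp only [Finset.sum_const, Finset.card_univ, Fintype.card_fin, nsmul_eq_mul] at h2 h3
  nlinarith

end Pool.Agent.Lib.MP_b61f81_nt
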