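import Pool.Agent.Lib.MP_b61f81_nt.ProdK

/-!
# Windows of rough numbers with a given pattern
-/

set_option autoImplicit false

namespace Pool.Agent.Lib.MP_b61f81_nt

open Finset Pool.Agent.Lib.MP_bae66e_nt Pool.Agent.Lib.MP_bae66e_nt.AP3

/-- forbidden classes of the set of shifts `S`, for the primes above `u` -/
def OmH (u : ℕ) (S : Finset ℕ) (ℓ : ℕ) : Finset ℕ :=
  if ℓ ≤ u then ∅ else {r ∈ range ℓ | ∃ h ∈ S, ℓ ∣ r + h}

lemma mem_OmH {u : ℕ} {S : Finset ℕ} {ℓ r : ℕ} :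
    r ∈ OmH u S ℓ ↔ u < ℓ ∧ r < ℓ ∧ ∃ h ∈ S, ℓ ∣ r + h := by
  unfold OmH
  split_ifs with h
  · simp; omega
  · rw [mem_filter, mem_range]
    constructor
    · rintro ⟨h1, h2⟩; exact ⟨by omega, h1, h2⟩
    · rintro ⟨_, h1, h2⟩; exact ⟨h1, h2⟩

lemma neg_mod_eq {ℓ r h : ℕ} (hr : r < ℓ) (hd : ℓ ∣ r + h) : r = (ℓ - h % ℓ) % ℓ := by
  have hℓ : 0 < ℓ := by omega
  have hb : h % ℓ < ℓ := Nat.mod_lt h hℓ
  have h1 : ℓ ∣ r + h % ℓ := by
    have h2 : r + h = r + h % ℓ + ℓ * (h / ℓ) := by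
      have := Nat.mod_add_div h ℓ
      omega
    rw [h2] at hd
    exact (Nat.dvd_add_left (Dvd.intro _ rfl)).mp hd
  obtain ⟨c, hc⟩ := h1
  rcases Nat.eq_zero_or_pos (h % ℓ) with h0 | h0
  · rw [h0] at hc ⊢
    rw [Nat.sub_zero, Nat.mod_self]
    rcases Nat.eq_zero_or_pos c with h2 | h2
    · rw [h2, mul_zero] at hc; omega
    · have : ℓ * 1 ≤ ℓ * c := Nat.mul_le_mul_left ℓ h2
      omega
  · rw [Nat.mod_eq_of_lt (by omega)]
    have h2 : c = 1 := by
      rcases Nat.lt_or_ge c 1 with h3 | h3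
      · have : c = 0 := by omega
        rw [this, mul_zero] at hc; omega
      · rcases Nat.lt_or_ge c 2 with h4 | h4
        · omega
        · have : ℓ * 2 ≤ ℓ * c := Nat.mul_le_mul_left ℓ h4
          omega
    rw [h2, mul_one] at hc
    omega

lemma card_OmH_le (u : ℕ) (S : Finset ℕ) (ℓ : ℕ) : #(OmH u S ℓ) ≤ #S := by
  have h : OmH u S ℓ ⊆ S.image (fun h => (ℓ - h % ℓ) % ℓ) := by
    intro r hr
    obtain ⟨_, h1, h, hh, h2⟩ := mem_OmH.mp hr
    rw [mem_image]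
    exact ⟨h, hh, (neg_mod_eq h1 h2).symm⟩
  exact (card_le_card h).trans card_image_le

lemma card_OmH_ge {u : ℕ} {S : Finset ℕ} {ℓ : ℕ} (hu : u < ℓ) (hS : ∀ h ∈ S, h < ℓ) :
    #S ≤ #(OmH u S ℓ) := by
  apply card_le_card_of_injOn (fun h => (ℓ - h) % ℓ)
  · intro h hh
    have h1 := hS h hh
    rw [mem_coe, mem_OmH]
    refine ⟨hu, Nat.mod_lt _ (by omega), h, hh, ?_⟩
    simp only
    have h2 : (ℓ - h) % ℓ + h ≡ (ℓ - h) + h [MOD ℓ] := (Nat.mod_modEq _ _).add_right h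
    rw [Nat.sub_add_cancel h1.le] at h2
    have h3 : ℓ ≡ 0 [MOD ℓ] := by
      unfold Nat.ModEq; simp
    exact (Nat.modEq_zero_iff_dvd).mp (h2.trans h3)
  · intro h hh h' hh' heq
    have h1 := hS h hh
    have h2 := hS h' hh'
    simp only at heq
    rcases Nat.eq_zero_or_pos h with h0 | h0
    · rcases Nat.eq_zero_or_pos h' with h0' | h0'
      · omega
      · rw [h0, Nat.sub_zero, Nat.mod_self, Nat.mod_eq_of_lt (by omega)] at heq
        omega
    · rcases Nat.eq_zero_or_pos h' with h0' | h0'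
      · rw [h0', Nat.sub_zero, Nat.mod_self, Nat.mod_eq_of_lt (by omega)] at heq
        omega
      · rw [Nat.mod_eq_of_lt (by omega), Nat.mod_eq_of_lt (by omega)] at heq
        omega

lemma xb_OmH_le {u : ℕ} {S : Finset ℕ} (hu : 2 * #S ≤ u) (ℓ : ℕ) : xb (OmH u S) ℓ ≤ 1 / 2 := by
  unfold xb
  rcases le_or_gt ℓ u with h | h
  · have : OmH u S ℓ = ∅ := by unfold OmH; rw [if_pos h]
    rw [this]; norm_num
  · have hℓ : (0 : ℝ) < ℓ := by exact_mod_cast (by omega : 0 < ℓ)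
    rw [div_le_div_iff₀ hℓ (by norm_num)]
    have h1 := card_OmH_le u S ℓ
    have h2 : 2 * #(OmH u S ℓ) ≤ ℓ := by omega
    have h3 : (2 : ℝ) * #(OmH u S ℓ) ≤ ℓ := by exact_mod_cast h2
    linarith

lemma prod_OmH_ge {κ u w T : ℕ} {S : Finset ℕ} (hS : #S = κ) (hw : 2 * κ ≤ w) :
    PK κ w T ≤ ∏ ℓ ∈ prI w T, (1 - xb (OmH u S) ℓ) := by
  unfold PK
  apply prod_le_prod
  · intro ℓ hℓ
    have := (factor_bounds (κ := κ) (ℓ := ℓ) (by have := (mem_prI.mp hℓ).1.1; omega)).1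
    linarith
  · intro ℓ hℓ
    have h1 : (#(OmH u S ℓ) : ℝ) ≤ κ := by
      rw [← hS]; exact_mod_cast card_OmH_le u S ℓ
    have h2 : xb (OmH u S) ℓ ≤ (κ : ℝ) / ℓ := by
      unfold xb
      exact div_le_div_of_nonneg_right h1 (Nat.cast_nonneg ℓ)
    linarith

lemma prod_OmH_le {κ u w T : ℕ} {S : Finset ℕ} (hS : #S = κ) (hw : 2 * κ ≤ w) (hu : u ≤ w)
    (hSw : ∀ h ∈ S, h ≤ w) :
    ∏ ℓ ∈ prI w T, (1 - xb (OmH u S) ℓ) ≤ PK κ w T := by
  unfold PK
  apply prod_le_prod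
  · intro ℓ hℓ
    have h3 := (mem_prI.mp hℓ).1.1
    have h1 : (#(OmH u S ℓ) : ℝ) ≤ κ := by
      rw [← hS]; exact_mod_cast card_OmH_le u S ℓ
    have h2 : xb (OmH u S) ℓ ≤ (κ : ℝ) / ℓ := by
      unfold xb
      exact div_le_div_of_nonneg_right h1 (Nat.cast_nonneg ℓ)
    have := (factor_bounds (κ := κ) (ℓ := ℓ) (by omega)).1
    linarith
  · intro ℓ hℓ
    have h3 := (mem_prI.mp hℓ).1.1
    have h1 : (κ : ℝ) ≤ #(OmH u S ℓ) := by
      rw [← hS]
      exact_mod_cast card_OmH_ge (u := u) (S := S) (ℓ := ℓ) (by omega) (fun h hh => by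
        have := hSw h hh; omega)
    have h2 : (κ : ℝ) / ℓ ≤ xb (OmH u S) ℓ := by
      unfold xb
      exact div_le_div_of_nonneg_right h1 (Nat.cast_nonneg ℓ)
    linarith

/-- `n` such that all `n + h`, `h ∈ S`, are free of prime factors up to `T` -/
def Mset (A B T : ℕ) (S : Finset ℕ) : Finset ℕ :=
  {n ∈ Ioc A B | ∀ h ∈ S, ∀ p ∈ prI 0 T, ¬ p ∣ n + h}

/-- those with a further number `n + h`, `1 ≤ h ≤ w`, free of prime factors up to `T'` -/
def Zset (A B T T' w : ℕ) (S : Finset ℕ) : Finset ℕ :=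
  {n ∈ Mset A B T S | ∃ h ∈ Icc 1 w, h ∉ S ∧ ∀ p ∈ prI 0 T', ¬ p ∣ n + h}

lemma not_dvd_of_class {u : ℕ} {S : Finset ℕ} {n p h : ℕ} (hp : 0 < p) (hu : u < p) (hh : h ∈ S)
    (hn : n % p ∉ OmH u S p) : ¬ p ∣ n + h := by
  intro hd
  apply hn
  rw [mem_OmH]
  refine ⟨hu, Nat.mod_lt _ hp, h, hh, ?_⟩
  have h2 : n % p + h ≡ n + h [MOD p] := (Nat.mod_modEq n p).add_right h
  exact (Nat.modEq_zero_iff_dvd).mp (h2.trans ((Nat.modEq_zero_iff_dvd).mpr hd))

lemma class_of_not_dvd {u : ℕ} {S : Finset ℕ} {n p : ℕ} (hn : ∀ h ∈ S, ¬ p ∣ n + h) :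
    n % p ∉ OmH u S p := by
  intro h1
  obtain ⟨_, _, h, hh, hd⟩ := mem_OmH.mp h1
  apply hn h hh
  have h2 : n % p + h ≡ n + h [MOD p] := (Nat.mod_modEq n p).add_right h
  exact (Nat.modEq_zero_iff_dvd).mp (h2.symm.trans ((Nat.modEq_zero_iff_dvd).mpr hd))

/-- lower bound for the tuples -/
lemma card_Mset_ge {κ u e T A B : ℕ} {S : Finset ℕ} (hS : #S = κ) (hu : 2 * κ + 2 ≤ u)
    (huT : u ≤ T) (hAB : A ≤ B) (hq : ∀ h ∈ S, u.factorial ∣ h)
    (hfl : FLP (OmH u S) A B (prI u T) (1 / 2) ((T : ℝ) ^ e)) :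
    (1 / 2) * (((B : ℝ) - A) / u.factorial * PK κ (2 * κ) T) - (T : ℝ) ^ e ≤ #(Mset A B T S) := by
  have hq0 : 0 < u.factorial := Nat.factorial_pos u
  have h1 := hfl u.factorial 1 hq0 (fun ℓ hℓ => by
    have hp := (mem_prI.mp hℓ).2
    rw [Nat.Prime.coprime_iff_not_dvd hp, hp.dvd_factorial]
    have := (mem_prI.mp hℓ).1.1
    omega)
  have h2 := (abs_le.mp h1).1
  set P : ℝ := ∏ ℓ ∈ prI u T, (1 - xb (OmH u S) ℓ) with hP
  have hAB' : (0 : ℝ) ≤ (B : ℝ) - A := by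
    have : (A : ℝ) ≤ B := by exact_mod_cast hAB
    linarith
  have hPge : PK κ (2 * κ) T ≤ P :=
    (PK_mono (by omega) (by omega) huT).trans (prod_OmH_ge hS (by omega))
  have h3 : ((B : ℝ) - A) / u.factorial * PK κ (2 * κ) T ≤ ((B : ℝ) - A) / u.factorial * P :=
    mul_le_mul_of_nonneg_left hPge (by positivity)
  have hsub : cset (OmH u S) A B u.factorial 1 ∅ (prI u T) ⊆ Mset A B T S := by
    intro n hn
    unfold cset at hn
    obtain ⟨hn1, hn2, _, hn4⟩ := mem_filter.mp hn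
    unfold Mset
    rw [mem_filter]
    refine ⟨hn1, ?_⟩
    intro h hh p hp
    have hpp := (mem_prI.mp hp).2
    rcases le_or_gt p u with hpu | hpu
    · intro hd
      have h4 : p ∣ u.factorial := (hpp.dvd_factorial).mpr hpu
      have h5 : p ∣ h := h4.trans (hq h hh)
      have h6 : p ∣ n := (Nat.dvd_add_left h5).mp hd
      have h7 : n ≡ 1 [MOD p] := hn2.of_dvd h4
      have h8 : (0 : ℕ) ≡ 1 [MOD p] := ((Nat.modEq_zero_iff_dvd).mpr h6).symm.trans h7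
      have h9 : (0 : ℕ) % p = 1 % p := h8
      rw [Nat.zero_mod, Nat.mod_eq_of_lt hpp.one_lt] at h9
      omega
    · exact not_dvd_of_class hpp.pos hpu hh (hn4 p (mem_prI.mpr ⟨⟨hpu, (mem_prI.mp hp).1.2⟩, hpp⟩))
  have h4 : (#(cset (OmH u S) A B u.factorial 1 ∅ (prI u T)) : ℝ) ≤ #(Mset A B T S) := by
    exact_mod_cast card_le_card hsub
  linarith

/-- admissible classes modulo the primorial -/
def Adm (w : ℕ) (S : Finset ℕ) : Finset ℕ :=
  {a ∈ range (primorial w) | ∀ h ∈ S, ∀ p ∈ prI 0 w, ¬ p ∣ a + h}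

lemma dvd_primorial {p w : ℕ} (hp : p ∈ prI 0 w) : p ∣ primorial w := by
  unfold primorial
  apply dvd_prod_of_mem
  rw [mem_filter, mem_range]
  have := mem_prI.mp hp
  exact ⟨by omega, this.2⟩

lemma coprime_primorial {ℓ w T : ℕ} (hℓ : ℓ ∈ prI w T) : Nat.Coprime ℓ (primorial w) := by
  have hp := (mem_prI.mp hℓ).2
  unfold primorial
  apply Nat.Coprime.prod_right
  intro p hp'
  rw [mem_filter, mem_range] at hp'
  rw [Nat.coprime_primes hp hp'.2]
  have := (mem_prI.mp hℓ).1.1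
  omega

lemma card_Mset_class {κ u e w T A B : ℕ} {S : Finset ℕ} (hS : #S = κ) (hw : 2 * κ + 2 ≤ w)
    (huw : u ≤ w) (hAB : A ≤ B)
    (hfl : FLP (OmH u S) A B (prI w T) (1 / 2) ((T : ℝ) ^ e)) :
    (#(Adm w S) : ℝ) * ((1 / 2) * (((B : ℝ) - A) / primorial w * PK κ w T) - (T : ℝ) ^ e)
      ≤ #(Mset A B T S) := by
  have hQ : 0 < primorial w := primorial_pos w
  have hAB' : (0 : ℝ) ≤ (B : ℝ) - A := by
    have : (A : ℝ) ≤ B := by exact_mod_cast hAB
    linarith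
  have hsub : (Adm w S).biUnion (fun a => cset (OmH u S) A B (primorial w) a ∅ (prI w T))
      ⊆ Mset A B T S := by
    intro n hn
    obtain ⟨a, ha, hn'⟩ := mem_biUnion.mp hn
    unfold cset at hn'
    obtain ⟨hn1, hn2, _, hn4⟩ := mem_filter.mp hn'
    have ha' := (mem_filter.mp ha).2
    unfold Mset
    rw [mem_filter]
    refine ⟨hn1, ?_⟩
    intro h hh p hp
    have hpp := (mem_prI.mp hp).2
    rcases le_or_gt p w with hpu | hpu
    · have hp0 : p ∈ prI 0 w := mem_prI.mpr ⟨⟨hpp.pos, hpu⟩, hpp⟩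
      intro hd
      apply ha' h hh p hp0
      have h4 : n ≡ a [MOD p] := hn2.of_dvd (dvd_primorial hp0)
      have h5 : n + h ≡ a + h [MOD p] := h4.add_right h
      exact (Nat.modEq_zero_iff_dvd).mp (h5.symm.trans ((Nat.modEq_zero_iff_dvd).mpr hd))
    · exact not_dvd_of_class hpp.pos (by omega) hh
        (hn4 p (mem_prI.mpr ⟨⟨hpu, (mem_prI.mp hp).1.2⟩, hpp⟩))
  have hdisj : ∀ a ∈ Adm w S, ∀ a' ∈ Adm w S, a ≠ a' →
      Disjoint (cset (OmH u S) A B (primorial w) a ∅ (prI w T))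
        (cset (OmH u S) A B (primorial w) a' ∅ (prI w T)) := by
    intro a ha a' ha' hne
    rw [disjoint_left]
    intro n hn hn'
    unfold cset at hn hn'
    have h1 := (mem_filter.mp hn).2.1
    have h2 := (mem_filter.mp hn').2.1
    have h3 : a % primorial w = a' % primorial w := h1.symm.trans h2
    rw [Nat.mod_eq_of_lt (mem_range.mp (mem_filter.mp ha).1),
      Nat.mod_eq_of_lt (mem_range.mp (mem_filter.mp ha').1)] at h3
    exact hne h3
  have h1 := card_le_card hsub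
  rw [card_biUnion hdisj] at h1
  have h2 : (∑ a ∈ Adm w S, (#(cset (OmH u S) A B (primorial w) a ∅ (prI w T)) : ℝ))
      ≤ #(Mset A B T S) := by exact_mod_cast h1
  refine le_trans ?_ h2
  have h3 : ∀ a ∈ Adm w S, (1 / 2) * (((B : ℝ) - A) / primorial w * PK κ w T) - (T : ℝ) ^ e
      ≤ (#(cset (OmH u S) A B (primorial w) a ∅ (prI w T)) : ℝ) := by
    intro a _
    have h4 := (abs_le.mp (hfl (primorial w) a hQ (fun ℓ hℓ => coprime_primorial hℓ))).1
    have hPge := prod_OmH_ge (κ := κ) (u := u) (w := w) (T := T) hS (by omega)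
    have h5 : ((B : ℝ) - A) / primorial w * PK κ w T
        ≤ ((B : ℝ) - A) / primorial w * ∏ ℓ ∈ prI w T, (1 - xb (OmH u S) ℓ) :=
      mul_le_mul_of_nonneg_left hPge (by positivity)
    linarith
  have h4 := sum_le_sum h3
  rw [sum_const, nsmul_eq_mul] at h4
  exact h4

lemma card_Zset_le {κ u e w T T' A B : ℕ} {S : Finset ℕ} (K : ℝ) (hS : #S = κ)
    (hw : 2 * κ + 2 ≤ w) (huw : u ≤ w) (hAB : A ≤ B) (hSw : ∀ h ∈ S, h ≤ w) (hwT' : w ≤ T')
    (hT'T : T' ≤ T)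
    (hbt : ∀ a : ℕ, (#{n ∈ Ioc a (a + w) | ∀ p ∈ prI 0 w, ¬ p ∣ n} : ℝ) ≤ K)
    (hfl : ∀ S' : Finset ℕ, #S' = κ + 1 →
      FLP (OmH u S') A B (prI w T') (1 / 2) ((T' : ℝ) ^ e)) :
    (#(Zset A B T T' w S) : ℝ) ≤
      (#(Adm w S) : ℝ) * (K * ((3 / 2) * (((B : ℝ) - A) / primorial w * PK (κ + 1) w T')
        + (T' : ℝ) ^ e)) := by
  have hQ : 0 < primorial w := primorial_pos w
  have hAB' : (0 : ℝ) ≤ (B : ℝ) - A := by
    have : (A : ℝ) ≤ B := by exact_mod_cast hAB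
    linarith
  set Sa : ℕ → Finset ℕ := fun a => {h ∈ Icc 1 w | h ∉ S ∧ ∀ p ∈ prI 0 w, ¬ p ∣ a + h} with hSa
  have hSacard : ∀ a, (#(Sa a) : ℝ) ≤ K := by
    intro a
    refine le_trans ?_ (hbt a)
    refine Nat.cast_le.mpr ?_
    apply card_le_card_of_injOn (fun h => a + h)
    · intro h hh
      have hh' := mem_filter.mp hh
      have h1 := mem_Icc.mp hh'.1
      rw [mem_coe, mem_filter, mem_Ioc]
      exact ⟨⟨by simp only; omega, by simp only; omega⟩, hh'.2.2⟩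
    · intro h _ h' _ heq
      simpa using heq
  have hsub : Zset A B T T' w S ⊆ (Adm w S).biUnion (fun a => (Sa a).biUnion (fun h =>
      cset (OmH u (insert h S)) A B (primorial w) a ∅ (prI w T'))) := by
    intro n hn
    unfold Zset at hn
    obtain ⟨hn1, h, hh1, hh2, hh3⟩ := mem_filter.mp hn
    unfold Mset at hn1
    obtain ⟨hn2, hn3⟩ := mem_filter.mp hn1
    have key : ∀ p ∈ prI 0 w, ∀ h', p ∣ n % primorial w + h' → p ∣ n + h' := by
      intro p hp h' hd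
      have h4 : n % primorial w ≡ n [MOD p] :=
        (Nat.mod_modEq n (primorial w)).of_dvd (dvd_primorial hp)
      have h5 : n % primorial w + h' ≡ n + h' [MOD p] := h4.add_right h'
      exact (Nat.modEq_zero_iff_dvd).mp (h5.symm.trans ((Nat.modEq_zero_iff_dvd).mpr hd))
    have hmono : ∀ p ∈ prI 0 w, p ∈ prI 0 T ∧ p ∈ prI 0 T' := by
      intro p hp
      have := mem_prI.mp hp
      exact ⟨mem_prI.mpr ⟨⟨this.1.1, by omega⟩, this.2⟩, mem_prI.mpr ⟨⟨this.1.1, by omega⟩, this.2⟩⟩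
    rw [mem_biUnion]
    refine ⟨n % primorial w, ?_, ?_⟩
    · unfold Adm
      rw [mem_filter, mem_range]
      refine ⟨Nat.mod_lt _ hQ, ?_⟩
      intro h' hh' p hp hd
      exact hn3 h' hh' p (hmono p hp).1 (key p hp h' hd)
    · rw [mem_biUnion]
      refine ⟨h, ?_, ?_⟩
      · rw [hSa]
        simp only
        rw [mem_filter]
        exact ⟨hh1, hh2, fun p hp hd => hh3 p (hmono p hp).2 (key p hp h hd)⟩
      · unfold cset
        rw [mem_filter]
        refine ⟨hn2, (Nat.mod_modEq n (primorial w)).symm, by simp, ?_⟩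
        intro ℓ hℓ
        have hℓ' := mem_prI.mp hℓ
        apply class_of_not_dvd
        intro h' hh'
        rcases mem_insert.mp hh' with rfl | hh'
        · exact hh3 ℓ (mem_prI.mpr ⟨⟨hℓ'.2.pos, hℓ'.1.2⟩, hℓ'.2⟩)
        · exact hn3 h' hh' ℓ (mem_prI.mpr ⟨⟨hℓ'.2.pos, hℓ'.1.2.trans hT'T⟩, hℓ'.2⟩)
  have h1 : #(Zset A B T T' w S) ≤ ∑ a ∈ Adm w S, ∑ h ∈ Sa a,
      #(cset (OmH u (insert h S)) A B (primorial w) a ∅ (prI w T')) := by
    refine (card_le_card hsub).trans (card_biUnion_le.trans (sum_le_sum fun a _ => card_biUnion_le))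
  have h2 : (#(Zset A B T T' w S) : ℝ) ≤ ∑ a ∈ Adm w S, ∑ h ∈ Sa a,
      (#(cset (OmH u (insert h S)) A B (primorial w) a ∅ (prI w T')) : ℝ) := by exact_mod_cast h1
  refine h2.trans ?_
  have hT'0 : (0 : ℝ) ≤ (T' : ℝ) ^ e := by positivity
  have hP0 : 0 < PK (κ + 1) w T' := PK_pos (by omega)
  have h3 : ∀ a ∈ Adm w S, ∑ h ∈ Sa a,
      (#(cset (OmH u (insert h S)) A B (primorial w) a ∅ (prI w T')) : ℝ)
      ≤ K * ((3 / 2) * (((B : ℝ) - A) / primorial w * PK (κ + 1) w T') + (T' : ℝ) ^ e) := by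
    intro a _
    have h4 : ∀ h ∈ Sa a, (#(cset (OmH u (insert h S)) A B (primorial w) a ∅ (prI w T')) : ℝ)
        ≤ (3 / 2) * (((B : ℝ) - A) / primorial w * PK (κ + 1) w T') + (T' : ℝ) ^ e := by
      intro h hh
      rw [hSa] at hh
      simp only at hh
      have hh' := mem_filter.mp hh
      have hcard : #(insert h S) = κ + 1 := by
        rw [card_insert_of_notMem hh'.2.1, hS]
      have h5 := (abs_le.mp (hfl (insert h S) hcard (primorial w) a hQ
        (fun ℓ hℓ => coprime_primorial hℓ))).2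
      have hPle := prod_OmH_le (κ := κ + 1) (u := u) (w := w) (T := T') hcard (by omega) huw
        (fun h' hh' => by
          rcases mem_insert.mp hh' with rfl | h6
          · exact (mem_Icc.mp (mem_filter.mp hh).1).2
          · exact hSw h' h6)
      have h6 : ((B : ℝ) - A) / primorial w * ∏ ℓ ∈ prI w T', (1 - xb (OmH u (insert h S)) ℓ)
          ≤ ((B : ℝ) - A) / primorial w * PK (κ + 1) w T' :=
        mul_le_mul_of_nonneg_left hPle (by positivity)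
      linarith
    calc ∑ h ∈ Sa a, (#(cset (OmH u (insert h S)) A B (primorial w) a ∅ (prI w T')) : ℝ)
        ≤ ∑ _h ∈ Sa a, ((3 / 2) * (((B : ℝ) - A) / primorial w * PK (κ + 1) w T') + (T' : ℝ) ^ e) :=
          sum_le_sum h4
      _ = #(Sa a) * ((3 / 2) * (((B : ℝ) - A) / primorial w * PK (κ + 1) w T') + (T' : ℝ) ^ e) := by
          rw [sum_const, nsmul_eq_mul]
      _ ≤ _ := mul_le_mul_of_nonneg_right (hSacard a) (by positivity)
  have h4 := sum_le_sum h3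
  rw [sum_const, nsmul_eq_mul] at h4
  exact h4

end Pool.Agent.Lib.MP_b61f81_nt
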