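import Pool.Agent.Lib.MP_b61f81_nt.Sing

/-!
# Windows of consecutive primes with given imbalance
-/

set_option autoImplicit false

open Finset

namespace Pool.Agent.Lib.MP_b61f81_nt

open Pool.Agent.Lib.MP_bae66e_nt Pool.Agent.Lib.MP_bae66e_nt.LL

/-- coefficients of the imbalance in terms of the gaps -/
def cc (k : ℕ) (j : ℕ) : ℤ :=
  (#{i ∈ Icc 1 k | k ≤ j ∧ j < k + i} : ℤ) - #{i ∈ Icc 1 k | k ≤ j + i ∧ j < k}

lemma cc_pos {k j : ℕ} (hj : j < 2 * k) (h : k ≤ j) : 0 < cc k j := by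
  unfold cc
  have h1 : ({i ∈ Icc 1 k | k ≤ j + i ∧ j < k} : Finset ℕ) = ∅ := by
    rw [Finset.filter_eq_empty_iff]
    intro i _
    omega
  have h2 : 0 < #({i ∈ Icc 1 k | k ≤ j ∧ j < k + i} : Finset ℕ) := by
    rw [Finset.card_pos]
    exact ⟨k, mem_filter.mpr ⟨mem_Icc.mpr ⟨by omega, le_rfl⟩, h, by omega⟩⟩
  rw [h1, Finset.card_empty]
  simpa using h2

lemma cc_neg {k j : ℕ} (h : j < k) : cc k j < 0 := by
  unfold cc
  have h1 : ({i ∈ Icc 1 k | k ≤ j ∧ j < k + i} : Finset ℕ) = ∅ := by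
    rw [Finset.filter_eq_empty_iff]
    intro i _
    omega
  have h2 : 0 < #({i ∈ Icc 1 k | k ≤ j + i ∧ j < k} : Finset ℕ) := by
    rw [Finset.card_pos]
    exact ⟨k, mem_filter.mpr ⟨mem_Icc.mpr ⟨by omega, le_rfl⟩, by omega, h⟩⟩
  rw [h1, Finset.card_empty]
  simpa using h2

lemma sum_Ico_diff (f : ℕ → ℤ) (a b : ℕ) (h : a ≤ b) :
    ∑ j ∈ Ico a b, (f (j + 1) - f j) = f b - f a := by
  induction b, h using Nat.le_induction with
  | base => simp
  | succ b hb ih => rw [Finset.sum_Ico_succ_top hb, ih]; ring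

/-- the imbalance as a linear form in the gaps, for any sequence -/
lemma imb_eq (f : ℕ → ℤ) (k s : ℕ) :
    ∑ i ∈ Icc 1 k, (f (s + k + i) + f (s + k - i)) - 2 * k * f (s + k)
      = ∑ j ∈ range (2 * k), cc k j * (f (s + j + 1) - f (s + j)) := by
  set F : ℕ → ℤ := fun j => f (s + j) with hF
  have h1 : ∀ i ∈ Icc 1 k, f (s + k + i) + f (s + k - i) - 2 * f (s + k)
      = ∑ j ∈ range (2 * k), (if k ≤ j ∧ j < k + i then (F (j + 1) - F j) else 0)
        - ∑ j ∈ range (2 * k), (if k ≤ j + i ∧ j < k then (F (j + 1) - F j) else 0) := by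
    intro i hi
    rw [mem_Icc] at hi
    rw [← Finset.sum_filter, ← Finset.sum_filter]
    have e1 : ({j ∈ range (2 * k) | k ≤ j ∧ j < k + i} : Finset ℕ) = Ico k (k + i) := by
      ext j; simp only [mem_filter, mem_range, mem_Ico]; omega
    have e2 : ({j ∈ range (2 * k) | k ≤ j + i ∧ j < k} : Finset ℕ) = Ico (k - i) k := by
      ext j; simp only [mem_filter, mem_range, mem_Ico]; omega
    rw [e1, e2, sum_Ico_diff F _ _ (by omega), sum_Ico_diff F _ _ (by omega), hF]
    have e3 : s + k - i = s + (k - i) := by omega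
    simp only
    rw [e3, ← add_assoc s k i]
    ring
  have h2 : ∑ i ∈ Icc 1 k, (f (s + k + i) + f (s + k - i)) - 2 * k * f (s + k)
      = ∑ i ∈ Icc 1 k, (f (s + k + i) + f (s + k - i) - 2 * f (s + k)) := by
    rw [Finset.sum_sub_distrib, Finset.sum_const, Nat.card_Icc]
    simp only [nsmul_eq_mul, add_tsub_cancel_right]
    ring
  rw [h2, Finset.sum_congr rfl h1, Finset.sum_sub_distrib, Finset.sum_comm,
    Finset.sum_comm (s := Icc 1 k) (t := range (2 * k))
      (f := fun i j => if k ≤ j + i ∧ j < k then (F (j + 1) - F j) else 0), ← Finset.sum_sub_distrib]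
  apply Finset.sum_congr rfl
  intro j _
  rw [← Finset.sum_filter, ← Finset.sum_filter, Finset.sum_const, Finset.sum_const]
  unfold cc
  simp only [nsmul_eq_mul, hF]
  rw [← add_assoc s j 1]
  ring

/-- the imbalance of order `k` at the `n`-th prime: `2k` times (mean of the neighbours minus `p_n`) -/
noncomputable def imb (k n : ℕ) : ℤ :=
  ∑ i ∈ Icc 1 k, ((Nat.nth Nat.Prime (n + i) : ℤ) + (Nat.nth Nat.Prime (n - i) : ℤ))
    - 2 * k * (Nat.nth Nat.Prime n : ℤ)

/-- the `n`-th prime gap -/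
noncomputable def gp (n : ℕ) : ℕ := Nat.nth Nat.Prime (n + 1) - Nat.nth Nat.Prime n

lemma nth_lt (n : ℕ) : Nat.nth Nat.Prime n < Nat.nth Nat.Prime (n + 1) :=
  Nat.nth_strictMono Nat.infinite_setOfPred_prime (Nat.lt_succ_self n)

lemma gp_pos (n : ℕ) : 1 ≤ gp n := by
  unfold gp
  have := nth_lt n
  omega

lemma gp_cast (n : ℕ) : (gp n : ℤ) = (Nat.nth Nat.Prime (n + 1) : ℤ) - Nat.nth Nat.Prime n := by
  unfold gp
  rw [Nat.cast_sub (nth_lt n).le]

lemma imb_eq_gaps (k s : ℕ) :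
    imb k (s + k) = ∑ j : Fin (2 * k), cc k j * (gp (s + j) : ℤ) := by
  have h := imb_eq (fun n => (Nat.nth Nat.Prime n : ℤ)) k s
  unfold imb
  rw [h, Finset.sum_range]
  apply Finset.sum_congr rfl
  intro j _
  rw [gp_cast]

lemma nth_add_Hs {m : ℕ} (s : ℕ) (g : Fin m → ℕ) (hg : ∀ j : Fin m, g j = gp (s + j)) (i : Fin m) :
    Nat.nth Nat.Prime (s + i + 1) = Nat.nth Nat.Prime s + Hs g i := by
  have h1 : Hs g i = ∑ j ∈ range (i + 1 : ℕ), gp (s + j) := by
    unfold Hs
    rw [Finset.sum_congr rfl fun j _ => hg j]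
    symm
    refine Finset.sum_bij' (fun j hj => (⟨j, lt_of_lt_of_le (mem_range.mp hj) i.isLt⟩ : Fin m))
      (fun j _ => (j : ℕ)) ?_ ?_ ?_ ?_ ?_
    · intro j hj
      rw [mem_Iic, Fin.le_def]
      have := mem_range.mp hj
      simp only
      omega
    · intro j hj
      rw [mem_Iic, Fin.le_def] at hj
      rw [mem_range]
      omega
    · intro j hj; rfl
    · intro j hj; rfl
    · intro j hj; rfl
  have h2 : ∀ n : ℕ, Nat.nth Nat.Prime (s + n) = Nat.nth Nat.Prime s + ∑ j ∈ range n, gp (s + j) := by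
    intro n
    induction n with
    | zero => simp
    | succ n ih =>
      rw [Finset.sum_range_succ, ← add_assoc (Nat.nth Nat.Prime s), ← ih, ← add_assoc s n 1]
      unfold gp
      have := nth_lt (s + n)
      omega
  rw [h1, ← h2, add_assoc]

/-- **Windows with given imbalance.** -/
theorem exists_window (k : ℕ) (hk : 1 ≤ k) : ∃ C : ℝ, 0 < C ∧ ∀ T X : ℕ, 2 ≤ X → ∀ v : ℤ,
    ∀ S : Finset ℕ, (∀ s ∈ S, Nat.nth Nat.Prime s ≤ X ∧ (∀ j < 2 * k, gp (s + j) ≤ T) ∧
      imb k (s + k) = v) →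
    ((#S : ℕ) : ℝ) ≤ C * (T : ℝ) ^ (2 * k - 1) * (X / (Real.log X) ^ (2 * k + 1)) := by
  have hm : 2 ≤ 2 * k := by omega
  obtain ⟨C1, hC1, hC1'⟩ := selberg_tuple (2 * k)
  obtain ⟨C2, hC2, hC2'⟩ := exists_box_weight hm (fun j : Fin (2 * k) => cc k j)
    (fun j => by
      rcases lt_or_ge (j : ℕ) k with h | h
      · exact (cc_neg h).ne
      · exact (cc_pos j.isLt h).ne')
    ⟨0, by omega⟩ ⟨k, by omega⟩
    (by
      have h1 := cc_neg (k := k) (j := 0) (by omega)
      have h2 := cc_pos (k := k) (j := k) (by omega) le_rfl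
      exact (h1.trans h2).ne)
  refine ⟨C1 * C2, by positivity, ?_⟩
  intro T X hX v S hS
  have hlog : 0 < Real.log X := Real.log_pos (by exact_mod_cast (by omega : 1 < X))
  set G : ℕ → (Fin (2 * k) → ℕ) := fun s j => gp (s + j) with hG
  have hmaps : ∀ s ∈ S, G s ∈ box (fun j : Fin (2 * k) => cc k j) T v := by
    intro s hs
    obtain ⟨_, h2, h3⟩ := hS s hs
    unfold box
    rw [mem_filter, Fintype.mem_piFinset]
    refine ⟨fun j => mem_Icc.mpr ⟨gp_pos _, h2 j j.isLt⟩, ?_⟩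
    rw [← h3, imb_eq_gaps]
  rw [Finset.card_eq_sum_card_fiberwise hmaps]
  push_cast
  have hfib : ∀ g ∈ box (fun j : Fin (2 * k) => cc k j) T v,
      ((#{s ∈ S | G s = g} : ℕ) : ℝ) ≤ C1 * WW g * (X / (Real.log X) ^ (2 * k + 1)) := by
    intro g hg
    have hg1 : ∀ j, 1 ≤ g j := fun j =>
      (mem_Icc.mp (Fintype.mem_piFinset.mp (mem_filter.mp hg).1 j)).1
    have hH1 : ∀ i, 1 ≤ Hs g i := by
      intro i
      unfold Hs
      exact (hg1 i).trans (Finset.single_le_sum (f := g) (fun _ _ => Nat.zero_le _)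
        (mem_Iic.mpr le_rfl))
    have hHinj : Function.Injective (Hs g) := by
      intro i l hil
      by_contra hne
      rcases lt_or_gt_of_ne hne with h | h
      · have h2 := Hs_sub g i l h
        rw [hil, sub_self] at h2
        have h3 : g l ≤ ∑ j ∈ Ioc i l, g j :=
          Finset.single_le_sum (f := g) (fun _ _ => Nat.zero_le _) (mem_Ioc.mpr ⟨h, le_rfl⟩)
        have := hg1 l
        simp at h2
        omega
      · have h2 := Hs_sub g l i h
        rw [hil, sub_self] at h2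
        have h3 : g i ≤ ∑ j ∈ Ioc l i, g j :=
          Finset.single_le_sum (f := g) (fun _ _ => Nat.zero_le _) (mem_Ioc.mpr ⟨h, le_rfl⟩)
        have := hg1 i
        simp at h2
        omega
    have h5 := hC1' (Hs g) hH1 hHinj X hX
    refine le_trans ?_ h5
    norm_cast
    apply Finset.card_le_card_of_injOn (fun s => Nat.nth Nat.Prime s)
    · intro s hs
      have hs' := mem_filter.mp hs
      obtain ⟨h2, _, _⟩ := hS s hs'.1
      have hp := Nat.prime_nth_prime s
      rw [Finset.mem_coe, mem_filter, mem_Ioc]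
      refine ⟨⟨hp.pos, h2⟩, hp, ?_⟩
      intro i
      have h6 := nth_add_Hs s g (fun j => by rw [← hs'.2]) i
      rw [← h6]
      exact Nat.prime_nth_prime _
    · intro s _ s' _ h
      exact Nat.nth_injective Nat.infinite_setOfPred_prime h
  calc ∑ g ∈ box (fun j : Fin (2 * k) => cc k j) T v, ((#{s ∈ S | G s = g} : ℕ) : ℝ)
      ≤ ∑ g ∈ box (fun j : Fin (2 * k) => cc k j) T v,
          C1 * WW g * (X / (Real.log X) ^ (2 * k + 1)) := Finset.sum_le_sum hfib
    _ = C1 * (∑ g ∈ box (fun j : Fin (2 * k) => cc k j) T v, WW g)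
          * (X / (Real.log X) ^ (2 * k + 1)) := by
        rw [Finset.mul_sum, Finset.sum_mul]
    _ ≤ C1 * (C2 * (T : ℝ) ^ (2 * k - 1)) * (X / (Real.log X) ^ (2 * k + 1)) := by
        apply mul_le_mul_of_nonneg_right _ (by positivity)
        exact mul_le_mul_of_nonneg_left (hC2' T v) hC1.le
    _ = _ := by ring

end Pool.Agent.Lib.MP_b61f81_nt
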